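import Pool.Agent.UBV.Gadget

set_option autoImplicit false

namespace Pool.Agent.UBV

variable {V : Type*} {G : SimpleGraph V} {x y z : V} {A A' : Finset V} {S S' : V → V → Prop}
  {i j k i' j' k' : ℕ}

theorem bd_mono (hi : i ≤ i') (hj : j ≤ j') (hk : k ≤ k') (v : V) :
    bd x y z A i j k v ≤ bd x y z A i' j' k' v := by
  unfold bd
  have h1 := Nat.mul_le_mul_right (ind x v) hi
  have h2 := Nat.mul_le_mul_right (ind y v) hj
  have h3 := Nat.mul_le_mul_right (ind z v) hk
  omega

theorem RG.mono (h : RG G x y z A S i j k) (hi : i ≤ i') (hj : j ≤ j') (hk : k ≤ k') :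
    RG G x y z A S i' j' k' := Rep.mono h (bd_mono hi hj hk)

theorem RG.congr (h : RG G x y z A S i j k)
    (hS : ∀ a b, inT x y z a → inT x y z b → a ≠ b → G.Adj a b → (S a b ↔ S' a b)) :
    RG G x y z A S' i j k := by
  refine Rep.congr h fun a b hab => ?_
  unfold ER
  constructor
  · rintro ⟨hG, h | h | ⟨h1, h2, h3⟩⟩
    · exact ⟨hG, Or.inl h⟩
    · exact ⟨hG, Or.inr (Or.inl h)⟩
    · exact ⟨hG, Or.inr (Or.inr ⟨h1, h2, (hS a b h1 h2 hab hG).1 h3⟩)⟩
  · rintro ⟨hG, h | h | ⟨h1, h2, h3⟩⟩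
    · exact ⟨hG, Or.inl h⟩
    · exact ⟨hG, Or.inr (Or.inl h)⟩
    · exact ⟨hG, Or.inr (Or.inr ⟨h1, h2, (hS a b h1 h2 hab hG).2 h3⟩)⟩

theorem RG.empty : RG G x y z ∅ (fun _ _ => False) 0 0 0 := by
  refine Rep.congr (Rep.empty _) fun a b _ => ?_
  simp [ER]

theorem RG.union [DecidableEq V] (h : RG G x y z A S i j k) (h' : RG G x y z A' S' i' j' k')
    (hd : Disjoint A A') :
    RG G x y z (A ∪ A') (fun a b => S a b ∨ S' a b) (i + i') (j + j') (k + k') := by
  have h2 := Rep.union h h'
  refine (h2.congr fun a b _ => ?_).mono fun v => ?_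
  · unfold ER
    simp only [Finset.mem_union]
    tauto
  · unfold bd
    have : iA (A ∪ A') v = iA A v + iA A' v := by
      by_cases h1 : v ∈ A
      · have h2 : v ∉ A' := fun h => Finset.disjoint_left.1 hd h1 h
        rw [iA_mem h1, iA_notMem h2, iA_mem (Finset.mem_union_left _ h1)]
      · by_cases h2 : v ∈ A'
        · rw [iA_notMem h1, iA_mem h2, iA_mem (Finset.mem_union_right _ h2)]
        · rw [iA_notMem h1, iA_notMem h2, iA_notMem]
          simp [h1, h2]
    rw [this]
    ring_nf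
    rfl

/-- union with a part without edges inside `x, y, z` -/
theorem RG.union0 [DecidableEq V] (h : RG G x y z A S i j k)
    (h' : RG G x y z A' (fun _ _ => False) i' j' k') (hd : Disjoint A A') :
    RG G x y z (A ∪ A') S (i + i') (j + j') (k + k') := by
  have h2 := RG.union h h' hd
  refine RG.congr h2 fun a b _ _ _ _ => ?_
  simp

theorem RG.swap12 (h : RG G x y z A S i j k) : RG G y x z A S j i k := by
  refine (Rep.congr h fun a b _ => ?_).mono fun v => ?_
  · unfold ER inT
    constructor <;> rintro ⟨hG, h⟩ <;> refine ⟨hG, ?_⟩ <;> tauto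
  · unfold bd; omega

theorem RG.swap23 (h : RG G x y z A S i j k) : RG G x z y A S i k j := by
  refine (Rep.congr h fun a b _ => ?_).mono fun v => ?_
  · unfold ER inT
    constructor <;> rintro ⟨hG, h⟩ <;> refine ⟨hG, ?_⟩ <;> tauto
  · unfold bd; omega

/-- abbreviation: no edges inside `x, y, z` -/
abbrev N0 (V : Type*) : V → V → Prop := fun _ _ => False

/-- abbreviation: all edges inside `x, y, z` -/
abbrev N1 (V : Type*) : V → V → Prop := fun _ _ => True

end Pool.Agent.UBV
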