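import Pool.Agent.UBV.Tower

set_option autoImplicit false

namespace Pool.Agent.UBV

variable {V : Type*}

/-- boolean version of `On` -/
def onB : List (ℕ × ℤ) → ℕ → ℕ → Bool
  | [], _, _ => false
  | (v, p) :: l, x, y => onB l x y || (v == x && (sky l p == some y || sky l (p + 1) == some y ||
      sky l (p + 2) == some y || sky l (p + 3) == some y))

theorem onB_iff (l : List (ℕ × ℤ)) (x y : ℕ) : onB l x y = true ↔ On l x y := by
  induction l with
  | nil => simp [onB, On]
  | cons b l ih =>
    obtain ⟨v, p⟩ := b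
    simp only [onB, On, Bool.or_eq_true, ih, Bool.and_eq_true, beq_iff_eq, exists_four]
    tauto

/-- computable version of `cnt` -/
def cntB : List (ℕ × ℤ) → ℕ → ℕ
  | [], _ => 0
  | (v, _) :: l, x => cntB l x + (if v = x then 1 else 0)

theorem cntB_eq (l : List (ℕ × ℤ)) (x : ℕ) : cntB l x = cnt l x := by
  induction l with
  | nil => rfl
  | cons b l ih =>
    obtain ⟨v, p⟩ := b
    simp only [cntB, cnt, ih]
    congr

/-- binary digits -/
def tb (m i : ℕ) : Bool := if i = 0 then m % 2 == 1 else if i = 1 then m / 2 % 2 == 1 else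
  m / 4 % 2 == 1

/-- the edges between the three main labels `0, 1, 2` -/
def teb (te i j : ℕ) : Bool :=
  if (i = 0 ∧ j = 1) ∨ (i = 1 ∧ j = 0) then tb te 0
  else if (i = 1 ∧ j = 2) ∨ (i = 2 ∧ j = 1) then tb te 1
  else if (i = 0 ∧ j = 2) ∨ (i = 2 ∧ j = 0) then tb te 2 else false

/-- the expected adjacency -/
def expd (ty : ℕ → ℕ) (te i j : ℕ) : Bool :=
  if i < 3 then (if j < 3 then teb te i j else tb (ty (j - 3)) i)
  else (if j < 3 then tb (ty (i - 3)) j else false)

/-- checker for gadgets -/
def check (l : List (ℕ × ℤ)) (q : ℕ) (ty : ℕ → ℕ) (te κ0 κ1 κ2 : ℕ) : Bool :=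
  l.all (fun b => decide (b.1 < 3 + q)) &&
  (List.range (3 + q)).all (fun i => (List.range (3 + q)).all fun j =>
    i == j || ((onB l i j || onB l j i) == expd ty te i j)) &&
  decide (cntB l 0 ≤ κ0) && decide (cntB l 1 ≤ κ1) && decide (cntB l 2 ≤ κ2) &&
  (List.range q).all (fun j => decide (cntB l (3 + j) ≤ 1))

/-- the three special vertices -/
def inT (x y z a : V) : Prop := a = x ∨ a = y ∨ a = z

/-- the edges of `G` between `A` and `x, y, z`, and those edges between `x, y, z` which are in `S` -/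
def ER (G : SimpleGraph V) (x y z : V) (A : Finset V) (S : V → V → Prop) (a b : V) : Prop :=
  G.Adj a b ∧ ((a ∈ A ∧ inT x y z b) ∨ (inT x y z a ∧ b ∈ A) ∨
    (inT x y z a ∧ inT x y z b ∧ S a b))

open Classical in
/-- indicator of a finite set -/
noncomputable def iA (A : Finset V) (v : V) : ℕ := if v ∈ A then 1 else 0

theorem iA_mem {A : Finset V} {v : V} (h : v ∈ A) : iA A v = 1 := by simp [iA, h]

theorem iA_notMem {A : Finset V} {v : V} (h : v ∉ A) : iA A v = 0 := by simp [iA, h]

/-- the budget: one bar for the members of `A`, `i, j, k` bars for `x, y, z` -/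
noncomputable def bd (x y z : V) (A : Finset V) (i j k : ℕ) (v : V) : ℕ :=
  iA A v + (i * ind x v + j * ind y v + k * ind z v)

/-- the main predicate -/
def RG (G : SimpleGraph V) (x y z : V) (A : Finset V) (S : V → V → Prop) (i j k : ℕ) : Prop :=
  Rep (ER G x y z A S) (bd x y z A i j k)

open Classical in
/-- the type of a vertex -/
noncomputable def tyG (G : SimpleGraph V) (x y z u : V) : ℕ :=
  (if G.Adj u x then 1 else 0) + (if G.Adj u y then 2 else 0) + (if G.Adj u z then 4 else 0)

theorem tyG_lt (G : SimpleGraph V) (x y z u : V) : tyG G x y z u < 8 := by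
  unfold tyG; split_ifs <;> norm_num

theorem tb_ty0 (G : SimpleGraph V) (x y z u : V) : tb (tyG G x y z u) 0 = true ↔ G.Adj u x := by
  unfold tyG tb; split_ifs <;> simp_all

theorem tb_ty1 (G : SimpleGraph V) (x y z u : V) : tb (tyG G x y z u) 1 = true ↔ G.Adj u y := by
  unfold tyG tb; split_ifs <;> simp_all

theorem tb_ty2 (G : SimpleGraph V) (x y z u : V) : tb (tyG G x y z u) 2 = true ↔ G.Adj u z := by
  unfold tyG tb; split_ifs <;> simp_all

/-- the labelling of a gadget -/
def flab (x y z : V) (u : ℕ → V) (i : ℕ) : V :=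
  if i = 0 then x else if i = 1 then y else if i = 2 then z else u (i - 3)

open Classical in
/-- soundness of the checker -/
theorem gadget {G : SimpleGraph V} {x y z : V} (hxy : x ≠ y) (hyz : y ≠ z) (hxz : x ≠ z) (q : ℕ)
    (u : ℕ → V) (hu : ∀ i < q, ∀ j < q, u i = u j → i = j)
    (hux : ∀ i < q, u i ≠ x ∧ u i ≠ y ∧ u i ≠ z) (A : Finset V)
    (hA : ∀ a, a ∈ A ↔ ∃ i < q, u i = a) (S : V → V → Prop) (te κ0 κ1 κ2 : ℕ)
    (l : List (ℕ × ℤ)) (ty : ℕ → ℕ) (hty : ∀ i < q, ty i = tyG G x y z (u i))
    (h0 : tb te 0 = true ↔ (G.Adj x y ∧ S x y)) (h1 : tb te 1 = true ↔ (G.Adj y z ∧ S y z))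
    (h2 : tb te 2 = true ↔ (G.Adj x z ∧ S x z)) (hS : ∀ a b, S a b → S b a)
    (hc : check l q ty te κ0 κ1 κ2 = true) : RG G x y z A S κ0 κ1 κ2 := by
  unfold check at hc
  simp only [Bool.and_eq_true, List.all_eq_true, decide_eq_true_eq, List.mem_range,
    Bool.or_eq_true, beq_iff_eq] at hc
  obtain ⟨⟨⟨⟨⟨hlab, hadj⟩, hc0⟩, hc1⟩, hc2⟩, hcu⟩ := hc
  have hlab' : LabLt (3 + q) l := hlab
  have f0 : flab x y z u 0 = x := by simp [flab]
  have f1 : flab x y z u 1 = y := by simp [flab]
  have f2 : flab x y z u 2 = z := by simp [flab]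
  have f3 : ∀ i, flab x y z u (3 + i) = u i := by
    intro i
    unfold flab
    rw [if_neg (by omega), if_neg (by omega), if_neg (by omega)]
    congr 1; omega
  have key : ∀ i < 3 + q, ∀ j < 3 + q, i ≠ j →
      ((On l i j ∨ On l j i) ↔ expd ty te i j = true) := by
    intro i hi j hj hij
    rcases hadj i hi j hj with h | h
    · exact absurd h hij
    · rw [← h, Bool.or_eq_true, onB_iff, onB_iff]
  refine ⟨relab (flab x y z u) l, ?_, ?_⟩
  · intro v
    rw [cnt_relab _ _ hlab' v, Finset.sum_range_add, ]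
    have e1 : ∑ i ∈ Finset.range 3, (if flab x y z u i = v then cnt l i else 0) ≤
        κ0 * ind x v + κ1 * ind y v + κ2 * ind z v := by
      rw [Finset.sum_range_succ, Finset.sum_range_succ, Finset.sum_range_succ,
        Finset.sum_range_zero, f0, f1, f2]
      rw [cntB_eq] at hc0 hc1 hc2
      unfold ind
      split_ifs <;> omega
    have e2 : ∑ i ∈ Finset.range q, (if flab x y z u (3 + i) = v then cnt l (3 + i) else 0) ≤
        iA A v := by
      by_cases hv : v ∈ A
      · rw [iA_mem hv]
        obtain ⟨i, hi, rfl⟩ := (hA v).1 hv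
        rw [Finset.sum_eq_single i]
        · split_ifs
          · have := hcu i hi
            rw [cntB_eq] at this
            exact this
          · exact Nat.zero_le _
        · intro j hj hji
          rw [f3, if_neg]
          intro h
          exact hji (hu j (Finset.mem_range.1 hj) i hi h)
        · intro h; exact absurd (Finset.mem_range.2 hi) h
      · rw [iA_notMem hv]
        refine le_of_eq (Finset.sum_eq_zero ?_)
        intro j hj
        rw [f3, if_neg]
        intro h
        exact hv ((hA v).2 ⟨j, Finset.mem_range.1 hj, h⟩)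
    unfold bd
    omega
  · intro a b hab
    rw [on_relab, on_relab]
    have hT : ∀ a, inT x y z a → ∃ i < 3, flab x y z u i = a := by
      rintro a (rfl | rfl | rfl)
      · exact ⟨0, by omega, f0⟩
      · exact ⟨1, by omega, f1⟩
      · exact ⟨2, by omega, f2⟩
    have hux' : ∀ i < q, ∀ j < 3, (tb (ty i) j = true ↔ G.Adj (u i) (flab x y z u j)) := by
      intro i hi j hj
      rw [hty i hi]
      have : j = 0 ∨ j = 1 ∨ j = 2 := by omega
      rcases this with rfl | rfl | rfl
      · rw [f0]; exact tb_ty0 G x y z (u i)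
      · rw [f1]; exact tb_ty1 G x y z (u i)
      · rw [f2]; exact tb_ty2 G x y z (u i)
    have hTT : ∀ i < 3, ∀ j < 3, i ≠ j → (teb te i j = true ↔
        (G.Adj (flab x y z u i) (flab x y z u j) ∧ S (flab x y z u i) (flab x y z u j))) := by
      intro i hi j hj hij
      have hi' : i = 0 ∨ i = 1 ∨ i = 2 := by omega
      have hj' : j = 0 ∨ j = 1 ∨ j = 2 := by omega
      have hSc : ∀ p r, (G.Adj p r ∧ S p r) ↔ (G.Adj r p ∧ S r p) := fun p r =>
        and_congr (G.adj_comm p r) ⟨hS p r, hS r p⟩
      rcases hi' with rfl | rfl | rfl <;> rcases hj' with rfl | rfl | rfl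
      · exact absurd rfl hij
      · rw [f0, f1]; exact h0
      · rw [f0, f2]; exact h2
      · rw [f0, f1, hSc]; exact h0
      · exact absurd rfl hij
      · rw [f1, f2]; exact h1
      · rw [f0, f2, hSc]; exact h2
      · rw [f1, f2, hSc]; exact h1
      · exact absurd rfl hij
    constructor
    · rintro ⟨hG, (⟨ha, hb⟩ | ⟨ha, hb⟩ | ⟨ha, hb, hSab⟩)⟩
      · obtain ⟨i, hi, rfl⟩ := (hA a).1 ha
        obtain ⟨j, hj, rfl⟩ := hT b hb
        have h := (key (3 + i) (by omega) j (by omega) (by omega)).2 (by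
          unfold expd
          rw [if_neg (by omega), if_pos hj]
          have : 3 + i - 3 = i := by omega
          rw [this, hux' i hi j hj]; exact hG)
        rcases h with h | h
        · exact Or.inl ⟨_, _, f3 i, rfl, h⟩
        · exact Or.inr ⟨_, _, rfl, f3 i, h⟩
      · obtain ⟨i, hi, rfl⟩ := (hA b).1 hb
        obtain ⟨j, hj, rfl⟩ := hT a ha
        have h := (key (3 + i) (by omega) j (by omega) (by omega)).2 (by
          unfold expd
          rw [if_neg (by omega), if_pos hj]
          have : 3 + i - 3 = i := by omega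
          rw [this, hux' i hi j hj]; exact hG.symm)
        rcases h with h | h
        · exact Or.inr ⟨_, _, f3 i, rfl, h⟩
        · exact Or.inl ⟨_, _, rfl, f3 i, h⟩
      · obtain ⟨i, hi, rfl⟩ := hT a ha
        obtain ⟨j, hj, rfl⟩ := hT b hb
        have hij : i ≠ j := by rintro rfl; exact hab rfl
        have h := (key i (by omega) j (by omega) hij).2 (by
          unfold expd
          rw [if_pos hi, if_pos hj]
          exact (hTT i hi j hj hij).2 ⟨hG, hSab⟩)
        rcases h with h | h
        · exact Or.inl ⟨_, _, rfl, rfl, h⟩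
        · exact Or.inr ⟨_, _, rfl, rfl, h⟩
    · have main : ∀ i < 3 + q, ∀ j < 3 + q, flab x y z u i = a → flab x y z u j = b →
          (On l i j ∨ On l j i) → ER G x y z A S a b := by
        intro i hi j hj ea eb h
        have hij : i ≠ j := by rintro rfl; exact hab (ea.symm.trans eb)
        have h' := (key i hi j hj hij).1 h
        unfold expd at h'
        have hTf : ∀ i < 3, inT x y z (flab x y z u i) := by
          intro i hi
          have : i = 0 ∨ i = 1 ∨ i = 2 := by omega
          rcases this with rfl | rfl | rfl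
          · rw [f0]; exact Or.inl rfl
          · rw [f1]; exact Or.inr (Or.inl rfl)
          · rw [f2]; exact Or.inr (Or.inr rfl)
        split_ifs at h' with hi3 hj3 hj3
        · have h2 := (hTT i hi3 j hj3 hij).1 h'
          rw [ea, eb] at h2
          exact ⟨h2.1, Or.inr (Or.inr ⟨ea ▸ hTf i hi3, eb ▸ hTf j hj3, h2.2⟩)⟩
        · obtain ⟨j', rfl⟩ : ∃ j', j = 3 + j' := ⟨j - 3, by omega⟩
          have : 3 + j' - 3 = j' := by omega
          rw [this, hux' j' (by omega) i hi3, ea] at h'
          rw [f3] at eb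
          rw [eb] at h'
          exact ⟨h'.symm, Or.inr (Or.inl ⟨ea ▸ hTf i hi3, (hA b).2 ⟨j', by omega, eb⟩⟩)⟩
        · obtain ⟨i', rfl⟩ : ∃ i', i = 3 + i' := ⟨i - 3, by omega⟩
          have : 3 + i' - 3 = i' := by omega
          rw [this, hux' i' (by omega) j hj3, eb] at h'
          rw [f3] at ea
          rw [ea] at h'
          exact ⟨h', Or.inl ⟨(hA a).2 ⟨i', by omega, ea⟩, eb ▸ hTf j hj3⟩⟩
      rintro (⟨i, j, ea, eb, h⟩ | ⟨i, j, eb, ea, h⟩)
      · exact main i (on_lt hlab' h).1 j (on_lt hlab' h).2 ea eb (Or.inl h)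
      · exact main j (on_lt hlab' h).2 i (on_lt hlab' h).1 ea eb (Or.inr h)

end Pool.Agent.UBV
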