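import Pool.Agent.UBV.NonFull

set_option autoImplicit false
set_option linter.unusedSectionVars false

namespace Pool.Agent.UBV

variable {V : Type*} [DecidableEq V] {G : SimpleGraph V} {x y z : V}

/-- the periodic labelling -/
def tau (x y z : V) (n : ℕ) : V := if n % 3 = 0 then x else if n % 3 = 1 then y else z

theorem inT_tau (t : ℕ) (b : V) : inT x y z b ↔
    (b = tau x y z t ∨ b = tau x y z (t + 1) ∨ b = tau x y z (t + 2)) := by
  unfold inT tau
  have h : t % 3 = 0 ∨ t % 3 = 1 ∨ t % 3 = 2 := by omega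
  rcases h with h | h | h
  · rw [if_pos h, if_neg (by omega), if_pos (by omega), if_neg (by omega), if_neg (by omega)]
  · rw [if_neg (by omega), if_pos h, if_neg (by omega), if_neg (by omega), if_pos (by omega)]
    tauto
  · rw [if_neg (by omega), if_neg (by omega), if_pos (by omega), if_neg (by omega),
      if_pos (by omega)]
    tauto

/-- the edges inside `x, y, z` available in a ladder with `t` rungs -/
def SS (x y z : V) (t : ℕ) (a b : V) : Prop :=
  Pr x y a b ∨ (1 ≤ t ∧ Pr y z a b) ∨ (2 ≤ t ∧ Pr x z a b)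

theorem bd_step (A : Finset V) {f : V} (hf : f ∉ A) (t : ℕ) (v : V) :
    bd x y z A ((t + 4) / 3) ((t + 3) / 3) ((t + 2) / 3) v + (ind f v + ind (tau x y z (t + 2)) v) ≤
      bd x y z (insert f A) ((t + 1 + 4) / 3) ((t + 1 + 3) / 3) ((t + 1 + 2) / 3) v := by
  have h1 : iA A v + ind f v = iA (insert f A) v := by
    by_cases hv : f = v
    · subst hv
      rw [iA_notMem hf, iA_mem (Finset.mem_insert_self _ _)]
      simp [ind]
    · by_cases h : v ∈ A
      · rw [iA_mem h, iA_mem (Finset.mem_insert_of_mem h)]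
        simp [ind, hv]
      · rw [iA_notMem h, iA_notMem]
        · simp [ind, hv]
        · rw [Finset.mem_insert]; rintro (rfl | h')
          · exact hv rfl
          · exact h h'
  unfold bd
  rw [← h1]
  unfold tau
  have h : t % 3 = 0 ∨ t % 3 = 1 ∨ t % 3 = 2 := by omega
  rcases h with h | h | h
  · rw [if_neg (by omega), if_neg (by omega)]
    have e1 : (t + 1 + 4) / 3 = (t + 4) / 3 := by omega
    have e2 : (t + 1 + 3) / 3 = (t + 3) / 3 := by omega
    have e3 : (t + 1 + 2) / 3 = (t + 2) / 3 + 1 := by omega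
    rw [e1, e2, e3]
    generalize (t + 4) / 3 = a
    generalize (t + 3) / 3 = b
    generalize (t + 2) / 3 = c
    linarith
  · rw [if_pos (by omega)]
    have e1 : (t + 1 + 4) / 3 = (t + 4) / 3 + 1 := by omega
    have e2 : (t + 1 + 3) / 3 = (t + 3) / 3 := by omega
    have e3 : (t + 1 + 2) / 3 = (t + 2) / 3 := by omega
    rw [e1, e2, e3]
    generalize (t + 4) / 3 = a
    generalize (t + 3) / 3 = b
    generalize (t + 2) / 3 = c
    linarith
  · rw [if_neg (by omega), if_pos (by omega)]
    have e1 : (t + 1 + 4) / 3 = (t + 4) / 3 := by omega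
    have e2 : (t + 1 + 3) / 3 = (t + 3) / 3 + 1 := by omega
    have e3 : (t + 1 + 2) / 3 = (t + 2) / 3 := by omega
    rw [e1, e2, e3]
    generalize (t + 4) / 3 = a
    generalize (t + 3) / 3 = b
    generalize (t + 2) / 3 = c
    linarith

theorem pr3 (f α γ ν a b : V) : (Pr f α a b ∨ Pr f γ a b ∨ Pr f ν a b) ↔
    ((a = f ∧ (b = α ∨ b = γ ∨ b = ν)) ∨ ((a = α ∨ a = γ ∨ a = ν) ∧ b = f)) := by
  unfold Pr; tauto

theorem er_insert (A : Finset V) (S : V → V → Prop) {f : V} (hf : Full G x y z f) (a b : V) :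
    ER G x y z (insert f A) S a b ↔
      (ER G x y z A S a b ∨ ((a = f ∧ inT x y z b) ∨ (inT x y z a ∧ b = f))) := by
  have hf' : ∀ c, inT x y z c → G.Adj f c := by
    rintro c (rfl | rfl | rfl)
    · exact hf.1
    · exact hf.2.1
    · exact hf.2.2
  unfold ER
  simp only [Finset.mem_insert]
  constructor
  · rintro ⟨hG, (⟨(rfl | h1), h2⟩ | ⟨h1, (rfl | h2)⟩ | h)⟩
    · right; left; exact ⟨rfl, h2⟩
    · left; exact ⟨hG, Or.inl ⟨h1, h2⟩⟩
    · right; right; exact ⟨h1, rfl⟩
    · left; exact ⟨hG, Or.inr (Or.inl ⟨h1, h2⟩)⟩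
    · left; exact ⟨hG, Or.inr (Or.inr h)⟩
  · rintro (⟨hG, (⟨h1, h2⟩ | ⟨h1, h2⟩ | h)⟩ | (⟨rfl, h⟩ | ⟨h, rfl⟩))
    · exact ⟨hG, Or.inl ⟨Or.inr h1, h2⟩⟩
    · exact ⟨hG, Or.inr (Or.inl ⟨h1, Or.inr h2⟩)⟩
    · exact ⟨hG, Or.inr (Or.inr h)⟩
    · exact ⟨hf' b h, Or.inl ⟨Or.inl rfl, h⟩⟩
    · exact ⟨(hf' a h).symm, Or.inr (Or.inl ⟨h, Or.inl rfl⟩)⟩

theorem inT_x : inT x y z x := Or.inl rfl
theorem inT_y : inT x y z y := Or.inr (Or.inl rfl)
theorem inT_z : inT x y z z := Or.inr (Or.inr rfl)

/-- the start of a ladder -/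
theorem ladder_init (hxy : x ≠ y) (A0 : Finset V) (hA0 : Out x y z A0)
    (h0 : A0 = ∅ ∨ ∃ u, A0 = {u} ∧ isT G x y z u) :
    TS (ER G x y z A0 (SS x y z 0)) (bd x y z A0 1 1 0) 3 x y := by
  have hER : ∀ a b, ER G x y z A0 (SS x y z 0) a b ↔ (G.Adj a b ∧ ((a ∈ A0 ∧ inT x y z b) ∨
      (inT x y z a ∧ b ∈ A0) ∨ Pr x y a b)) := by
    intro a b
    unfold ER SS
    constructor
    · rintro ⟨hG, h | h | ⟨h1, h2, h | ⟨h, _⟩ | ⟨h, _⟩⟩⟩
      · exact ⟨hG, Or.inl h⟩
      · exact ⟨hG, Or.inr (Or.inl h)⟩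
      · exact ⟨hG, Or.inr (Or.inr h)⟩
      · omega
      · omega
    · rintro ⟨hG, h | h | h⟩
      · exact ⟨hG, Or.inl h⟩
      · exact ⟨hG, Or.inr (Or.inl h)⟩
      · refine ⟨hG, Or.inr (Or.inr ⟨?_, ?_, Or.inl h⟩)⟩
        · rcases h with ⟨rfl, _⟩ | ⟨rfl, _⟩
          · exact inT_x
          · exact inT_y
        · rcases h with ⟨_, rfl⟩ | ⟨_, rfl⟩
          · exact inT_y
          · exact inT_x
  by_cases hadj : G.Adj x y
  · rcases h0 with rfl | ⟨u, rfl, hu⟩
    · refine ⟨[(y, 3), (x, 0)], ?_, ?_, ?_, ?_⟩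
      · intro v
        simp only [cnt, bd, ind]
        omega
      · intro a b hab
        rw [hER]
        simp only [On, exists_four, sky]
        norm_num
        simp only [reduceCtorEq, and_false, false_or, or_false]
        unfold Pr
        constructor
        · rintro ⟨_, ⟨rfl, rfl⟩ | ⟨rfl, rfl⟩⟩ <;> simp
        · rintro (⟨rfl, rfl⟩ | ⟨rfl, rfl⟩)
          · exact ⟨hadj.symm, by simp⟩
          · exact ⟨hadj, by simp⟩
      · intro k h1 h2
        simp only [sky]
        rw [if_neg (by omega), if_pos (by omega)]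
      · intro k h1 h2
        simp only [sky]
        rw [if_pos (by omega)]
    · refine ⟨[(y, 3), (x, 0), (u, 2)], ?_, ?_, ?_, ?_⟩
      · intro v
        have : iA ({u} : Finset V) v = ind u v := by
          unfold iA ind
          simp [eq_comm]
        simp only [cnt, bd, this]
        unfold ind
        omega
      · intro a b hab
        rw [hER]
        have hux := hA0 u (by simp)
        simp only [On, exists_four, sky]
        norm_num
        simp only [reduceCtorEq, and_false, false_or, or_false]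
        unfold Pr inT
        constructor
        · rintro ⟨hG, ⟨rfl, rfl | rfl | rfl⟩ | ⟨rfl | rfl | rfl, rfl⟩ | ⟨rfl, rfl⟩ | ⟨rfl, rfl⟩⟩
          · simp
          · simp
          · exact absurd hG hu.2.2
          · simp
          · simp
          · exact absurd hG.symm hu.2.2
          · simp
          · simp
        · have := hu.1
          have := hu.2.1
          have := hu.1.symm
          have := hu.2.1.symm
          have := hadj.symm
          rintro ((⟨rfl, rfl⟩ | ⟨rfl, rfl | rfl⟩) | (⟨rfl, rfl⟩ | ⟨rfl, rfl | rfl⟩)) <;> simp [*]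
      · intro k h1 h2
        simp only [sky]
        rw [if_neg (by omega), if_pos (by omega)]
      · intro k h1 h2
        simp only [sky]
        rw [if_pos (by omega)]
  · rcases h0 with rfl | ⟨u, rfl, hu⟩
    · refine ⟨[(y, 3), (x, -1)], ?_, ?_, ?_, ?_⟩
      · intro v
        simp only [cnt, bd, ind]
        omega
      · intro a b hab
        rw [hER]
        simp only [On, exists_four, sky]
        norm_num
        simp only [reduceCtorEq, and_false, false_or, or_false]
        unfold Pr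
        rw [iff_false]
        rintro ⟨hG, (⟨rfl, rfl⟩ | ⟨rfl, rfl⟩)⟩
        · exact hadj hG
        · exact hadj hG.symm
      · intro k h1 h2
        simp only [sky]
        rw [if_neg (by omega), if_pos (by omega)]
      · intro k h1 h2
        simp only [sky]
        rw [if_pos (by omega)]
    · refine ⟨[(y, 3), (x, -1), (u, 2)], ?_, ?_, ?_, ?_⟩
      · intro v
        have : iA ({u} : Finset V) v = ind u v := by
          unfold iA ind
          simp [eq_comm]
        simp only [cnt, bd, this]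
        unfold ind
        omega
      · intro a b hab
        rw [hER]
        have hux := hA0 u (by simp)
        simp only [On, exists_four, sky]
        norm_num
        simp only [reduceCtorEq, and_false, false_or, or_false]
        unfold Pr inT
        constructor
        · rintro ⟨hG, ⟨rfl, rfl | rfl | rfl⟩ | ⟨rfl | rfl | rfl, rfl⟩ | ⟨rfl, rfl⟩ | ⟨rfl, rfl⟩⟩
          · simp
          · simp
          · exact absurd hG hu.2.2
          · simp
          · simp
          · exact absurd hG.symm hu.2.2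
          · exact absurd hG hadj
          · exact absurd hG.symm hadj
        · have := hu.1
          have := hu.2.1
          have := hu.1.symm
          have := hu.2.1.symm
          rintro ((⟨rfl, rfl⟩ | ⟨rfl, rfl⟩) | (⟨rfl, rfl⟩ | ⟨rfl, rfl⟩)) <;> simp [*]
      · intro k h1 h2
        simp only [sky]
        rw [if_neg (by omega), if_pos (by omega)]
      · intro k h1 h2
        simp only [sky]
        rw [if_pos (by omega)]

/-- the ladder -/
theorem ladder_TS (hxy : x ≠ y) (A0 : Finset V) (hA0 : Out x y z A0)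
    (h0 : A0 = ∅ ∨ ∃ u, A0 = {u} ∧ isT G x y z u) (t : ℕ) : ∀ F : Finset V, F.card = t →
    Out x y z F → (∀ f ∈ F, Full G x y z f) →
    ∃ δ : ℤ, 1 ≤ δ ∧ δ ≤ 3 ∧ 3 - (t : ℤ) ≤ δ ∧
      TS (ER G x y z (A0 ∪ F) (SS x y z t))
        (bd x y z (A0 ∪ F) ((t + 4) / 3) ((t + 3) / 3) ((t + 2) / 3)) δ
        (tau x y z t) (tau x y z (t + 1)) := by
  induction t with
  | zero =>
    intro F hF _ _
    have : F = ∅ := Finset.card_eq_zero.1 hF
    subst this
    refine ⟨3, by omega, by omega, by simp, ?_⟩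
    rw [Finset.union_empty]
    exact ladder_init hxy A0 hA0 h0
  | succ t ih =>
    intro F hFc hF hfull
    obtain ⟨f, hf⟩ : F.Nonempty := Finset.card_pos.1 (by omega)
    have hF' : (F.erase f).card = t := by rw [Finset.card_erase_of_mem hf]; omega
    obtain ⟨δ, hδ1, hδ3, hδt, hTS⟩ := ih (F.erase f) hF' (hF.mono (Finset.erase_subset _ _))
      (fun g hg => hfull g (Finset.erase_subset _ _ hg))
    have hff := hfull f hf
    have hnot : f ∉ A0 ∪ F.erase f := by
      rw [Finset.mem_union]
      rintro (h | h)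
      · rcases h0 with rfl | ⟨u, rfl, hu⟩
        · simp at h
        · rw [Finset.mem_singleton] at h
          subst h
          exact hu.2.2 hff.2.2
      · simp at h
    have hins : A0 ∪ F = insert f (A0 ∪ F.erase f) := by
      ext a
      simp only [Finset.mem_union, Finset.mem_insert, Finset.mem_erase]
      constructor
      · rintro (h | h)
        · exact Or.inr (Or.inl h)
        · by_cases haf : a = f
          · exact Or.inl haf
          · exact Or.inr (Or.inr ⟨haf, h⟩)
      · rintro (rfl | h | h)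
        · exact Or.inr hf
        · exact Or.inl h
        · exact Or.inr h.2
    rw [hins]
    -- the edge relation
    have hERi : ∀ a b, ER G x y z (insert f (A0 ∪ F.erase f)) (SS x y z t) a b ↔
        (ER G x y z (A0 ∪ F.erase f) (SS x y z t) a b ∨ (Pr f (tau x y z t) a b ∨
          Pr f (tau x y z (t + 1)) a b ∨ Pr f (tau x y z (t + 2)) a b)) := by
      intro a b
      rw [er_insert _ _ hff, pr3, inT_tau t b, inT_tau t a]
    have hbd := bd_step (x := x) (y := y) (z := z) (A0 ∪ F.erase f) hnot t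
    -- the new edge inside
    by_cases hnew : (t = 0 ∧ G.Adj y z) ∨ (t = 1 ∧ G.Adj x z)
    · have hδ2 : 2 ≤ δ := by rcases hnew with ⟨rfl, _⟩ | ⟨rfl, _⟩ <;> omega
      refine ⟨δ - 1, by omega, by omega, by push_cast; omega, ?_⟩
      refine (hTS.step' hδ2 hδ3 f (tau x y z (t + 2))).congr ?_ hbd
      intro a b hab
      rw [← or_assoc, ← hERi]
      unfold ER
      rcases hnew with ⟨rfl, hG⟩ | ⟨rfl, hG⟩
      · have e1 : tau x y z (0 + 2) = z := by simp [tau]
        have e2 : tau x y z (0 + 1) = y := by simp [tau]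
        rw [e1, e2]
        unfold SS
        constructor
        · rintro (⟨hG, h | h | ⟨h1, h2, h3⟩⟩ | h)
          · exact ⟨hG, Or.inl h⟩
          · exact ⟨hG, Or.inr (Or.inl h)⟩
          · refine ⟨hG, Or.inr (Or.inr ⟨h1, h2, ?_⟩)⟩
            rcases h3 with h3 | h3 | h3
            · exact Or.inl h3
            · omega
            · omega
          · rcases h with ⟨rfl, rfl⟩ | ⟨rfl, rfl⟩
            · exact ⟨hG.symm, Or.inr (Or.inr ⟨inT_z, inT_y,
                Or.inr (Or.inl ⟨by omega, Or.inr ⟨rfl, rfl⟩⟩)⟩)⟩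
            · exact ⟨hG, Or.inr (Or.inr ⟨inT_y, inT_z,
                Or.inr (Or.inl ⟨by omega, Or.inl ⟨rfl, rfl⟩⟩)⟩)⟩
        · rintro ⟨hG, h | h | ⟨h1, h2, h3 | ⟨_, h3⟩ | ⟨h3, _⟩⟩⟩
          · exact Or.inl ⟨hG, Or.inl h⟩
          · exact Or.inl ⟨hG, Or.inr (Or.inl h)⟩
          · exact Or.inl ⟨hG, Or.inr (Or.inr ⟨h1, h2, Or.inl h3⟩)⟩
          · right
            rcases h3 with h3 | h3
            · exact Or.inr h3
            · exact Or.inl h3
          · omega
      · have e1 : tau x y z (1 + 2) = x := by simp [tau]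
        have e2 : tau x y z (1 + 1) = z := by simp [tau]
        rw [e1, e2]
        unfold SS
        constructor
        · rintro (⟨hG, h | h | ⟨h1, h2, h3⟩⟩ | h)
          · exact ⟨hG, Or.inl h⟩
          · exact ⟨hG, Or.inr (Or.inl h)⟩
          · refine ⟨hG, Or.inr (Or.inr ⟨h1, h2, ?_⟩)⟩
            rcases h3 with h3 | ⟨_, h3⟩ | h3
            · exact Or.inl h3
            · exact Or.inr (Or.inl ⟨by omega, h3⟩)
            · omega
          · rcases h with ⟨rfl, rfl⟩ | ⟨rfl, rfl⟩
            · exact ⟨hG, Or.inr (Or.inr ⟨inT_x, inT_z,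
                Or.inr (Or.inr ⟨by omega, Or.inl ⟨rfl, rfl⟩⟩)⟩)⟩
            · exact ⟨hG.symm, Or.inr (Or.inr ⟨inT_z, inT_x,
                Or.inr (Or.inr ⟨by omega, Or.inr ⟨rfl, rfl⟩⟩)⟩)⟩
        · rintro ⟨hG, h | h | ⟨h1, h2, h3 | ⟨_, h3⟩ | ⟨_, h3⟩⟩⟩
          · exact Or.inl ⟨hG, Or.inl h⟩
          · exact Or.inl ⟨hG, Or.inr (Or.inl h)⟩
          · exact Or.inl ⟨hG, Or.inr (Or.inr ⟨h1, h2, Or.inl h3⟩)⟩
          · exact Or.inl ⟨hG, Or.inr (Or.inr ⟨h1, h2, Or.inr (Or.inl ⟨by omega, h3⟩)⟩)⟩
          · right; exact h3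
    · refine ⟨δ, hδ1, hδ3, by push_cast; omega, ?_⟩
      refine (hTS.step hδ1 hδ3 f (tau x y z (t + 2))).congr ?_ hbd
      intro a b hab
      rw [← hERi]
      unfold ER
      refine and_congr_right fun hG => or_congr_right (or_congr_right (and_congr_right fun _ =>
        and_congr_right fun _ => ?_))
      unfold SS
      constructor
      · rintro (h | ⟨h, h'⟩ | ⟨h, h'⟩)
        · exact Or.inl h
        · exact Or.inr (Or.inl ⟨by omega, h'⟩)
        · exact Or.inr (Or.inr ⟨by omega, h'⟩)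
      · rintro (h | ⟨_, h⟩ | ⟨h', h⟩)
        · exact Or.inl h
        · refine Or.inr (Or.inl ⟨?_, h⟩)
          by_contra h'
          apply hnew; left
          refine ⟨by omega, ?_⟩
          rcases h with ⟨rfl, rfl⟩ | ⟨rfl, rfl⟩
          · exact hG
          · exact hG.symm
        · refine Or.inr (Or.inr ⟨?_, h⟩)
          by_contra h''
          apply hnew; right
          refine ⟨by omega, ?_⟩
          rcases h with ⟨rfl, rfl⟩ | ⟨rfl, rfl⟩
          · exact hG
          · exact hG.symm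

/-- the ladder, as a representation -/
theorem ladder (hxy : x ≠ y) {A0 : Finset V} (hA0 : Out x y z A0)
    (h0 : A0 = ∅ ∨ ∃ u, A0 = {u} ∧ isT G x y z u) {F : Finset V} (hF : Out x y z F)
    (hfull : ∀ f ∈ F, Full G x y z f) :
    RG G x y z (A0 ∪ F) (SS x y z F.card) ((F.card + 4) / 3) ((F.card + 3) / 3)
      ((F.card + 2) / 3) := by
  obtain ⟨δ, _, _, _, h⟩ := ladder_TS hxy A0 hA0 h0 F.card F rfl hF hfull
  exact h.rep

end Pool.Agent.UBV
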