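import Mathlib

set_option autoImplicit false

/-!
# Stacks of bars

A drawing is a list of bars `(label, position)`; the head of the list is the topmost bar. The bar
`(v, p)` covers the columns `p, p+1, p+2, p+3`. Two bars see each other iff they are consecutive
in some column.
-/

namespace Pool.Agent.UBV

variable {V W : Type*}

/-- the label on top of column `k` -/
def sky : List (V × ℤ) → ℤ → Option V
  | [], _ => none
  | (v, p) :: l, k => if p ≤ k ∧ k < p + 4 then some v else sky l k

/-- `On l x y`: some bar labelled `x` lies directly above a bar labelled `y` in some column -/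
def On : List (V × ℤ) → V → V → Prop
  | [], _, _ => False
  | (v, p) :: l, x, y => On l x y ∨ (v = x ∧ ∃ k, p ≤ k ∧ k < p + 4 ∧ sky l k = some y)

open Classical in
/-- number of bars with label `x` -/
noncomputable def cnt : List (V × ℤ) → V → ℕ
  | [], _ => 0
  | (v, _) :: l, x => cnt l x + (if v = x then 1 else 0)

/-- `E` has a drawing which uses at most `β v` bars for `v` -/
def Rep (E : V → V → Prop) (β : V → ℕ) : Prop :=
  ∃ l : List (V × ℤ), (∀ v, cnt l v ≤ β v) ∧ ∀ a b, a ≠ b → (E a b ↔ (On l a b ∨ On l b a))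

theorem sky_append (l l' : List (V × ℤ)) (k : ℤ) :
    sky (l ++ l') k = (sky l k).or (sky l' k) := by
  induction l with
  | nil => rfl
  | cons b l ih =>
    obtain ⟨v, p⟩ := b
    simp only [List.cons_append, sky]
    split_ifs
    · rfl
    · exact ih

theorem cnt_append (l l' : List (V × ℤ)) (v : V) : cnt (l ++ l') v = cnt l v + cnt l' v := by
  induction l with
  | nil => simp [cnt]
  | cons b l ih =>
    obtain ⟨w, p⟩ := b
    simp only [List.cons_append, cnt, ih]
    omega

/-- change of positions by a translation -/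
def shift (s : ℤ) (l : List (V × ℤ)) : List (V × ℤ) := l.map fun b => (b.1, b.2 + s)

theorem sky_shift (s : ℤ) (l : List (V × ℤ)) (k : ℤ) : sky (shift s l) k = sky l (k - s) := by
  induction l with
  | nil => rfl
  | cons b l ih =>
    obtain ⟨v, p⟩ := b
    simp only [shift, List.map_cons, sky] at ih ⊢
    rw [ih]
    have : (p + s ≤ k ∧ k < p + s + 4) ↔ (p ≤ k - s ∧ k - s < p + 4) := by constructor <;> intro h <;> omega
    simp only [this]

theorem on_shift (s : ℤ) (l : List (V × ℤ)) (x y : V) : On (shift s l) x y ↔ On l x y := by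
  induction l with
  | nil => rfl
  | cons b l ih =>
    obtain ⟨v, p⟩ := b
    simp only [shift, List.map_cons, On] at ih ⊢
    rw [ih]
    refine or_congr Iff.rfl (and_congr Iff.rfl ⟨?_, ?_⟩)
    · rintro ⟨k, h1, h2, h3⟩
      refine ⟨k - s, by omega, by omega, ?_⟩
      rw [← sky_shift]; exact h3
    · rintro ⟨k, h1, h2, h3⟩
      refine ⟨k + s, by omega, by omega, ?_⟩
      have := sky_shift s l (k + s)
      rw [add_sub_cancel_right] at this
      rw [← h3]; exact this

theorem cnt_shift (s : ℤ) (l : List (V × ℤ)) (x : V) : cnt (shift s l) x = cnt l x := by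
  induction l with
  | nil => rfl
  | cons b l ih =>
    obtain ⟨v, p⟩ := b
    simp only [shift, List.map_cons, cnt] at ih ⊢
    rw [ih]

/-- reflection: column `k` becomes column `c - k` -/
def mir (c : ℤ) (l : List (V × ℤ)) : List (V × ℤ) := l.map fun b => (b.1, c - b.2 - 3)

theorem sky_mir (c : ℤ) (l : List (V × ℤ)) (k : ℤ) : sky (mir c l) k = sky l (c - k) := by
  induction l with
  | nil => rfl
  | cons b l ih =>
    obtain ⟨v, p⟩ := b
    simp only [mir, List.map_cons, sky] at ih ⊢
    rw [ih]
    have : (c - p - 3 ≤ k ∧ k < c - p - 3 + 4) ↔ (p ≤ c - k ∧ c - k < p + 4) := by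
      constructor <;> intro h <;> omega
    simp only [this]

theorem on_mir (c : ℤ) (l : List (V × ℤ)) (x y : V) : On (mir c l) x y ↔ On l x y := by
  induction l with
  | nil => rfl
  | cons b l ih =>
    obtain ⟨v, p⟩ := b
    simp only [mir, List.map_cons, On] at ih ⊢
    rw [ih]
    refine or_congr Iff.rfl (and_congr Iff.rfl ⟨?_, ?_⟩)
    · rintro ⟨k, h1, h2, h3⟩
      refine ⟨c - k, by omega, by omega, ?_⟩
      rw [← sky_mir]; exact h3
    · rintro ⟨k, h1, h2, h3⟩
      refine ⟨c - k, by omega, by omega, ?_⟩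
      have := sky_mir c l (c - k)
      rw [sub_sub_cancel] at this
      rw [← h3]; exact this

theorem cnt_mir (c : ℤ) (l : List (V × ℤ)) (x : V) : cnt (mir c l) x = cnt l x := by
  induction l with
  | nil => rfl
  | cons b l ih =>
    obtain ⟨v, p⟩ := b
    simp only [mir, List.map_cons, cnt] at ih ⊢
    rw [ih]

/-- all bars lie in the columns `≥ M` -/
def GeM (M : ℤ) (l : List (V × ℤ)) : Prop := ∀ b ∈ l, M ≤ b.2

/-- all bars lie in the columns `< N` -/
def LtN (N : ℤ) (l : List (V × ℤ)) : Prop := ∀ b ∈ l, b.2 + 4 ≤ N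

theorem exists_geM (l : List (V × ℤ)) : ∃ M, GeM M l := by
  induction l with
  | nil => exact ⟨0, fun b hb => absurd hb (List.not_mem_nil)⟩
  | cons b l ih =>
    obtain ⟨M, hM⟩ := ih
    refine ⟨min M b.2, ?_⟩
    intro c hc
    rcases List.mem_cons.1 hc with rfl | hc
    · exact min_le_right _ _
    · exact (min_le_left _ _).trans (hM c hc)

theorem exists_ltN (l : List (V × ℤ)) : ∃ N, LtN N l := by
  induction l with
  | nil => exact ⟨0, fun b hb => absurd hb (List.not_mem_nil)⟩
  | cons b l ih =>
    obtain ⟨N, hN⟩ := ih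
    refine ⟨max N (b.2 + 4), ?_⟩
    intro c hc
    rcases List.mem_cons.1 hc with rfl | hc
    · exact le_max_right _ _
    · exact (hN c hc).trans (le_max_left _ _)

theorem sky_eq_none_of_ltN {N : ℤ} {l : List (V × ℤ)} (h : LtN N l) {k : ℤ} (hk : N ≤ k) :
    sky l k = none := by
  induction l with
  | nil => rfl
  | cons b l ih =>
    obtain ⟨v, p⟩ := b
    have h1 := h (v, p) (List.mem_cons_self)
    simp only at h1
    simp only [sky]
    rw [if_neg (by omega)]
    exact ih fun c hc => h c (List.mem_cons_of_mem _ hc)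

theorem on_append {N : ℤ} {l l' : List (V × ℤ)} (h' : LtN N l') (h : GeM N l) (x y : V) :
    On (l ++ l') x y ↔ (On l x y ∨ On l' x y) := by
  induction l with
  | nil => simp [On]
  | cons b l ih =>
    obtain ⟨v, p⟩ := b
    have h1 : N ≤ p := h (v, p) (List.mem_cons_self)
    have ih := ih fun c hc => h c (List.mem_cons_of_mem _ hc)
    simp only [List.cons_append, On, ih]
    have : (∃ k, p ≤ k ∧ k < p + 4 ∧ sky (l ++ l') k = some y) ↔
        (∃ k, p ≤ k ∧ k < p + 4 ∧ sky l k = some y) := by
      refine exists_congr fun k => and_congr_right fun hk => and_congr_right fun _ => ?_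
      rw [sky_append, sky_eq_none_of_ltN h' (by omega), Option.or_none]
    rw [this]
    exact or_right_comm

theorem Rep.congr {E E' : V → V → Prop} {β : V → ℕ} (h : Rep E β)
    (hE : ∀ a b, a ≠ b → (E a b ↔ E' a b)) : Rep E' β := by
  obtain ⟨l, h1, h2⟩ := h
  exact ⟨l, h1, fun a b hab => (hE a b hab).symm.trans (h2 a b hab)⟩

theorem Rep.mono {E : V → V → Prop} {β β' : V → ℕ} (h : Rep E β) (hβ : ∀ v, β v ≤ β' v) :
    Rep E β' := by
  obtain ⟨l, h1, h2⟩ := h
  exact ⟨l, fun v => (h1 v).trans (hβ v), h2⟩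

theorem Rep.empty (β : V → ℕ) : Rep (fun _ _ => False) β :=
  ⟨[], fun v => Nat.zero_le _, fun a b _ => by simp [On]⟩

theorem Rep.union {E E' : V → V → Prop} {β β' : V → ℕ} (h : Rep E β) (h' : Rep E' β') :
    Rep (fun a b => E a b ∨ E' a b) (fun v => β v + β' v) := by
  obtain ⟨l, h1, h2⟩ := h
  obtain ⟨l', h1', h2'⟩ := h'
  obtain ⟨M, hM⟩ := exists_geM l
  obtain ⟨N, hN⟩ := exists_ltN l'
  have hM' : GeM N (shift (N - M) l) := by
    intro b hb
    simp only [shift, List.mem_map] at hb
    obtain ⟨c, hc, rfl⟩ := hb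
    have := hM c hc
    simp only
    omega
  refine ⟨shift (N - M) l ++ l', ?_, ?_⟩
  · intro v
    rw [cnt_append, cnt_shift]
    exact Nat.add_le_add (h1 v) (h1' v)
  · intro a b hab
    show (E a b ∨ E' a b) ↔ _
    rw [on_append hN hM', on_append hN hM', on_shift, on_shift, h2 a b hab, h2' a b hab]
    exact or_or_or_comm

/-- relabelling -/
def relab (f : W → V) (l : List (W × ℤ)) : List (V × ℤ) := l.map fun b => (f b.1, b.2)

theorem sky_relab (f : W → V) (l : List (W × ℤ)) (k : ℤ) :
    sky (relab f l) k = (sky l k).map f := by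
  induction l with
  | nil => rfl
  | cons b l ih =>
    obtain ⟨v, p⟩ := b
    simp only [relab, List.map_cons, sky] at ih ⊢
    rw [ih]
    split_ifs <;> rfl

theorem on_relab (f : W → V) (l : List (W × ℤ)) (x y : V) :
    On (relab f l) x y ↔ ∃ i j, f i = x ∧ f j = y ∧ On l i j := by
  induction l with
  | nil => simp [relab, On]
  | cons b l ih =>
    obtain ⟨v, p⟩ := b
    have e : relab f ((v, p) :: l) = (f v, p) :: relab f l := rfl
    rw [e]
    simp only [On]
    rw [ih]
    constructor
    · rintro (⟨i, j, h1, h2, h3⟩ | ⟨h1, k, hk1, hk2, hk3⟩)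
      · exact ⟨i, j, h1, h2, Or.inl h3⟩
      · rw [sky_relab] at hk3
        obtain ⟨w, hw1, hw2⟩ := Option.map_eq_some_iff.1 hk3
        exact ⟨v, w, h1, hw2, Or.inr ⟨rfl, k, hk1, hk2, hw1⟩⟩
    · rintro ⟨i, j, h1, h2, (h3 | ⟨rfl, k, hk1, hk2, hk3⟩)⟩
      · exact Or.inl ⟨i, j, h1, h2, h3⟩
      · refine Or.inr ⟨h1, k, hk1, hk2, ?_⟩
        rw [sky_relab, hk3, ← h2]; rfl

/-- the labels of the drawing are `< n` -/
def LabLt (n : ℕ) (l : List (ℕ × ℤ)) : Prop := ∀ b ∈ l, b.1 < n

theorem sky_lt {n : ℕ} {l : List (ℕ × ℤ)} (h : LabLt n l) {k : ℤ} {i : ℕ} (hs : sky l k = some i) :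
    i < n := by
  induction l with
  | nil => simp [sky] at hs
  | cons b l ih =>
    obtain ⟨v, p⟩ := b
    simp only [sky] at hs
    split_ifs at hs with h1
    · have := h (v, p) (List.mem_cons_self)
      simp only [Option.some.injEq] at hs
      omega
    · exact ih (fun c hc => h c (List.mem_cons_of_mem _ hc)) hs

theorem on_lt {n : ℕ} {l : List (ℕ × ℤ)} (h : LabLt n l) {i j : ℕ} (hs : On l i j) :
    i < n ∧ j < n := by
  induction l with
  | nil => exact absurd hs (by simp [On])
  | cons b l ih =>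
    obtain ⟨v, p⟩ := b
    have h' : LabLt n l := fun c hc => h c (List.mem_cons_of_mem _ hc)
    rcases hs with hs | ⟨rfl, k, _, _, hk⟩
    · exact ih h' hs
    · exact ⟨h _ (List.mem_cons_self), sky_lt h' hk⟩

open Classical in
theorem cnt_relab {n : ℕ} (f : ℕ → V) (l : List (ℕ × ℤ)) (h : LabLt n l) (v : V) :
    cnt (relab f l) v = ∑ i ∈ Finset.range n, (if f i = v then cnt l i else 0) := by
  induction l with
  | nil => simp [relab, cnt]
  | cons b l ih =>
    obtain ⟨w, p⟩ := b
    have h' : LabLt n l := fun c hc => h c (List.mem_cons_of_mem _ hc)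
    have e : relab f ((w, p) :: l) = (f w, p) :: relab f l := rfl
    rw [e]
    simp only [cnt]
    rw [ih h']
    have hw : w ∈ Finset.range n := Finset.mem_range.2 (h (w, p) (List.mem_cons_self))
    have : (if f w = v then 1 else 0) =
        ∑ i ∈ Finset.range n, (if f i = v then (if w = i then 1 else 0) else 0) := by
      rw [Finset.sum_eq_single w]
      · simp
      · intro b _ hb
        rw [if_neg (Ne.symm hb)]; simp
      · intro h; exact absurd hw h
    rw [this, ← Finset.sum_add_distrib]
    refine Finset.sum_congr rfl fun i _ => ?_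
    split_ifs <;> rfl

end Pool.Agent.UBV
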