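import Pool.Agent.UBV.Small

set_option autoImplicit false
set_option linter.unusedSectionVars false

namespace Pool.Agent.UBV

variable {V : Type*} [DecidableEq V] {G : SimpleGraph V} {x y z : V}

theorem exists_enum (A : Finset V) (d : V) : ∃ u : ℕ → V,
    (∀ i < A.card, ∀ j < A.card, u i = u j → i = j) ∧ (∀ a, a ∈ A ↔ ∃ i < A.card, u i = a) := by
  refine ⟨fun i => A.toList.getD i d, ?_, ?_⟩
  · intro i hi j hj h
    rw [← Finset.length_toList] at hi hj
    simp only [List.getD_eq_getElem _ _ hi, List.getD_eq_getElem _ _ hj] at h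
    exact (List.Nodup.getElem_inj_iff (Finset.nodup_toList A)).1 h
  · intro a
    rw [← Finset.mem_toList, List.mem_iff_getElem]
    constructor
    · rintro ⟨i, hi, rfl⟩
      refine ⟨i, by rwa [Finset.length_toList] at hi, ?_⟩
      exact List.getD_eq_getElem _ _ hi
    · rintro ⟨i, hi, rfl⟩
      rw [← Finset.length_toList] at hi
      exact ⟨i, hi, (List.getD_eq_getElem _ _ hi).symm⟩

/-- the gadgets `MM` -/
theorem monoq (hxy : x ≠ y) (hyz : y ≠ z) (hxz : x ≠ z) {A : Finset V} (hA : Out x y z A)
    (hm : ∀ u ∈ A, isT G x y z u) {κ0 κ1 : ℕ} {l : List (ℕ × ℤ)}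
    (hc : check l A.card (fun _ => 3) 0 κ0 κ1 0 = true) : RG G x y z A (N0 V) κ0 κ1 0 := by
  obtain ⟨u, hu1, hu2⟩ := exists_enum A x
  refine gadget hxy hyz hxz A.card u hu1 ?_ A hu2
    (N0 V) 0 _ _ _ _ _ ?_ (N0_iff0 x y) (N0_iff1 y z) (N0_iff2 x z) (fun a b h => h) hc
  · intro i hi
    exact hA _ ((hu2 _).2 ⟨i, hi, rfl⟩)
  · intro i hi
    exact (ty_eq3.2 (hm _ ((hu2 _).2 ⟨i, hi, rfl⟩))).symm

/-- at most two vertices of type `xy` -/
theorem mono2 (hxy : x ≠ y) (hyz : y ≠ z) (hxz : x ≠ z) {A : Finset V} (hA : Out x y z A)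
    (hm : ∀ u ∈ A, isT G x y z u) (hc : A.card ≤ 2) : RG G x y z A (N0 V) 1 1 0 := by
  have h0 : A.card = 0 ∨ A.card = 1 ∨ A.card = 2 := by omega
  have e : ∀ u, isT G x y z u → ¬ Full G x y z u := fun u h h' => h.2.2 h'.2.2
  rcases h0 with h0 | h0 | h0
  · rw [Finset.card_eq_zero] at h0
    subst h0
    exact RG.empty.mono (by omega) (by omega) (by omega)
  · obtain ⟨u, rfl⟩ := Finset.card_eq_one.1 h0
    have hu := hm u (by simp)
    have := g1 hxy hyz hxz (hA u (by simp)) (e u hu)
    rw [ty_eq3.2 hu] at this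
    exact this
  · obtain ⟨u, v, huv, rfl⟩ := Finset.card_eq_two.1 h0
    have hu := hm u (by simp)
    have hv := hm v (by simp)
    have := g2 hxy hyz hxz (hA u (by simp)) (hA v (by simp)) huv (e u hu) (e v hv)
      (by rw [ty_eq3.2 hu, ty_eq3.2 hv])
    rw [ty_eq3.2 hu, ty_eq3.2 hv] at this
    exact this

/-- at most four vertices of type `xy` with `2, 1, 0` bars -/
theorem mono4 (hxy : x ≠ y) (hyz : y ≠ z) (hxz : x ≠ z) {A : Finset V} (hA : Out x y z A)
    (hm : ∀ u ∈ A, isT G x y z u) (hc : A.card ≤ 4) : RG G x y z A (N0 V) 2 1 0 := by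
  rcases Nat.lt_or_ge A.card 3 with h | h
  · exact (mono2 hxy hyz hxz hA hm (by omega)).mono (by omega) (by omega) (by omega)
  · exact monoq hxy hyz hxz hA hm (cM2 A.card (by omega) h)

/-- at most six vertices of type `xy` with `2, 2, 0` bars -/
theorem mono6 (hxy : x ≠ y) (hyz : y ≠ z) (hxz : x ≠ z) {A : Finset V} (hA : Out x y z A)
    (hm : ∀ u ∈ A, isT G x y z u) (hc : A.card ≤ 6) : RG G x y z A (N0 V) 2 2 0 := by
  rcases Nat.lt_or_ge A.card 3 with h | h
  · exact (mono2 hxy hyz hxz hA hm (by omega)).mono (by omega) (by omega) (by omega)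
  · exact monoq hxy hyz hxz hA hm (cM6 A.card (by omega) h)

/-- many vertices of type `xy` -/
theorem mono (hxy : x ≠ y) (hyz : y ≠ z) (hxz : x ≠ z) (k : ℕ) : ∀ {A : Finset V}, Out x y z A →
    (∀ u ∈ A, isT G x y z u) → A.card ≤ 3 * k → (k = 1 → A.card ≤ 2) →
    RG G x y z A (N0 V) k k 0 := by
  induction k using Nat.strong_induction_on with
  | _ k ih =>
    intro A hA hm hc hk
    have h0 : k = 0 ∨ k = 1 ∨ k = 2 ∨ k = 3 ∨ 4 ≤ k := by omega
    rcases h0 with rfl | rfl | rfl | rfl | h4
    · have : A = ∅ := Finset.card_eq_zero.1 (by omega)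
      subst this
      exact RG.empty
    · exact mono2 hxy hyz hxz hA hm (hk rfl)
    · exact mono6 hxy hyz hxz hA hm hc
    · rcases Nat.lt_or_ge A.card 7 with h | h
      · exact (mono6 hxy hyz hxz hA hm (by omega)).mono (by omega) (by omega) (by omega)
      · exact monoq hxy hyz hxz hA hm (cM9 A.card (by omega) h)
    · rcases Nat.lt_or_ge A.card 7 with h | h
      · exact (mono6 hxy hyz hxz hA hm (by omega)).mono (by omega) (by omega) (by omega)
      · obtain ⟨B, hB, hBc⟩ := Finset.exists_subset_card_eq (s := A) (n := 6) (by omega)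
        have h1 := mono6 hxy hyz hxz (A := B) (G := G) (fun a ha => hA a (hB ha))
          (fun a ha => hm a (hB ha)) (by omega)
        have hc2 : (A \ B).card = A.card - 6 := by
          rw [Finset.card_sdiff_of_subset hB, hBc]
        have h2 := ih (k - 2) (by omega) (A := A \ B) (fun a ha => hA a (Finset.sdiff_subset ha))
          (fun a ha => hm a (Finset.sdiff_subset ha)) (by omega) (by omega)
        have h3 := h1.union0 h2 Finset.disjoint_sdiff
        rw [Finset.union_sdiff_of_subset hB] at h3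
        exact h3.mono (by omega) (by omega) (by omega)

/-- five vertices of type `xy` and another one -/
theorem five_one (hxy : x ≠ y) (hyz : y ≠ z) (hxz : x ≠ z) {A : Finset V} {o : V}
    (hA : Out x y z A) (ho : o ≠ x ∧ o ≠ y ∧ o ≠ z) (hoA : o ∉ A)
    (hm : ∀ u ∈ A, isT G x y z u) (hc : A.card = 5) (h1 : ¬ Full G x y z o)
    (h2 : ¬ isT G x y z o) : RG G x y z (insert o A) (N0 V) 2 2 1 := by
  obtain ⟨u, hu1, hu2⟩ := exists_enum A x
  rw [hc] at hu1 hu2
  refine gadget hxy hyz hxz 6 (fun i => if i = 5 then o else u i) ?_ ?_ (insert o A) ?_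
    (N0 V) 0 _ _ _ _ _ ?_ (N0_iff0 x y) (N0_iff1 y z) (N0_iff2 x z) (fun a b h => h)
    (cS (tyG G x y z o) (ty_lt7 h1) (fun h => h2 (ty_eq3.1 h)))
  · intro i hi j hj h
    split_ifs at h with h3 h4 h4
    · omega
    · exact absurd ((hu2 o).2 ⟨j, by omega, h.symm⟩) hoA
    · exact absurd ((hu2 o).2 ⟨i, by omega, h⟩) hoA
    · exact hu1 i (by omega) j (by omega) h
  · intro i hi
    by_cases h : i = 5
    · simp only [h, if_true]; exact ho
    · simp only [h, if_false]
      exact hA _ ((hu2 _).2 ⟨i, by omega, rfl⟩)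
  · intro a
    rw [Finset.mem_insert, hu2]
    constructor
    · rintro (rfl | ⟨i, hi, rfl⟩)
      · exact ⟨5, by omega, rfl⟩
      · exact ⟨i, by omega, by rw [if_neg (by omega)]⟩
    · rintro ⟨i, hi, rfl⟩
      by_cases h : i = 5
      · left; simp [h]
      · right; exact ⟨i, by omega, by simp [h]⟩
  · intro i hi
    by_cases h : i = 5
    · simp [h]
    · simp only [h, if_false]
      exact (ty_eq3.2 (hm _ ((hu2 _).2 ⟨i, by omega, rfl⟩))).symm

theorem isT_swap {p q r u : V} (h : isT G p q r u) : isT G q p r u := ⟨h.2.1, h.1, h.2.2⟩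

/-- a bad triple containing a vertex of type `xy` has only vertices of type `xy` -/
theorem Bad.all {A : Finset V} (h : Bad G x y z A) {a : V} (ha : a ∈ A) (hT : isT G x y z a) :
    ∀ u ∈ A, isT G x y z u := by
  rcases h.2 with h | h | h
  · exact h
  · exact absurd hT.2.1 (h a ha).2.2
  · exact absurd hT.1 (h a ha).2.2

theorem Bad.rot {A : Finset V} (h : Bad G x y z A) : Bad G y z x A := by
  refine ⟨h.1, ?_⟩
  rcases h.2 with h | h | h
  · right; left; intro u hu; exact isT_swap (h u hu)
  · right; right; intro u hu; exact isT_swap (h u hu)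
  · left; exact h

theorem Bad.swap {A : Finset V} (h : Bad G x y z A) : Bad G x z y A := by
  refine ⟨h.1, ?_⟩
  rcases h.2 with h | h | h
  · right; left; exact h
  · left; exact h
  · right; right; intro u hu; exact isT_swap (h u hu)

theorem RG.rot {A : Finset V} {S : V → V → Prop} {i j k : ℕ} (h : RG G x y z A S i j k) :
    RG G y z x A S j k i := h.swap12.swap23

theorem Full.rot {u : V} (h : Full G x y z u) : Full G y z x u := ⟨h.2.1, h.2.2, h.1⟩
theorem Full.swap {u : V} (h : Full G x y z u) : Full G x z y u := ⟨h.1, h.2.2, h.2.1⟩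

theorem Out.rot {A : Finset V} (h : Out x y z A) : Out y z x A :=
  fun a ha => ⟨(h a ha).2.1, (h a ha).2.2, (h a ha).1⟩
theorem Out.swap {A : Finset V} (h : Out x y z A) : Out x z y A :=
  fun a ha => ⟨(h a ha).1, (h a ha).2.2, (h a ha).2.1⟩
theorem Out.mono {A B : Finset V} (h : Out x y z A) (hB : B ⊆ A) : Out x y z B :=
  fun a ha => h a (hB ha)

open Classical in
/-- at most six vertices, at least three of type `xy` -/
theorem two_aux (hxy : x ≠ y) (hyz : y ≠ z) (hxz : x ≠ z) {A : Finset V} (hA : Out x y z A)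
    (h7 : ∀ u ∈ A, ¬ Full G x y z u) (hc : A.card ≤ 6)
    (hD : 3 ≤ (A.filter (isT G x y z)).card) : RG G x y z A (N0 V) 2 2 2 := by
  set D := A.filter (isT G x y z) with hDdef
  have hDA : D ⊆ A := Finset.filter_subset _ _
  have hDT : ∀ u ∈ D, isT G x y z u := fun u hu => (Finset.mem_filter.1 hu).2
  by_cases hO : ∀ u ∈ A, isT G x y z u
  · exact (mono6 hxy hyz hxz hA hO hc).mono (by omega) (by omega) (by omega)
  · push Not at hO
    obtain ⟨o, hoA, hoT⟩ := hO
    have hoD : o ∉ D := fun h => hoT (hDT o h)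
    have hins : insert o D ⊆ A := by
      intro a ha
      rcases Finset.mem_insert.1 ha with rfl | ha
      · exact hoA
      · exact hDA ha
    have hcle : D.card + 1 ≤ A.card := by
      rw [← Finset.card_insert_of_notMem hoD]
      exact Finset.card_le_card hins
    rcases Nat.lt_or_ge D.card 5 with h5 | h5
    · obtain ⟨D1, hD1, hD1c⟩ := Finset.exists_subset_card_eq (s := D) (n := 2) (by omega)
      have hoD1 : o ∉ D1 := fun h => hoD (hD1 h)
      have hA1 : insert o D1 ⊆ A := (Finset.insert_subset_insert _ hD1).trans hins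
      have hA1c : (insert o D1).card = 3 := by rw [Finset.card_insert_of_notMem hoD1, hD1c]
      have hA2c : (A \ insert o D1).card = A.card - 3 := by
        rw [Finset.card_sdiff_of_subset hA1, hA1c]
      obtain ⟨d, hd⟩ := Finset.card_pos.1 (by omega : 0 < D1.card)
      have s1 := small3 hxy hyz hxz (hA.mono hA1) (G := G) (by omega) (fun u hu => h7 u (hA1 hu))
        (fun hb => hoT (hb.all (Finset.mem_insert_of_mem hd) (hDT d (hD1 hd)) o
          (Finset.mem_insert_self _ _)))
      have s2 := small3 hxy hyz hxz (hA.mono (Finset.sdiff_subset (s := A) (t := insert o D1)))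
        (G := G) (by omega) (fun u hu => h7 u (Finset.sdiff_subset hu)) (by
          intro hb
          have hne : (D \ D1).Nonempty := by
            rw [← Finset.card_pos, Finset.card_sdiff_of_subset hD1]; omega
          obtain ⟨e, he⟩ := hne
          rw [Finset.mem_sdiff] at he
          have heo : e ≠ o := fun h => hoD (h ▸ he.1)
          have he2 : e ∈ A \ insert o D1 := by
            rw [Finset.mem_sdiff, Finset.mem_insert]
            exact ⟨hDA he.1, fun h => h.elim heo he.2⟩
          have hall := hb.all he2 (hDT e he.1)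
          have hsub : A \ insert o D1 ⊆ D \ D1 := by
            intro a ha
            have := hall a ha
            rw [Finset.mem_sdiff, Finset.mem_insert] at ha
            rw [Finset.mem_sdiff]
            exact ⟨Finset.mem_filter.2 ⟨ha.1, this⟩, fun h => ha.2 (Or.inr h)⟩
          have := Finset.card_le_card hsub
          rw [hb.1, Finset.card_sdiff_of_subset hD1] at this
          omega)
      have h3 := s1.union0 s2 Finset.disjoint_sdiff
      rw [Finset.union_sdiff_of_subset hA1] at h3
      exact h3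
    · have h5' : D.card = 5 := by omega
      have hAeq : insert o D = A := by
        refine Finset.eq_of_subset_of_card_le hins ?_
        rw [Finset.card_insert_of_notMem hoD]; omega
      have := five_one hxy hyz hxz (hA.mono hDA) (hA o hoA) hoD hDT h5' (h7 o hoA) hoT
      rw [hAeq] at this
      exact this.mono (by omega) (by omega) (by omega)

open Classical in
theorem two_case (hxy : x ≠ y) (hyz : y ≠ z) (hxz : x ≠ z) {A : Finset V} (hA : Out x y z A)
    (h7 : ∀ u ∈ A, ¬ Full G x y z u) (hc : A.card ≤ 6) : RG G x y z A (N0 V) 2 2 2 := by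
  by_cases hD : 3 ≤ (A.filter (isT G x y z)).card
  · exact two_aux hxy hyz hxz hA h7 hc hD
  by_cases hD' : 3 ≤ (A.filter (isT G y z x)).card
  · exact (two_aux hyz hxz.symm hxy.symm hA.rot (fun u hu h => h7 u hu h.rot.rot) hc hD').rot.rot
  by_cases hD'' : 3 ≤ (A.filter (isT G x z y)).card
  · exact (two_aux hxz hyz.symm hxy hA.swap (fun u hu h => h7 u hu h.swap) hc hD'').swap23
  have key : ∀ B : Finset V, B ⊆ A → ¬ Bad G x y z B := by
    intro B hB hb
    rcases hb.2 with h | h | h
    · apply hD
      rw [← hb.1]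
      exact Finset.card_le_card fun u hu => Finset.mem_filter.2 ⟨hB hu, h u hu⟩
    · apply hD''
      rw [← hb.1]
      exact Finset.card_le_card fun u hu => Finset.mem_filter.2 ⟨hB hu, h u hu⟩
    · apply hD'
      rw [← hb.1]
      exact Finset.card_le_card fun u hu => Finset.mem_filter.2 ⟨hB hu, h u hu⟩
  rcases Nat.lt_or_ge A.card 3 with h3 | h3
  · exact (small3 hxy hyz hxz hA (by omega) h7 (key A subset_rfl)).mono (by omega) (by omega)
      (by omega)
  · obtain ⟨B, hB, hBc⟩ := Finset.exists_subset_card_eq (s := A) (n := 3) h3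
    have s1 := small3 hxy hyz hxz (hA.mono hB) (G := G) (by omega) (fun u hu => h7 u (hB hu))
      (key B hB)
    have s2 := small3 hxy hyz hxz (hA.mono (Finset.sdiff_subset (s := A) (t := B))) (G := G)
      (by rw [Finset.card_sdiff_of_subset hB]; omega) (fun u hu => h7 u (Finset.sdiff_subset hu))
      (key _ Finset.sdiff_subset)
    have h3 := s1.union0 s2 Finset.disjoint_sdiff
    rw [Finset.union_sdiff_of_subset hB] at h3
    exact h3

/-- if all triples are bad then all vertices have the same type -/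
theorem all_of_bad {A : Finset V} (h3 : 3 ≤ A.card)
    (hb : ∀ B : Finset V, B ⊆ A → B.card = 3 → Bad G x y z B) :
    (∀ u ∈ A, isT G x y z u) ∨ (∀ u ∈ A, isT G x z y u) ∨ (∀ u ∈ A, isT G y z x u) := by
  obtain ⟨B, hB, hBc⟩ := Finset.exists_subset_card_eq (s := A) (n := 3) h3
  have h0 := hb B hB hBc
  have main : ∀ a ∈ A, ∃ C : Finset V, C ⊆ A ∧ C.card = 3 ∧ a ∈ C ∧ ∃ b ∈ B, b ∈ C := by
    intro a ha
    by_cases haB : a ∈ B
    · exact ⟨B, hB, hBc, haB, a, haB, haB⟩
    · obtain ⟨B1, hB1, hB1c⟩ := Finset.exists_subset_card_eq (s := B) (n := 2) (by omega)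
      obtain ⟨b, hb⟩ := Finset.card_pos.1 (by omega : 0 < B1.card)
      refine ⟨insert a B1, ?_, ?_, Finset.mem_insert_self _ _, b, hB1 hb,
        Finset.mem_insert_of_mem hb⟩
      · intro c hc
        rcases Finset.mem_insert.1 hc with rfl | hc
        · exact ha
        · exact hB (hB1 hc)
      · rw [Finset.card_insert_of_notMem fun h => haB (hB1 h), hB1c]
  rcases h0.2 with h | h | h
  · left
    intro a ha
    obtain ⟨C, hC, hCc, haC, b, hbB, hbC⟩ := main a ha
    exact (hb C hC hCc).all hbC (h b hbB) a haC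
  · right; left
    intro a ha
    obtain ⟨C, hC, hCc, haC, b, hbB, hbC⟩ := main a ha
    exact (hb C hC hCc).swap.all hbC (h b hbB) a haC
  · right; right
    intro a ha
    obtain ⟨C, hC, hCc, haC, b, hbB, hbC⟩ := main a ha
    exact (hb C hC hCc).rot.all hbC (h b hbB) a haC

/-- all non-full vertices -/
theorem nonfull (hxy : x ≠ y) (hyz : y ≠ z) (hxz : x ≠ z) (k : ℕ) : ∀ {A : Finset V},
    Out x y z A → (∀ u ∈ A, ¬ Full G x y z u) → A.card ≤ 3 * k → (k = 1 → ¬ Bad G x y z A) →
    RG G x y z A (N0 V) k k k := by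
  induction k using Nat.strong_induction_on with
  | _ k ih =>
    intro A hA h7 hc hk
    have h0 : k = 0 ∨ k = 1 ∨ k = 2 ∨ 3 ≤ k := by omega
    rcases h0 with rfl | rfl | rfl | h3
    · have : A = ∅ := Finset.card_eq_zero.1 (by omega)
      subst this
      exact RG.empty
    · exact small3 hxy hyz hxz hA (by omega) h7 (hk rfl)
    · exact two_case hxy hyz hxz hA h7 hc
    · rcases Nat.lt_or_ge A.card 3 with h | h
      · exact (small3 hxy hyz hxz hA (by omega) h7 (fun hb => by have := hb.1; omega)).mono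
          (by omega) (by omega) (by omega)
      · by_cases hb : ∃ B : Finset V, B ⊆ A ∧ B.card = 3 ∧ ¬ Bad G x y z B
        · obtain ⟨B, hB, hBc, hbad⟩ := hb
          have s1 := small3 hxy hyz hxz (hA.mono hB) (G := G) (by omega)
            (fun u hu => h7 u (hB hu)) hbad
          have hc2 : (A \ B).card = A.card - 3 := by rw [Finset.card_sdiff_of_subset hB, hBc]
          have s2 := ih (k - 1) (by omega) (hA.mono (Finset.sdiff_subset (s := A) (t := B)))
            (fun u hu => h7 u (Finset.sdiff_subset hu)) (by omega) (by omega)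
          have h3 := s1.union0 s2 Finset.disjoint_sdiff
          rw [Finset.union_sdiff_of_subset hB] at h3
          exact h3.mono (by omega) (by omega) (by omega)
        · push Not at hb
          rcases all_of_bad h hb with h' | h' | h'
          · exact (mono hxy hyz hxz k hA h' hc (by omega)).mono (by omega) (by omega) (by omega)
          · exact (mono hxz hyz.symm hxy k hA.swap h' hc (by omega)).swap23.mono (by omega)
              (by omega) (by omega)
          · exact (mono hyz hxz.symm hxy.symm k hA.rot h' hc (by omega)).rot.rot.mono (by omega)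
              (by omega) (by omega)

end Pool.Agent.UBV
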