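import Pool.Agent.UBV.Tables

set_option autoImplicit false
set_option linter.unusedSectionVars false

namespace Pool.Agent.UBV

variable {V : Type*} [DecidableEq V] {G : SimpleGraph V} {x y z : V}

/-- `A` avoids `x, y, z` -/
def Out (x y z : V) (A : Finset V) : Prop := ∀ a ∈ A, a ≠ x ∧ a ≠ y ∧ a ≠ z

/-- `u` is adjacent to `p`, `q` but not to `r` -/
def isT (G : SimpleGraph V) (p q r u : V) : Prop := G.Adj u p ∧ G.Adj u q ∧ ¬ G.Adj u r

/-- `u` is adjacent to all three -/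
def Full (G : SimpleGraph V) (p q r u : V) : Prop := G.Adj u p ∧ G.Adj u q ∧ G.Adj u r

/-- a bad triple -/
def Bad (G : SimpleGraph V) (x y z : V) (A : Finset V) : Prop :=
  A.card = 3 ∧ ((∀ u ∈ A, isT G x y z u) ∨ (∀ u ∈ A, isT G x z y u) ∨ (∀ u ∈ A, isT G y z x u))

theorem ty_lt7 {u : V} (h : ¬ Full G x y z u) : tyG G x y z u < 7 := by
  unfold Full at h
  unfold tyG
  split_ifs <;> first | omega | (exfalso; tauto)

theorem ty_eq3 {u : V} : tyG G x y z u = 3 ↔ isT G x y z u := by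
  unfold isT tyG
  split_ifs <;> simp_all

theorem ty_eq5 {u : V} : tyG G x y z u = 5 ↔ isT G x z y u := by
  unfold isT tyG
  split_ifs <;> simp_all

theorem ty_eq6 {u : V} : tyG G x y z u = 6 ↔ isT G y z x u := by
  unfold isT tyG
  split_ifs <;> simp_all

theorem N0_iff0 (a b : V) : tb 0 0 = true ↔ (G.Adj a b ∧ N0 V a b) := by simp [tb, N0]
theorem N0_iff1 (a b : V) : tb 0 1 = true ↔ (G.Adj a b ∧ N0 V a b) := by simp [tb, N0]
theorem N0_iff2 (a b : V) : tb 0 2 = true ↔ (G.Adj a b ∧ N0 V a b) := by simp [tb, N0]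

theorem g1 (hxy : x ≠ y) (hyz : y ≠ z) (hxz : x ≠ z) {u : V} (hu : u ≠ x ∧ u ≠ y ∧ u ≠ z)
    (h7 : ¬ Full G x y z u) : RG G x y z {u} (N0 V) (kk (tyG G x y z u) 0)
      (kk (tyG G x y z u) 1) (kk (tyG G x y z u) 2) := by
  refine gadget hxy hyz hxz 1 (fun _ => u) (fun i hi j hj _ => by omega) (fun _ _ => hu) {u} ?_
    (N0 V) 0 _ _ _ _ _ ?_ (N0_iff0 x y) (N0_iff1 y z) (N0_iff2 x z) (fun a b h => h)
    (c1 _ (ty_lt7 h7))
  · intro a
    rw [Finset.mem_singleton]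
    exact ⟨fun h => ⟨0, by omega, h.symm⟩, fun ⟨_, _, h⟩ => h.symm⟩
  · intro i _; rfl

theorem g2 (hxy : x ≠ y) (hyz : y ≠ z) (hxz : x ≠ z) {u v : V} (hu : u ≠ x ∧ u ≠ y ∧ u ≠ z)
    (hv : v ≠ x ∧ v ≠ y ∧ v ≠ z) (huv : u ≠ v)
    (h7 : ¬ Full G x y z u) (h7' : ¬ Full G x y z v) (hle : tyG G x y z u ≤ tyG G x y z v) :
    RG G x y z {u, v} (N0 V) (kk2 (tyG G x y z u) (tyG G x y z v) 0)
      (kk2 (tyG G x y z u) (tyG G x y z v) 1) (kk2 (tyG G x y z u) (tyG G x y z v) 2) := by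
  refine gadget hxy hyz hxz 2 (fun i => if i = 0 then u else v) ?_ ?_ {u, v} ?_
    (N0 V) 0 _ _ _ _ _ ?_ (N0_iff0 x y) (N0_iff1 y z) (N0_iff2 x z) (fun a b h => h)
    (c2 _ (ty_lt7 h7) _ (ty_lt7 h7') hle)
  · intro i hi j hj
    have h1 : i = 0 ∨ i = 1 := by omega
    have h2 : j = 0 ∨ j = 1 := by omega
    rcases h1 with rfl | rfl <;> rcases h2 with rfl | rfl <;> simp [huv, huv.symm]
  · intro i _
    by_cases h : i = 0
    · simp only [h, if_true]; exact hu
    · simp only [h, if_false]; exact hv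
  · intro a
    simp only [Finset.mem_insert, Finset.mem_singleton]
    constructor
    · rintro (rfl | rfl)
      · exact ⟨0, by omega, rfl⟩
      · exact ⟨1, by omega, rfl⟩
    · rintro ⟨i, _, rfl⟩
      by_cases h : i = 0
      · left; simp [h]
      · right; simp [h]
  · intro i _
    by_cases h : i = 0
    · simp [h]
    · simp [h]

theorem g3 (hxy : x ≠ y) (hyz : y ≠ z) (hxz : x ≠ z) {u v w : V} (hu : u ≠ x ∧ u ≠ y ∧ u ≠ z)
    (hv : v ≠ x ∧ v ≠ y ∧ v ≠ z) (hw : w ≠ x ∧ w ≠ y ∧ w ≠ z) (huv : u ≠ v) (hvw : v ≠ w)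
    (huw : u ≠ w)
    (h7 : ¬ Full G x y z u) (h7' : ¬ Full G x y z v) (h7'' : ¬ Full G x y z w)
    (hle : tyG G x y z u ≤ tyG G x y z v) (hle' : tyG G x y z v ≤ tyG G x y z w)
    (hbad : ¬ Bad G x y z {u, v, w}) :
    RG G x y z {u, v, w} (N0 V) 1 1 1 := by
  refine gadget hxy hyz hxz 3 (fun i => if i = 0 then u else if i = 1 then v else w) ?_ ?_
    {u, v, w} ?_
    (N0 V) 0 _ _ _ _ _ ?_ (N0_iff0 x y) (N0_iff1 y z) (N0_iff2 x z) (fun a b h => h)
    (c3 _ _ _ (ty_lt7 h7) (ty_lt7 h7') (ty_lt7 h7'') hle hle' ?_)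
  · intro i hi j hj
    have h1 : i = 0 ∨ i = 1 ∨ i = 2 := by omega
    have h2 : j = 0 ∨ j = 1 ∨ j = 2 := by omega
    rcases h1 with rfl | rfl | rfl <;> rcases h2 with rfl | rfl | rfl <;>
      simp [huv, huv.symm, hvw, hvw.symm, huw, huw.symm]
  · intro i _
    split_ifs
    · exact hu
    · exact hv
    · exact hw
  · intro a
    simp only [Finset.mem_insert, Finset.mem_singleton]
    constructor
    · rintro (rfl | rfl | rfl)
      · exact ⟨0, by omega, rfl⟩
      · exact ⟨1, by omega, rfl⟩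
      · exact ⟨2, by omega, rfl⟩
    · rintro ⟨i, _, rfl⟩
      split_ifs
      · left; rfl
      · right; left; rfl
      · right; right; rfl
  · intro i _
    split_ifs <;> rfl
  · by_contra hb
    rw [Bool.not_eq_false] at hb
    simp only [badB, Bool.and_eq_true, beq_iff_eq, Bool.or_eq_true] at hb
    obtain ⟨⟨h1, h2⟩, h3⟩ := hb
    refine hbad ⟨Finset.card_eq_three.2 ⟨u, v, w, huv, huw, hvw, rfl⟩, ?_⟩
    have h1' := h1.symm
    have h2' := h2.symm
    rcases h3 with (h3 | h3) | h3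
    · left
      intro a ha
      simp only [Finset.mem_insert, Finset.mem_singleton] at ha
      rcases ha with rfl | rfl | rfl <;> rw [← ty_eq3] <;> omega
    · right; left
      intro a ha
      simp only [Finset.mem_insert, Finset.mem_singleton] at ha
      rcases ha with rfl | rfl | rfl <;> rw [← ty_eq5] <;> omega
    · right; right
      intro a ha
      simp only [Finset.mem_insert, Finset.mem_singleton] at ha
      rcases ha with rfl | rfl | rfl <;> rw [← ty_eq6] <;> omega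

theorem kk_le (m i : ℕ) : kk m i ≤ 1 := by unfold kk; split_ifs <;> omega
theorem kk2_le (a b i : ℕ) : kk2 a b i ≤ 1 := by unfold kk2; split_ifs <;> omega

/-- at most three vertices, not a bad triple -/
theorem small3 (hxy : x ≠ y) (hyz : y ≠ z) (hxz : x ≠ z) {A : Finset V} (hA : Out x y z A)
    (hc : A.card ≤ 3) (h7 : ∀ u ∈ A, ¬ Full G x y z u) (hbad : ¬ Bad G x y z A) :
    RG G x y z A (N0 V) 1 1 1 := by
  have h0 : A.card = 0 ∨ A.card = 1 ∨ A.card = 2 ∨ A.card = 3 := by omega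
  rcases h0 with h0 | h0 | h0 | h0
  · rw [Finset.card_eq_zero] at h0
    subst h0
    exact RG.empty.mono (by omega) (by omega) (by omega)
  · obtain ⟨u, rfl⟩ := Finset.card_eq_one.1 h0
    exact (g1 hxy hyz hxz (hA u (by simp)) (h7 u (by simp))).mono (kk_le _ _) (kk_le _ _) (kk_le _ _)
  · obtain ⟨u, v, huv, rfl⟩ := Finset.card_eq_two.1 h0
    have hu := hA u (by simp)
    have hv := hA v (by simp)
    have h7u := h7 u (by simp)
    have h7v := h7 v (by simp)
    rcases le_total (tyG G x y z u) (tyG G x y z v) with h | h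
    · exact (g2 hxy hyz hxz hu hv huv h7u h7v h).mono (kk2_le _ _ _) (kk2_le _ _ _) (kk2_le _ _ _)
    · rw [Finset.pair_comm]
      exact (g2 hxy hyz hxz hv hu huv.symm h7v h7u h).mono (kk2_le _ _ _) (kk2_le _ _ _)
        (kk2_le _ _ _)
  · obtain ⟨u, v, w, huv, huw, hvw, rfl⟩ := Finset.card_eq_three.1 h0
    have hu := hA u (by simp)
    have hv := hA v (by simp)
    have hw := hA w (by simp)
    have h7u := h7 u (by simp)
    have h7v := h7 v (by simp)
    have h7w := h7 w (by simp)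
    have e1 : ({u, v, w} : Finset V) = {u, w, v} := by ext; simp; tauto
    have e2 : ({u, v, w} : Finset V) = {v, u, w} := by ext; simp; tauto
    have e3 : ({u, v, w} : Finset V) = {v, w, u} := by ext; simp; tauto
    have e4 : ({u, v, w} : Finset V) = {w, u, v} := by ext; simp; tauto
    have e5 : ({u, v, w} : Finset V) = {w, v, u} := by ext; simp; tauto
    rcases le_total (tyG G x y z u) (tyG G x y z v) with h | h <;>
      rcases le_total (tyG G x y z v) (tyG G x y z w) with h' | h' <;>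
      rcases le_total (tyG G x y z u) (tyG G x y z w) with h'' | h''
    · exact g3 hxy hyz hxz hu hv hw huv hvw huw h7u h7v h7w h h' hbad
    · exact g3 hxy hyz hxz hu hv hw huv hvw huw h7u h7v h7w h h' hbad
    · rw [e1] at hbad ⊢
      exact g3 hxy hyz hxz hu hw hv huw hvw.symm huv h7u h7w h7v h'' h' hbad
    · rw [e4] at hbad ⊢
      exact g3 hxy hyz hxz hw hu hv huw.symm huv hvw.symm h7w h7u h7v h'' h hbad
    · rw [e2] at hbad ⊢
      exact g3 hxy hyz hxz hv hu hw huv.symm huw hvw h7v h7u h7w h h'' hbad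
    · rw [e3] at hbad ⊢
      exact g3 hxy hyz hxz hv hw hu hvw huw.symm huv.symm h7v h7w h7u h' h'' hbad
    · rw [e5] at hbad ⊢
      exact g3 hxy hyz hxz hw hv hu hvw.symm huv.symm huw.symm h7w h7v h7u h' h hbad
    · rw [e5] at hbad ⊢
      exact g3 hxy hyz hxz hw hv hu hvw.symm huv.symm huw.symm h7w h7v h7u h' h hbad

theorem kk_zero0 {u : V} (h : ¬ G.Adj u x) : kk (tyG G x y z u) 0 = 0 := by
  unfold kk; rw [if_neg]; rw [tb_ty0]; exact h

theorem kk_zero1 {u : V} (h : ¬ G.Adj u y) : kk (tyG G x y z u) 1 = 0 := by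
  unfold kk; rw [if_neg]; rw [tb_ty1]; exact h

/-- one vertex which is not adjacent to `x` -/
theorem small1x (hxy : x ≠ y) (hyz : y ≠ z) (hxz : x ≠ z) {u : V} (hu : u ≠ x ∧ u ≠ y ∧ u ≠ z)
    (h : ¬ G.Adj u x) : RG G x y z {u} (N0 V) 0 1 1 :=
  (g1 hxy hyz hxz hu fun h' => h h'.1).mono (kk_zero0 h).le (kk_le _ _) (kk_le _ _)

/-- one vertex which is not adjacent to `x`, `y` -/
theorem small1xy (hxy : x ≠ y) (hyz : y ≠ z) (hxz : x ≠ z) {u : V} (hu : u ≠ x ∧ u ≠ y ∧ u ≠ z)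
    (h : ¬ G.Adj u x) (h' : ¬ G.Adj u y) : RG G x y z {u} (N0 V) 0 0 1 :=
  (g1 hxy hyz hxz hu fun h' => h h'.1).mono (kk_zero0 h).le (kk_zero1 h').le (kk_le _ _)

/-- two vertices which are not adjacent to `x` -/
theorem small2x (hxy : x ≠ y) (hyz : y ≠ z) (hxz : x ≠ z) {u v : V} (hu : u ≠ x ∧ u ≠ y ∧ u ≠ z)
    (hv : v ≠ x ∧ v ≠ y ∧ v ≠ z) (huv : u ≠ v) (h : ¬ G.Adj u x) (h' : ¬ G.Adj v x) :
    RG G x y z {u, v} (N0 V) 0 1 1 := by
  have e : ∀ {a b : V}, ¬ G.Adj a x → ¬ G.Adj b x →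
      kk2 (tyG G x y z a) (tyG G x y z b) 0 ≤ 0 := by
    intro a b ha hb
    unfold kk2
    rw [if_neg]
    rw [Bool.or_eq_true, tb_ty0, tb_ty0]
    tauto
  rcases le_total (tyG G x y z u) (tyG G x y z v) with hl | hl
  · exact (g2 hxy hyz hxz hu hv huv (fun h' => h h'.1) (fun h => h' h.1) hl).mono (e h h')
      (kk2_le _ _ _) (kk2_le _ _ _)
  · rw [Finset.pair_comm]
    exact (g2 hxy hyz hxz hv hu huv.symm (fun h => h' h.1) (fun h' => h h'.1) hl).mono (e h' h)
      (kk2_le _ _ _) (kk2_le _ _ _)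

end Pool.Agent.UBV
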