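import Pool.Agent.UBV.Ladder

set_option autoImplicit false
set_option linter.unusedSectionVars false

namespace Pool.Agent.UBV

variable {V : Type*} [DecidableEq V] {G : SimpleGraph V} {x y z : V}

/-- three different vertices -/
def Fr (x y z : V) : Prop := x ≠ y ∧ y ≠ z ∧ x ≠ z

theorem Fr.rot (h : Fr x y z) : Fr y z x := ⟨h.2.1, h.2.2.symm, h.1.symm⟩
theorem Fr.swap (h : Fr x y z) : Fr x z y := ⟨h.2.2, h.2.1.symm, h.1⟩

open Classical in
/-- the code of the edges inside -/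
noncomputable def teG (p q r : Prop) : ℕ :=
  (if p then 1 else 0) + (if q then 2 else 0) + (if r then 4 else 0)

theorem teG_lt (p q r : Prop) : teG p q r < 8 := by
  unfold teG; split_ifs <;> norm_num

theorem tb_te0 (p q r : Prop) : tb (teG p q r) 0 = true ↔ p := by
  unfold teG tb; split_ifs <;> simp_all

theorem tb_te1 (p q r : Prop) : tb (teG p q r) 1 = true ↔ q := by
  unfold teG tb; split_ifs <;> simp_all

theorem tb_te2 (p q r : Prop) : tb (teG p q r) 2 = true ↔ r := by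
  unfold teG tb; split_ifs <;> simp_all

theorem ty_eq7 {u : V} : tyG G x y z u = 7 ↔ Full G x y z u := by
  unfold Full tyG
  split_ifs <;> simp_all

/-- graphs with four vertices -/
theorem d4 (hd : Fr x y z) {u : V} (hu : u ≠ x ∧ u ≠ y ∧ u ≠ z)
    (hn : ¬ (Full G x y z u ∧ G.Adj x y ∧ G.Adj y z ∧ G.Adj x z)) :
    RG G x y z {u} (N1 V) 1 1 1 := by
  refine gadget hd.1 hd.2.1 hd.2.2 1 (fun _ => u) (fun i hi j hj _ => by omega) (fun _ _ => hu)
    {u} ?_ (N1 V) (teG (G.Adj x y) (G.Adj y z) (G.Adj x z)) _ _ _ _ _ ?_ ?_ ?_ ?_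
    (fun a b h => h) (cD _ (teG_lt _ _ _) (tyG G x y z u) (tyG_lt _ _ _ _ _) ?_)
  · intro a
    rw [Finset.mem_singleton]
    exact ⟨fun h => ⟨0, by omega, h.symm⟩, fun ⟨_, _, h⟩ => h.symm⟩
  · intro i _; rfl
  · rw [tb_te0]; simp [N1]
  · rw [tb_te1]; simp [N1]
  · rw [tb_te2]; simp [N1]
  · rintro ⟨h1, h2⟩
    apply hn
    refine ⟨ty_eq7.1 h2, ?_, ?_, ?_⟩
    · rw [← tb_te0 (G.Adj x y) (G.Adj y z) (G.Adj x z), h1]; rfl
    · rw [← tb_te1 (G.Adj x y) (G.Adj y z) (G.Adj x z), h1]; rfl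
    · rw [← tb_te2 (G.Adj x y) (G.Adj y z) (G.Adj x z), h1]; rfl

/-- graphs with three vertices -/
theorem d30 (hd : Fr x y z) : RG G x y z ∅ (N1 V) 1 1 1 := by
  refine gadget hd.1 hd.2.1 hd.2.2 0 (fun _ => x) (fun i hi j hj _ => by omega)
    (fun _ h => absurd h (by omega))
    ∅ ?_ (N1 V) (teG (G.Adj x y) (G.Adj y z) (G.Adj x z)) _ _ _ _ _ ?_ ?_ ?_ ?_
    (fun a b h => h) (cD0 _ (teG_lt _ _ _))
  · intro a
    simp
  · intro i hi; omega
  · rw [tb_te0]; simp [N1]
  · rw [tb_te1]; simp [N1]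
  · rw [tb_te2]; simp [N1]

theorem pr_comm' {p q a b : V} (h : Pr p q a b) : Pr p q b a := by
  unfold Pr at *; tauto

/-- two vertices of type `xy`, and the edges `xy`, `xz` -/
theorem ga (hd : Fr x y z) {u v : V} (hu : u ≠ x ∧ u ≠ y ∧ u ≠ z) (hv : v ≠ x ∧ v ≠ y ∧ v ≠ z)
    (huv : u ≠ v) (hu' : isT G x y z u) (hv' : isT G x y z v) :
    RG G x y z {u, v} (fun a b => Pr x y a b ∨ Pr x z a b) 1 1 1 := by
  have hd1 := hd.1
  have hd2 := hd.2.1
  have hd3 := hd.2.2
  refine gadget hd1 hd2 hd3 2 (fun i => if i = 0 then u else v) ?_ ?_ {u, v} ?_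
    (fun a b => Pr x y a b ∨ Pr x z a b) (teG (G.Adj x y) False (G.Adj x z)) _ _ _ _ _
    ?_ ?_ ?_ ?_ (fun a b h => h.imp pr_comm' pr_comm') (cG _ ?_ ?_)
  · intro i hi j hj
    have h1 : i = 0 ∨ i = 1 := by omega
    have h2 : j = 0 ∨ j = 1 := by omega
    rcases h1 with rfl | rfl <;> rcases h2 with rfl | rfl <;> simp [huv, huv.symm]
  · intro i _
    by_cases h : i = 0
    · simp only [h, if_true]; exact hu
    · simp only [h, if_false]; exact hv
  · intro a
    simp only [Finset.mem_insert, Finset.mem_singleton]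
    constructor
    · rintro (rfl | rfl)
      · exact ⟨0, by omega, rfl⟩
      · exact ⟨1, by omega, rfl⟩
    · rintro ⟨i, _, rfl⟩
      by_cases h : i = 0
      · left; simp [h]
      · right; simp [h]
  · intro i _
    by_cases h : i = 0
    · simp only [h, if_true]; exact (ty_eq3.2 hu').symm
    · simp only [h, if_false]; exact (ty_eq3.2 hv').symm
  · rw [tb_te0]; simp [Pr]
  · rw [tb_te1]
    simp only [Pr, false_iff, not_and]
    rintro _ ((⟨h, _⟩ | ⟨_, h⟩) | (⟨h, _⟩ | ⟨_, h⟩))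
    · exact hd1 h.symm
    · exact hd3 h.symm
    · exact hd1 h.symm
    · exact hd3 h.symm
  · rw [tb_te2]; simp [Pr]
  · unfold teG
    split_ifs <;> first | omega | contradiction
  · rw [← Bool.not_eq_true, tb_te1]; simp

/-- all edges inside are available if `t ≥ 2` -/
theorem SS_all {t : ℕ} (ht : 2 ≤ t) {a b : V} (ha : inT x y z a) (hb : inT x y z b) (hab : a ≠ b) :
    SS x y z t a b := by
  unfold SS Pr
  rcases ha with rfl | rfl | rfl <;> rcases hb with rfl | rfl | rfl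
  · exact absurd rfl hab
  · left; left; exact ⟨rfl, rfl⟩
  · right; right; exact ⟨ht, Or.inl ⟨rfl, rfl⟩⟩
  · left; right; exact ⟨rfl, rfl⟩
  · exact absurd rfl hab
  · right; left; exact ⟨by omega, Or.inl ⟨rfl, rfl⟩⟩
  · right; right; exact ⟨ht, Or.inr ⟨rfl, rfl⟩⟩
  · right; left; exact ⟨by omega, Or.inr ⟨rfl, rfl⟩⟩
  · exact absurd rfl hab

theorem ladder2 (hd : Fr x y z) {A0 : Finset V} (hA0 : Out x y z A0)
    (h0 : A0 = ∅ ∨ ∃ u, A0 = {u} ∧ isT G x y z u) {F : Finset V} (hF : Out x y z F)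
    (hfull : ∀ f ∈ F, Full G x y z f) (ht : 2 ≤ F.card) :
    RG G x y z (A0 ∪ F) (N1 V) ((F.card + 4) / 3) ((F.card + 3) / 3) ((F.card + 2) / 3) := by
  refine (ladder hd.1 hA0 h0 hF hfull).congr fun a b ha hb hab _ => ?_
  exact ⟨fun _ => trivial, fun _ => SS_all ht ha hb hab⟩

theorem ladder2' (hd : Fr x y z) {F : Finset V} (hF : Out x y z F)
    (hfull : ∀ f ∈ F, Full G x y z f) (ht : 2 ≤ F.card) :
    RG G x y z F (N1 V) ((F.card + 4) / 3) ((F.card + 3) / 3) ((F.card + 2) / 3) := by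
  have := ladder2 hd (A0 := ∅) (fun a ha => absurd ha (by simp)) (Or.inl rfl) hF hfull ht
  rwa [Finset.empty_union] at this

theorem RG.cast {A A' : Finset V} {S : V → V → Prop} {i j k i' j' k' : ℕ}
    (h : RG G x y z A S i j k) (hA : A = A') (hi : i ≤ i') (hj : j ≤ j') (hk : k ≤ k') :
    RG G x y z A' S i' j' k' := by
  subst hA; exact h.mono hi hj hk

/-- `m` copies of non-full vertices minus a few -/
theorem nonfull' (hd : Fr x y z) (k : ℕ) {A : Finset V} (hA : Out x y z A)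
    (h7 : ∀ u ∈ A, ¬ Full G x y z u) (hc : A.card ≤ 3 * k) (hk : ¬ (k = 1 ∧ Bad G x y z A)) :
    RG G x y z A (N0 V) k k k :=
  nonfull hd.1 hd.2.1 hd.2.2 k hA h7 hc fun h1 h2 => hk ⟨h1, h2⟩

/-- all vertices have the same 2-type -/
def AllSame (G : SimpleGraph V) (x y z : V) (A : Finset V) : Prop :=
  (∀ u ∈ A, isT G x y z u) ∨ (∀ u ∈ A, isT G x z y u) ∨ (∀ u ∈ A, isT G y z x u)

theorem AllSame.rot {A : Finset V} (h : AllSame G x y z A) : AllSame G y z x A := by
  rcases h with h | h | h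
  · right; left; intro u hu; exact isT_swap (h u hu)
  · right; right; intro u hu; exact isT_swap (h u hu)
  · left; exact h

theorem AllSame.swap {A : Finset V} (h : AllSame G x y z A) : AllSame G x z y A := by
  rcases h with h | h | h
  · right; left; exact h
  · left; exact h
  · right; right; intro u hu; exact isT_swap (h u hu)

/-- if the removal of any vertex of a four-element set leaves a bad triple, then all vertices have
the same 2-type -/
theorem allSame_of_erase {A : Finset V} (hne : A.Nonempty)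
    (hb : ∀ u ∈ A, Bad G x y z (A.erase u)) : AllSame G x y z A := by
  obtain ⟨u, hu⟩ := hne
  have h1 := (hb u hu).1
  have hc : A.card = 4 := by
    rw [Finset.card_erase_of_mem hu] at h1; omega
  refine all_of_bad (by omega) fun B hB hBc => ?_
  have hd : (A \ B).card = 1 := by rw [Finset.card_sdiff_of_subset hB]; omega
  obtain ⟨w, hw⟩ := Finset.card_eq_one.1 hd
  have hwA : w ∈ A \ B := by rw [hw]; simp
  rw [Finset.mem_sdiff] at hwA
  have e : A.erase w = B := by
    refine (Finset.eq_of_subset_of_card_le ?_ ?_).symm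
    · intro b hb'
      exact Finset.mem_erase.2 ⟨fun h => hwA.2 (h ▸ hb'), hB hb'⟩
    · rw [Finset.card_erase_of_mem hwA.1]; omega
  rw [← e]
  exact hb w hwA.1

/-- four vertices of the same 2-type, no full vertex -/
theorem four_mono (hd : Fr x y z) {A : Finset V} (hA : Out x y z A) (hc : A.card = 4)
    (hm : ∀ u ∈ A, isT G x y z u) : RG G x y z A (N1 V) 2 2 2 := by
  obtain ⟨B, hB, hBc⟩ := Finset.exists_subset_card_eq (s := A) (n := 2) (by omega)
  have hc2 : (A \ B).card = 2 := by rw [Finset.card_sdiff_of_subset hB]; omega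
  obtain ⟨a, b, hab, hBe⟩ := Finset.card_eq_two.1 hBc
  obtain ⟨c, d, hcd, hCe⟩ := Finset.card_eq_two.1 hc2
  have ha : a ∈ A := hB (by rw [hBe]; simp)
  have hb : b ∈ A := hB (by rw [hBe]; simp)
  have hcA : c ∈ A := Finset.sdiff_subset (show c ∈ A \ B by rw [hCe]; simp)
  have hdA : d ∈ A := Finset.sdiff_subset (show d ∈ A \ B by rw [hCe]; simp)
  have r1 := ga hd (hA a ha) (hA b hb) hab (hm a ha) (hm b hb)
  have hd' : Fr y x z := ⟨hd.1.symm, hd.2.2, hd.2.1⟩
  have sw : ∀ {u : V}, (u ≠ x ∧ u ≠ y ∧ u ≠ z) → (u ≠ y ∧ u ≠ x ∧ u ≠ z) :=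
    fun h => ⟨h.2.1, h.1, h.2.2⟩
  have r2 := (ga hd' (sw (hA c hcA)) (sw (hA d hdA)) hcd (isT_swap (hm c hcA))
    (isT_swap (hm d hdA))).swap12
  rw [← hBe] at r1
  rw [← hCe] at r2
  have r3 := r1.union r2 Finset.disjoint_sdiff
  rw [Finset.union_sdiff_of_subset hB] at r3
  refine (r3.congr fun p q hp hq hpq _ => ?_)
  refine ⟨fun _ => trivial, fun _ => ?_⟩
  unfold Pr
  rcases hp with rfl | rfl | rfl <;> rcases hq with rfl | rfl | rfl <;> simp_all

/-- three vertices of the same 2-type and one full vertex -/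
theorem three_mono (hd : Fr x y z) {A : Finset V} (hA : Out x y z A) (hc : A.card = 3)
    (hm : ∀ u ∈ A, isT G x y z u) {f : V} (hf : f ≠ x ∧ f ≠ y ∧ f ≠ z) (hff : Full G x y z f) :
    RG G x y z ({f} ∪ A) (N1 V) 2 2 2 := by
  obtain ⟨a, b, c, hab, hac, hbc, hAe⟩ := Finset.card_eq_three.1 hc
  have ha : a ∈ A := by rw [hAe]; simp
  have hb : b ∈ A := by rw [hAe]; simp
  have hcA : c ∈ A := by rw [hAe]; simp
  have hF : Out x y z {f} := by
    intro g hg
    rw [Finset.mem_singleton.1 hg]; exact hf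
  have hA0 : Out x y z {a} := by
    intro g hg
    rw [Finset.mem_singleton.1 hg]; exact hA a ha
  have r1 := ladder hd.1 (G := G) hA0 (Or.inr ⟨a, rfl, hm a ha⟩) hF (fun g hg => by
    rw [Finset.mem_singleton.1 hg]; exact hff)
  have r2 := ga hd (hA b hb) (hA c hcA) hbc (hm b hb) (hm c hcA)
  have hfA : ∀ u ∈ A, u ≠ f := by
    rintro u hu rfl
    exact (hm u hu).2.2 hff.2.2
  have hdis : Disjoint ({a} ∪ {f} : Finset V) {b, c} := by
    rw [Finset.disjoint_left]
    intro v hv hv'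
    simp only [Finset.mem_union, Finset.mem_singleton, Finset.mem_insert] at hv hv'
    rcases hv with rfl | rfl <;> rcases hv' with rfl | rfl
    · exact hab rfl
    · exact hac rfl
    · exact hfA _ hb rfl
    · exact hfA _ hcA rfl
  have r3 := r1.union r2 hdis
  have hset : ({a} ∪ {f} : Finset V) ∪ {b, c} = {f} ∪ A := by
    rw [hAe]; ext v
    simp only [Finset.mem_union, Finset.mem_singleton, Finset.mem_insert]
    tauto
  rw [Finset.card_singleton] at r3
  refine (r3.congr (S' := N1 V) fun p q hp hq hpq _ => ?_).cast hset (by norm_num) (by norm_num)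
    (by norm_num)
  refine ⟨fun _ => trivial, fun _ => ?_⟩
  unfold SS Pr
  rcases hp with rfl | rfl | rfl <;> rcases hq with rfl | rfl | rfl <;> simp_all

end Pool.Agent.UBV
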