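import Pool.Agent.UBV.Step

set_option autoImplicit false
set_option linter.unusedSectionVars false

namespace Pool.Agent.UBV

variable {V : Type*} [DecidableEq V] {G : SimpleGraph V} {x y z : V}

theorem nonfull_rot {A : Finset V} (h : ∀ u ∈ A, ¬ Full G x y z u) : ∀ u ∈ A, ¬ Full G y z x u :=
  fun u hu h' => h u hu h'.rot.rot

theorem full_rot {A : Finset V} (h : ∀ u ∈ A, Full G x y z u) : ∀ u ∈ A, Full G y z x u :=
  fun u hu => (h u hu).rot

theorem nonfull_swap {A : Finset V} (h : ∀ u ∈ A, ¬ Full G x y z u) : ∀ u ∈ A, ¬ Full G x z y u :=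
  fun u hu h' => h u hu h'.swap

theorem full_swap {A : Finset V} (h : ∀ u ∈ A, Full G x y z u) : ∀ u ∈ A, Full G x z y u :=
  fun u hu => (h u hu).swap

theorem not_bad_rot {A : Finset V} (h : ¬ Bad G x y z A) : ¬ Bad G y z x A :=
  fun h' => h h'.rot.rot

theorem Bad.allSame {A : Finset V} (h : Bad G x y z A) : AllSame G x y z A := h.2

/-- no full vertices -/
theorem step0 (hd : Fr x y z) {U : Finset V} (hU : Out x y z U) (h7 : ∀ u ∈ U, ¬ Full G x y z u)
    (h2 : 2 ≤ U.card) {B : ℕ} (hB : U.card + 2 ≤ 3 * B) : RG G x y z U (N1 V) B B B := by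
  by_cases hbad : B = 2 ∧ ∀ u ∈ U, Bad G x y z (U.erase u)
  · obtain ⟨rfl, hbad⟩ := hbad
    have hne : U.Nonempty := Finset.card_pos.1 (by omega)
    have hc : U.card = 4 := by
      obtain ⟨u, hu⟩ := hne
      have := (hbad u hu).1
      rw [Finset.card_erase_of_mem hu] at this; omega
    rcases allSame_of_erase hne hbad with h | h | h
    · exact four_mono hd hU hc h
    · exact (four_mono hd.swap hU.swap hc h).swap23
    · exact (four_mono hd.rot hU.rot hc h).rot.rot
  · obtain ⟨u, hu, hu2⟩ : ∃ u ∈ U, ¬ (B - 1 = 1 ∧ Bad G x y z (U.erase u)) := by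
      by_contra hcon
      push Not at hcon
      apply hbad
      obtain ⟨u, hu⟩ : U.Nonempty := Finset.card_pos.1 (by omega)
      exact ⟨by have := (hcon u hu).1; omega, fun v hv => (hcon v hv).2⟩
    have r1 := d4 hd (G := G) (hU u hu) (fun h => h7 u hu h.1)
    have hc : (U.erase u).card = U.card - 1 := Finset.card_erase_of_mem hu
    have r2 := nonfull' hd (B - 1) (hU.mono (Finset.erase_subset u U))
      (fun v hv => h7 v (Finset.erase_subset _ _ hv)) (by omega) hu2
    refine (r1.union0 r2 (by simp)).cast ?_ (by omega) (by omega) (by omega)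
    rw [← Finset.insert_eq, Finset.insert_erase hu]

/-- one full vertex -/
theorem step1 (hd : Fr x y z) {f : V} (hf : f ≠ x ∧ f ≠ y ∧ f ≠ z) (hff : Full G x y z f)
    (htri : ¬ (G.Adj x y ∧ G.Adj y z ∧ G.Adj x z))
    {U : Finset V} (hU : Out x y z U) (h7 : ∀ u ∈ U, ¬ Full G x y z u)
    (h2 : 1 ≤ U.card) {B : ℕ} (hB : U.card + 3 ≤ 3 * B) :
    RG G x y z ({f} ∪ U) (N1 V) B B B := by
  have hfU : Disjoint {f} U := by
    rw [Finset.disjoint_singleton_left]
    exact fun h => h7 f h hff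
  by_cases hbad : B - 1 = 1 ∧ Bad G x y z U
  · obtain ⟨hB2, hbad⟩ := hbad
    have : B = 2 := by omega
    subst this
    rcases hbad.2 with h | h | h
    · exact three_mono hd hU hbad.1 h hf hff
    · exact (three_mono hd.swap hU.swap hbad.1 h ⟨hf.1, hf.2.2, hf.2.1⟩ hff.swap).swap23
    · exact (three_mono hd.rot hU.rot hbad.1 h ⟨hf.2.1, hf.2.2, hf.1⟩ hff.rot).rot.rot
  · have r1 := d4 hd (G := G) hf (fun h => htri h.2)
    have r2 := nonfull' hd (B - 1) hU h7 (by omega) hbad
    exact (r1.union0 r2 hfU).mono (by omega) (by omega) (by omega)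

section Big

variable {F U : Finset V}

/-- setting of the main case -/
structure Big (G : SimpleGraph V) (x y z : V) (F U : Finset V) : Prop where
  hd : Fr x y z
  hF : Out x y z F
  hU : Out x y z U
  full : ∀ f ∈ F, Full G x y z f
  nf : ∀ u ∈ U, ¬ Full G x y z u
  two : 2 ≤ F.card

theorem Big.rot (h : Big G x y z F U) : Big G y z x F U :=
  ⟨h.hd.rot, h.hF.rot, h.hU.rot, full_rot h.full, nonfull_rot h.nf, h.two⟩

theorem Big.swap (h : Big G x y z F U) : Big G x z y F U :=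
  ⟨h.hd.swap, h.hF.swap, h.hU.swap, full_swap h.full, nonfull_swap h.nf, h.two⟩

theorem Big.disj (h : Big G x y z F U) : Disjoint F U := by
  rw [Finset.disjoint_left]
  intro v hv hv'
  exact h.nf v hv' (h.full v hv)

theorem Big.lad (h : Big G x y z F U) : RG G x y z F (N1 V) ((F.card + 4) / 3) ((F.card + 3) / 3)
    ((F.card + 2) / 3) := ladder2' h.hd h.hF h.full h.two

theorem Big.lad1 (h : Big G x y z F U) {u : V} (hu : u ∈ U) (hT : isT G x y z u) :
    RG G x y z ({u} ∪ F) (N1 V) ((F.card + 4) / 3) ((F.card + 3) / 3) ((F.card + 2) / 3) :=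
  ladder2 h.hd (fun a ha => by rw [Finset.mem_singleton.1 ha]; exact h.hU u hu)
    (Or.inr ⟨u, rfl, hT⟩) h.hF h.full h.two

theorem Big.disj1 (h : Big G x y z F U) {u : V} (hu : u ∈ U) {W : Finset V} (hW : W ⊆ U)
    (huW : u ∉ W) : Disjoint ({u} ∪ F) W := by
  rw [Finset.disjoint_left]
  intro v hv hv'
  rw [Finset.mem_union, Finset.mem_singleton] at hv
  rcases hv with rfl | hv
  · exact huW hv'
  · exact h.nf v (hW hv') (h.full v hv)

/-- the ladder with everything else -/
theorem Big.simple (h : Big G x y z F U) {k B : ℕ} (hc : U.card ≤ 3 * k)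
    (hk : ¬ (k = 1 ∧ Bad G x y z U)) (hB : (F.card + 4) / 3 + k ≤ B) :
    RG G x y z (F ∪ U) (N1 V) B B B := by
  have r2 := nonfull' h.hd k h.hU h.nf hc hk
  exact (h.lad.union0 r2 h.disj).mono (by omega) (by omega) (by omega)

/-- `t ≡ 1 mod 3`, bad triple -/
theorem Big.rho0 (h : Big G x y z F U) {B : ℕ} (hc : U.card = 3) (hm : ∀ u ∈ U, isT G x y z u)
    (hB : F.card + U.card + 2 ≤ 3 * B) : RG G x y z (F ∪ U) (N1 V) B B B := by
  obtain ⟨u, hu⟩ : U.Nonempty := Finset.card_pos.1 (by omega)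
  have hce : (U.erase u).card = 2 := by rw [Finset.card_erase_of_mem hu]; omega
  have r2 := mono2 h.hd.1 h.hd.2.1 h.hd.2.2 (h.hU.mono (Finset.erase_subset u U)) (G := G)
    (fun v hv => hm v (Finset.erase_subset _ _ hv)) (by omega)
  have r3 := (h.lad1 hu (hm u hu)).union0 r2 (h.disj1 hu (Finset.erase_subset u U) (by simp))
  refine r3.cast ?_ (by omega) (by omega) (by omega)
  ext v
  simp only [Finset.mem_union, Finset.mem_singleton, Finset.mem_erase]
  constructor
  · rintro ((rfl | hv) | ⟨_, hv⟩)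
    · exact Or.inr hu
    · exact Or.inl hv
    · exact Or.inr hv
  · rintro (hv | hv)
    · exact Or.inl (Or.inr hv)
    · by_cases h' : v = u
      · exact Or.inl (Or.inl h')
      · exact Or.inr ⟨h', hv⟩

/-- `t ≡ 2 mod 3`, all vertices have the same type -/
theorem Big.rho1_same (h : Big G x y z F U) {k B : ℕ} (hm : ∀ u ∈ U, isT G y z x u)
    (ht : F.card % 3 = 2) (hc : U.card ≤ 3 * k + 2) (hB : (F.card + 4) / 3 + k ≤ B) :
    RG G x y z (F ∪ U) (N1 V) B B B := by
  have r2 := (mono h.hd.rot.1 h.hd.rot.2.1 h.hd.rot.2.2 (k + 1) h.hU.rot hm (by omega)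
    (by omega)).rot.rot
  exact (h.lad.union0 r2 h.disj).mono (by omega) (by omega) (by omega)

/-- `t ≡ 2 mod 3`, one extra vertex -/
theorem Big.rho1_one (h : Big G x y z F U) {k B : ℕ} {u : V} (hu : u ∈ U) (hux : ¬ G.Adj u x)
    (ht : F.card % 3 = 2) (hc : U.card ≤ 3 * k + 1) (hk : ¬ (k = 1 ∧ Bad G x y z (U.erase u)))
    (hB : (F.card + 4) / 3 + k ≤ B) :
    RG G x y z (F ∪ U) (N1 V) B B B := by
  have hce : (U.erase u).card = U.card - 1 := Finset.card_erase_of_mem hu
  have r1 := small1x h.hd.1 h.hd.2.1 h.hd.2.2 (h.hU u hu) hux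
  have r2 := nonfull' h.hd k (h.hU.mono (Finset.erase_subset u U))
    (fun v hv => h.nf v (Finset.erase_subset _ _ hv)) (by omega) hk
  have r3 := r1.union0 r2 (by simp)
  rw [← Finset.insert_eq, Finset.insert_erase hu] at r3
  exact (h.lad.union0 r3 h.disj).mono (by omega) (by omega) (by omega)

/-- `t ≡ 2 mod 3`, two extra vertices with a common non-neighbour -/
theorem Big.rho1_two (h : Big G x y z F U) {k B : ℕ} {u v : V} (hu : u ∈ U) (hv : v ∈ U)
    (huv : u ≠ v) (hux : ¬ G.Adj u x) (hvx : ¬ G.Adj v x)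
    (ht : F.card % 3 = 2) (hc : U.card ≤ 3 * k + 2)
    (hk : ¬ (k = 1 ∧ Bad G x y z (U \ {u, v})))
    (hB : (F.card + 4) / 3 + k ≤ B) :
    RG G x y z (F ∪ U) (N1 V) B B B := by
  have hsub : ({u, v} : Finset V) ⊆ U := by
    intro w hw
    simp only [Finset.mem_insert, Finset.mem_singleton] at hw
    rcases hw with rfl | rfl
    · exact hu
    · exact hv
  have hce : (U \ {u, v}).card = U.card - 2 := by
    rw [Finset.card_sdiff_of_subset hsub, Finset.card_pair huv]
  have r1 := small2x h.hd.1 h.hd.2.1 h.hd.2.2 (h.hU u hu) (h.hU v hv) huv hux hvx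
  have r2 := nonfull' h.hd k (h.hU.mono (Finset.sdiff_subset (s := U) (t := {u, v})))
    (fun v hv => h.nf v (Finset.sdiff_subset hv)) (by omega) hk
  have r3 := r1.union0 r2 Finset.disjoint_sdiff
  rw [Finset.union_sdiff_of_subset hsub] at r3
  exact (h.lad.union0 r3 h.disj).mono (by omega) (by omega) (by omega)

/-- `t ≡ 2 mod 3`, two vertices without a common non-neighbour -/
theorem Big.rho1_att {u v : V} (h : Big G x y z F {u, v}) (huv : u ≠ v) {B : ℕ}
    (hu : isT G x y z u) (hvx : ¬ G.Adj v x) (ht : F.card % 3 = 2) (hB : (F.card + 4) / 3 ≤ B) :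
    RG G x y z (F ∪ {u, v}) (N1 V) B B B := by
  have huU : u ∈ ({u, v} : Finset V) := by simp
  have hvU : v ∈ ({u, v} : Finset V) := by simp
  have r1 := small1x h.hd.1 h.hd.2.1 h.hd.2.2 (h.hU v hvU) hvx
  have hsub : ({v} : Finset V) ⊆ {u, v} := by simp
  have r3 := (h.lad1 huU hu).union0 r1 (h.disj1 huU hsub (by simpa using huv))
  refine r3.cast ?_ (by omega) (by omega) (by omega)
  ext w
  simp only [Finset.mem_union, Finset.mem_singleton, Finset.mem_insert]
  tauto

/-- `t ≡ 0 mod 3`, all vertices have the same type -/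
theorem Big.rho2_same (h : Big G x y z F U) {B : ℕ} (hm : ∀ u ∈ U, isT G z x y u)
    (ht : F.card % 3 = 0) (hc : U.card ≤ 4) (hB : (F.card + 4) / 3 + 1 ≤ B) :
    RG G x y z (F ∪ U) (N1 V) B B B := by
  have hd := h.hd.rot.rot
  have r2 := (mono4 hd.1 hd.2.1 hd.2.2 h.hU.rot.rot hm hc).rot
  exact (h.lad.union0 r2 h.disj).mono (by omega) (by omega) (by omega)

/-- `t ≡ 0 mod 3`, one vertex with at most one neighbour -/
theorem Big.rho2_one (h : Big G x y z F U) {k B : ℕ} {u : V} (hu : u ∈ U) (hux : ¬ G.Adj u x)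
    (huy : ¬ G.Adj u y)
    (ht : F.card % 3 = 0) (hc : U.card ≤ 3 * k + 1) (hk : ¬ (k = 1 ∧ Bad G x y z (U.erase u)))
    (hB : (F.card + 4) / 3 + k ≤ B) :
    RG G x y z (F ∪ U) (N1 V) B B B := by
  have hce : (U.erase u).card = U.card - 1 := Finset.card_erase_of_mem hu
  have r1 := small1xy h.hd.1 h.hd.2.1 h.hd.2.2 (h.hU u hu) hux huy
  have r2 := nonfull' h.hd k (h.hU.mono (Finset.erase_subset u U))
    (fun v hv => h.nf v (Finset.erase_subset _ _ hv)) (by omega) hk
  have r3 := r1.union0 r2 (by simp)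
  rw [← Finset.insert_eq, Finset.insert_erase hu] at r3
  exact (h.lad.union0 r3 h.disj).mono (by omega) (by omega) (by omega)

/-- `t ≡ 0 mod 3`, one vertex with two neighbours -/
theorem Big.rho2_att (h : Big G x y z F U) {k B : ℕ} {u : V} (hu : u ∈ U) (hT : isT G x y z u)
    (hc : U.card ≤ 3 * k + 1) (hk : ¬ (k = 1 ∧ Bad G x y z (U.erase u)))
    (hB : (F.card + 4) / 3 + k ≤ B) :
    RG G x y z (F ∪ U) (N1 V) B B B := by
  have hce : (U.erase u).card = U.card - 1 := Finset.card_erase_of_mem hu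
  have r2 := nonfull' h.hd k (h.hU.mono (Finset.erase_subset u U))
    (fun v hv => h.nf v (Finset.erase_subset _ _ hv)) (by omega) hk
  have r3 := (h.lad1 hu hT).union0 r2 (h.disj1 hu (Finset.erase_subset u U) (by simp))
  refine r3.cast ?_ (by omega) (by omega) (by omega)
  ext v
  simp only [Finset.mem_union, Finset.mem_singleton, Finset.mem_erase]
  constructor
  · rintro ((rfl | hv) | ⟨_, hv⟩)
    · exact Or.inr hu
    · exact Or.inl hv
    · exact Or.inr hv
  · rintro (hv | hv)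
    · exact Or.inl (Or.inr hv)
    · by_cases h' : v = u
      · exact Or.inl (Or.inl h')
      · exact Or.inr ⟨h', hv⟩

open Classical in
/-- `t ≡ 2 mod 3`, three vertices of the same type -/
theorem Big.rho1_three (h : Big G x y z F U) {k B : ℕ} (hns : ¬ AllSame G x y z U)
    (h3 : 3 ≤ (U.filter (isT G y z x)).card)
    (ht : F.card % 3 = 2) (hc : U.card ≤ 3 * k + 2) (hB : (F.card + 4) / 3 + k ≤ B) :
    RG G x y z (F ∪ U) (N1 V) B B B := by
  obtain ⟨D, hD, hDc⟩ := Finset.exists_subset_card_eq (s := U.filter (isT G y z x)) (n := 2)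
    (by omega)
  obtain ⟨u, v, huv, rfl⟩ := Finset.card_eq_two.1 hDc
  have hu := Finset.mem_filter.1 (hD (show u ∈ ({u, v} : Finset V) by simp))
  have hv := Finset.mem_filter.1 (hD (show v ∈ ({u, v} : Finset V) by simp))
  refine h.rho1_two hu.1 hv.1 huv hu.2.2.2 hv.2.2.2 ht hc ?_ hB
  rintro ⟨_, hbad⟩
  obtain ⟨w, hw, hwD⟩ : ∃ w ∈ U.filter (isT G y z x), w ∉ ({u, v} : Finset V) := by
    by_contra hcon
    push Not at hcon
    have := Finset.card_le_card (show U.filter (isT G y z x) ⊆ {u, v} from fun w hw => hcon w hw)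
    omega
  have hw' := Finset.mem_filter.1 hw
  have hall := hbad.rot.all (Finset.mem_sdiff.2 ⟨hw'.1, hwD⟩) hw'.2
  apply hns
  right; right
  intro a ha
  by_cases hauv : a ∈ ({u, v} : Finset V)
  · exact (Finset.mem_filter.1 (hD hauv)).2
  · exact hall a (Finset.mem_sdiff.2 ⟨ha, hauv⟩)

open Classical in
/-- pigeonhole -/
theorem exists_pair (h : ∀ u ∈ U, ¬ Full G x y z u) (hc : 4 ≤ U.card) :
    ∃ u ∈ U, ∃ v ∈ U, u ≠ v ∧ ((¬ G.Adj u x ∧ ¬ G.Adj v x) ∨ (¬ G.Adj u y ∧ ¬ G.Adj v y) ∨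
      (¬ G.Adj u z ∧ ¬ G.Adj v z)) := by
  have hsub : U ⊆ (U.filter fun u => ¬ G.Adj u x) ∪ ((U.filter fun u => ¬ G.Adj u y) ∪
      (U.filter fun u => ¬ G.Adj u z)) := by
    intro u hu
    have := h u hu
    unfold Full at this
    simp only [Finset.mem_union, Finset.mem_filter]
    tauto
  have h1 := Finset.card_le_card hsub
  have h2 := Finset.card_union_le (U.filter fun u => ¬ G.Adj u x)
    ((U.filter fun u => ¬ G.Adj u y) ∪ (U.filter fun u => ¬ G.Adj u z))
  have h3 := Finset.card_union_le (U.filter fun u => ¬ G.Adj u y) (U.filter fun u => ¬ G.Adj u z)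
  have h4 : 1 < (U.filter fun u => ¬ G.Adj u x).card ∨ 1 < (U.filter fun u => ¬ G.Adj u y).card ∨
      1 < (U.filter fun u => ¬ G.Adj u z).card := by omega
  rcases h4 with h4 | h4 | h4
  all_goals
    obtain ⟨u, hu, v, hv, huv⟩ := Finset.one_lt_card.1 h4
    rw [Finset.mem_filter] at hu hv
    refine ⟨u, hu.1, v, hv.1, huv, ?_⟩
    tauto

theorem Bad.of_rot {A : Finset V} (h : Bad G y z x A) : Bad G x y z A := h.rot.rot

theorem Big.k0 {u v : V} (h : Big G x y z F {u, v}) (huv : u ≠ v)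
    (h1 : ¬ (¬ G.Adj u x ∧ ¬ G.Adj v x)) (h2 : ¬ (¬ G.Adj u y ∧ ¬ G.Adj v y))
    (h3 : ¬ (¬ G.Adj u z ∧ ¬ G.Adj v z)) (ht : F.card % 3 = 2) {B : ℕ}
    (hB : (F.card + 4) / 3 ≤ B) : RG G x y z (F ∪ {u, v}) (N1 V) B B B := by
  have huU : u ∈ ({u, v} : Finset V) := by simp
  have hvU : v ∈ ({u, v} : Finset V) := by simp
  have hu := h.nf u huU
  have hv := h.nf v hvU
  have h' : Big G x y z F {v, u} := by rw [Finset.pair_comm]; exact h
  have e : ({v, u} : Finset V) = {u, v} := Finset.pair_comm _ _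
  have c1 : ¬ G.Adj u x → G.Adj v x := fun a => by_contra fun b => h1 ⟨a, b⟩
  have c2 : ¬ G.Adj u y → G.Adj v y := fun a => by_contra fun b => h2 ⟨a, b⟩
  have c3 : ¬ G.Adj u z → G.Adj v z := fun a => by_contra fun b => h3 ⟨a, b⟩
  by_cases a1 : G.Adj u x
  · by_cases a2 : G.Adj u y
    · have a3 : ¬ G.Adj u z := fun a3 => hu ⟨a1, a2, a3⟩
      have b3 := c3 a3
      by_cases b1 : G.Adj v x
      · have b2 : ¬ G.Adj v y := fun b2 => hv ⟨b1, b2, b3⟩
        exact (h.swap.rot.rot.rho1_att huv ⟨a2, a1, a3⟩ b2 ht hB).swap12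
      · exact h.rho1_att huv ⟨a1, a2, a3⟩ b1 ht hB
    · have b2 := c2 a2
      by_cases a3 : G.Adj u z
      · by_cases b1 : G.Adj v x
        · have b3 : ¬ G.Adj v z := fun b3 => hv ⟨b1, b2, b3⟩
          exact (h.rot.rot.rho1_att huv ⟨a3, a1, a2⟩ b3 ht hB).rot
        · exact (h.swap.rho1_att huv ⟨a1, a3, a2⟩ b1 ht hB).swap23
      · have b3 := c3 a3
        have b1 : ¬ G.Adj v x := fun b1 => hv ⟨b1, b2, b3⟩
        have := (h'.rot.rho1_att huv.symm ⟨b2, b3, b1⟩ a2 ht hB).rot.rot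
        rwa [e] at this
  · have b1 := c1 a1
    by_cases a2 : G.Adj u y
    · by_cases a3 : G.Adj u z
      · by_cases b2 : G.Adj v y
        · have b3 : ¬ G.Adj v z := fun b3 => hv ⟨b1, b2, b3⟩
          exact (h.swap.rot.rho1_att huv ⟨a3, a2, a1⟩ b3 ht hB).rot.swap12
        · exact (h.rot.rho1_att huv ⟨a2, a3, a1⟩ b2 ht hB).rot.rot
      · have b3 := c3 a3
        have b2 : ¬ G.Adj v y := fun b2 => hv ⟨b1, b2, b3⟩
        have := (h'.swap.rho1_att huv.symm ⟨b1, b3, b2⟩ a1 ht hB).swap23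
        rwa [e] at this
    · have b2 := c2 a2
      have b3 : ¬ G.Adj v z := fun b3 => hv ⟨b1, b2, b3⟩
      have := h'.rho1_att huv.symm ⟨b1, b2, b3⟩ a1 ht hB
      rwa [e] at this

open Classical in
/-- `t ≡ 2 mod 3`, `3k + 2` vertices -/
theorem Big.rho1_two' (h : Big G x y z F U) {k B : ℕ} (hns : ¬ AllSame G x y z U)
    (ht : F.card % 3 = 2) (hc : U.card = 3 * k + 2) (hB : (F.card + 4) / 3 + k ≤ B) :
    RG G x y z (F ∪ U) (N1 V) B B B := by
  rcases Nat.eq_zero_or_pos k with rfl | hk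
  · obtain ⟨u, v, huv, rfl⟩ := Finset.card_eq_two.1 hc
    have huU : u ∈ ({u, v} : Finset V) := by simp
    have hvU : v ∈ ({u, v} : Finset V) := by simp
    have hu := h.nf u huU
    have hv := h.nf v hvU
    by_cases h1 : ¬ G.Adj u x ∧ ¬ G.Adj v x
    · exact h.rho1_two huU hvU huv h1.1 h1.2 ht (by omega) (by omega) hB
    by_cases h2 : ¬ G.Adj u y ∧ ¬ G.Adj v y
    · exact (h.rot.rho1_two huU hvU huv h2.1 h2.2 ht (by omega) (by omega) hB).rot.rot
    by_cases h3 : ¬ G.Adj u z ∧ ¬ G.Adj v z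
    · exact (h.rot.rot.rho1_two huU hvU huv h3.1 h3.2 ht (by omega) (by omega) hB).rot
    exact h.k0 huv h1 h2 h3 ht (by omega)
  · by_cases c1 : 3 ≤ (U.filter (isT G y z x)).card
    · exact h.rho1_three hns c1 ht (by omega) hB
    by_cases c2 : 3 ≤ (U.filter (isT G z x y)).card
    · exact (h.rot.rho1_three (fun h' => hns h'.rot.rot) c2 ht (by omega) hB).rot.rot
    by_cases c3 : 3 ≤ (U.filter (isT G x y z)).card
    · exact (h.rot.rot.rho1_three (fun h' => hns h'.rot) c3 ht (by omega) hB).rot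
    have hnb : ∀ W : Finset V, W ⊆ U → ¬ Bad G x y z W := by
      intro W hW hb
      rcases hb.2 with hb' | hb' | hb'
      · apply c3
        rw [← hb.1]
        exact Finset.card_le_card fun w hw => Finset.mem_filter.2 ⟨hW hw, hb' w hw⟩
      · apply c2
        rw [← hb.1]
        exact Finset.card_le_card fun w hw => Finset.mem_filter.2 ⟨hW hw, isT_swap (hb' w hw)⟩
      · apply c1
        rw [← hb.1]
        exact Finset.card_le_card fun w hw => Finset.mem_filter.2 ⟨hW hw, hb' w hw⟩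
    obtain ⟨u, hu, v, hv, huv, huv'⟩ := exists_pair h.nf (by omega)
    rcases huv' with huv' | huv' | huv'
    · exact h.rho1_two hu hv huv huv'.1 huv'.2 ht (by omega)
        (fun hb => hnb _ Finset.sdiff_subset hb.2) hB
    · exact (h.rot.rho1_two hu hv huv huv'.1 huv'.2 ht (by omega)
        (fun hb => hnb _ Finset.sdiff_subset hb.2.of_rot) hB).rot.rot
    · exact (h.rot.rot.rho1_two hu hv huv huv'.1 huv'.2 ht (by omega)
        (fun hb => hnb _ Finset.sdiff_subset hb.2.of_rot.of_rot) hB).rot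

/-- at least two full vertices -/
theorem Big.main (h : Big G x y z F U) {B : ℕ} (hB : F.card + U.card + 2 ≤ 3 * B) :
    RG G x y z (F ∪ U) (N1 V) B B B := by
  have h2 := h.two
  obtain ⟨k, hk⟩ : ∃ k, (F.card + 4) / 3 + k = B := ⟨B - (F.card + 4) / 3, by omega⟩
  by_cases hs : U.card ≤ 3 * k ∧ ¬ (k = 1 ∧ Bad G x y z U)
  · exact h.simple hs.1 hs.2 hk.le
  have hsel : ¬ (k = 1 ∧ AllSame G x y z U) → U.Nonempty →
      ∃ u ∈ U, ¬ (k = 1 ∧ Bad G x y z (U.erase u)) := by
    intro h1 h2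
    by_contra hcon
    push Not at hcon
    obtain ⟨u, hu⟩ := id h2
    exact h1 ⟨(hcon u hu).1, allSame_of_erase h2 fun v hv => (hcon v hv).2⟩
  have ht : F.card % 3 = 0 ∨ F.card % 3 = 1 ∨ F.card % 3 = 2 := by omega
  rcases ht with ht | ht | ht
  · -- t ≡ 0
    by_cases hsame : k = 1 ∧ AllSame G x y z U
    · obtain ⟨rfl, h' | h' | h'⟩ := hsame
      · exact (h.rot.rho2_same h' ht (by omega) (by omega)).rot.rot
      · exact h.rho2_same (fun u hu => isT_swap (h' u hu)) ht (by omega) (by omega)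
      · exact (h.rot.rot.rho2_same h' ht (by omega) (by omega)).rot
    · have hUc : U.card = 3 * k + 1 := by
        by_contra hne
        apply hs
        exact ⟨by omega, fun hb => hsame ⟨hb.1, hb.2.allSame⟩⟩
      obtain ⟨u, hu, hu2⟩ := hsel hsame (Finset.card_pos.1 (by omega))
      have hnf := h.nf u hu
      unfold Full at hnf
      by_cases a1 : G.Adj u x <;> by_cases a2 : G.Adj u y <;> by_cases a3 : G.Adj u z
      · exact absurd ⟨a1, a2, a3⟩ hnf
      · exact h.rho2_att hu ⟨a1, a2, a3⟩ (by omega) hu2 hk.le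
      · exact (h.swap.rho2_att hu ⟨a1, a3, a2⟩ (by omega) (fun hb => hu2 ⟨hb.1, hb.2.swap⟩)
          hk.le).swap23
      · exact (h.rot.rho2_one hu a2 a3 ht (by omega) (fun hb => hu2 ⟨hb.1, hb.2.of_rot⟩)
          hk.le).rot.rot
      · exact (h.rot.rho2_att hu ⟨a2, a3, a1⟩ (by omega) (fun hb => hu2 ⟨hb.1, hb.2.of_rot⟩)
          hk.le).rot.rot
      · exact (h.rot.rot.rho2_one hu a3 a1 ht (by omega)
          (fun hb => hu2 ⟨hb.1, hb.2.of_rot.of_rot⟩) hk.le).rot
      · exact h.rho2_one hu a1 a2 ht (by omega) hu2 hk.le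
      · exact h.rho2_one hu a1 a2 ht (by omega) hu2 hk.le
  · -- t ≡ 1
    have hb : k = 1 ∧ Bad G x y z U := by
      by_contra hcon
      exact hs ⟨by omega, hcon⟩
    obtain ⟨rfl, hb⟩ := hb
    rcases hb.2 with h' | h' | h'
    · exact h.rho0 hb.1 h' hB
    · exact (h.swap.rho0 hb.1 h' hB).swap23
    · exact (h.rot.rho0 hb.1 h' hB).rot.rot
  · -- t ≡ 2
    by_cases hsame : AllSame G x y z U
    · rcases hsame with h' | h' | h'
      · exact (h.rot.rot.rho1_same h' ht (by omega) hk.le).rot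
      · exact (h.rot.rho1_same (fun u hu => isT_swap (h' u hu)) ht (by omega) hk.le).rot.rot
      · exact h.rho1_same h' ht (by omega) hk.le
    · have hUc : U.card = 3 * k + 1 ∨ U.card = 3 * k + 2 := by
        by_contra hne
        apply hs
        exact ⟨by omega, fun hb => hsame hb.2.allSame⟩
      rcases hUc with hUc | hUc
      · obtain ⟨u, hu, hu2⟩ := hsel (fun h' => hsame h'.2) (Finset.card_pos.1 (by omega))
        have hnf := h.nf u hu
        by_cases a1 : G.Adj u x
        · by_cases a2 : G.Adj u y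
          · have a3 : ¬ G.Adj u z := fun h' => hnf ⟨a1, a2, h'⟩
            exact (h.rot.rot.rho1_one hu a3 ht (by omega)
              (fun hb => hu2 ⟨hb.1, hb.2.of_rot.of_rot⟩) hk.le).rot
          · exact (h.rot.rho1_one hu a2 ht (by omega) (fun hb => hu2 ⟨hb.1, hb.2.of_rot⟩)
              hk.le).rot.rot
        · exact h.rho1_one hu a1 ht (by omega) hu2 hk.le
      · exact h.rho1_two' hsame ht hUc hk.le

end Big

open Classical in
/-- the main step -/
theorem step (hd : Fr x y z) {R : Finset V} (hR : Out x y z R) (h2 : 2 ≤ R.card) {B : ℕ}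
    (hB : R.card + 2 ≤ 3 * B)
    (htri : ¬ (G.Adj x y ∧ G.Adj y z ∧ G.Adj x z) ∨ 2 ≤ (R.filter (Full G x y z)).card) :
    RG G x y z R (N1 V) B B B := by
  set F := R.filter (Full G x y z) with hFdef
  set U := R.filter (fun u => ¬ Full G x y z u) with hUdef
  have hFU : F ∪ U = R := Finset.filter_union_filter_not_eq _ _
  have hdis : Disjoint F U := Finset.disjoint_filter_filter_not _ _ _
  have hc : F.card + U.card = R.card := by rw [← Finset.card_union_of_disjoint hdis, hFU]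
  have hFo : Out x y z F := hR.mono (Finset.filter_subset _ _)
  have hUo : Out x y z U := hR.mono (Finset.filter_subset _ _)
  have hFf : ∀ f ∈ F, Full G x y z f := fun f hf => (Finset.mem_filter.1 hf).2
  have hUf : ∀ f ∈ U, ¬ Full G x y z f := fun f hf => (Finset.mem_filter.1 hf).2
  have h0 : F.card = 0 ∨ F.card = 1 ∨ 2 ≤ F.card := by omega
  rcases h0 with h0 | h0 | h0
  · have hF : F = ∅ := Finset.card_eq_zero.1 h0
    rw [hF, Finset.empty_union] at hFU
    rw [← hFU]
    exact step0 hd hUo hUf (by omega) (by omega)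
  · obtain ⟨f, hf⟩ := Finset.card_eq_one.1 h0
    have hfF : f ∈ F := by rw [hf]; simp
    have htri' : ¬ (G.Adj x y ∧ G.Adj y z ∧ G.Adj x z) := by
      rcases htri with h | h
      · exact h
      · omega
    rw [← hFU, hf]
    exact step1 hd (hFo f hfF) (hFf f hfF) htri' hUo hUf (by omega) (by omega)
  · rw [← hFU]
    exact (Big.mk hd hFo hUo hFf hUf h0).main (by omega)

end Pool.Agent.UBV
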