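import Pool.Agent.UBV.Calc

set_option autoImplicit false

namespace Pool.Agent.UBV

/-- lookup in a table -/
def look (T : List (ℕ × List (ℕ × ℤ))) (n : ℕ) : List (ℕ × ℤ) :=
  ((T.find? fun e => e.1 == n).map Prod.snd).getD []

/-- one bar is used for the main vertex `i` if it occurs in some type -/
def kk (m : ℕ) (i : ℕ) : ℕ := if tb m i then 1 else 0

/-- drawings for one vertex of type `a` -/
def T1 : List (ℕ × List (ℕ × ℤ)) := [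
  (0, []),
  (1, [(3, 0), (0, 3)]),
  (2, [(3, 0), (1, 3)]),
  (3, [(1, 0), (3, 3), (0, 6)]),
  (4, [(3, 0), (2, 3)]),
  (5, [(2, 0), (3, 3), (0, 6)]),
  (6, [(2, 0), (3, 3), (1, 6)])]

/-- drawings for two vertices of types `a`, `b` -/
def T2 : List (ℕ × List (ℕ × ℤ)) := [
  (0, []),
  (8, [(4, 0), (0, 3)]),
  (16, [(4, 0), (1, 3)]),
  (24, [(1, 0), (4, 3), (0, 6)]),
  (32, [(4, 0), (2, 3)]),
  (40, [(2, 0), (4, 3), (0, 6)]),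
  (48, [(2, 0), (4, 3), (1, 6)]),
  (9, [(4, 4), (3, 0), (0, 3)]),
  (17, [(4, 8), (1, 11), (3, 0), (0, 3)]),
  (25, [(1, 4), (4, 4), (3, 0), (0, 3)]),
  (33, [(4, 8), (2, 11), (3, 0), (0, 3)]),
  (41, [(2, 4), (4, 4), (3, 0), (0, 3)]),
  (49, [(2, 8), (4, 11), (1, 14), (3, 0), (0, 3)]),
  (18, [(4, 4), (3, 0), (1, 3)]),
  (26, [(3, 0), (1, 3), (4, 6), (0, 9)]),
  (34, [(4, 8), (2, 11), (3, 0), (1, 3)]),
  (42, [(3, 11), (1, 14), (2, 0), (4, 3), (0, 6)]),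
  (50, [(2, 4), (4, 4), (3, 0), (1, 3)]),
  (27, [(4, 1), (1, 0), (3, 0), (0, 3)]),
  (35, [(4, 11), (2, 14), (1, 0), (3, 3), (0, 6)]),
  (43, [(2, 7), (4, 7), (1, 0), (3, 3), (0, 6)]),
  (51, [(2, 0), (4, 3), (1, 6), (3, 9), (0, 12)]),
  (36, [(4, 4), (3, 0), (2, 3)]),
  (44, [(3, 0), (2, 3), (4, 6), (0, 9)]),
  (52, [(3, 0), (2, 3), (4, 6), (1, 9)]),
  (45, [(4, 1), (2, 0), (3, 0), (0, 3)]),
  (53, [(1, 0), (4, 3), (2, 6), (3, 9), (0, 12)]),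
  (54, [(4, 1), (2, 0), (3, 0), (1, 3)])]

/-- drawings for three vertices of types `a`, `b`, `c` -/
def T3 : List (ℕ × List (ℕ × ℤ)) := [
  (0, []),
  (64, [(5, 0), (0, 3)]),
  (128, [(5, 0), (1, 3)]),
  (192, [(1, 0), (5, 3), (0, 6)]),
  (256, [(5, 0), (2, 3)]),
  (320, [(2, 0), (5, 3), (0, 6)]),
  (384, [(2, 0), (5, 3), (1, 6)]),
  (72, [(5, 4), (4, 0), (0, 3)]),
  (136, [(5, 8), (1, 11), (4, 0), (0, 3)]),
  (200, [(1, 4), (5, 4), (4, 0), (0, 3)]),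
  (264, [(5, 8), (2, 11), (4, 0), (0, 3)]),
  (328, [(2, 4), (5, 4), (4, 0), (0, 3)]),
  (392, [(2, 8), (5, 11), (1, 14), (4, 0), (0, 3)]),
  (144, [(5, 4), (4, 0), (1, 3)]),
  (208, [(4, 0), (1, 3), (5, 6), (0, 9)]),
  (272, [(5, 8), (2, 11), (4, 0), (1, 3)]),
  (336, [(4, 11), (1, 14), (2, 0), (5, 3), (0, 6)]),
  (400, [(2, 4), (5, 4), (4, 0), (1, 3)]),
  (216, [(5, 1), (1, 0), (4, 0), (0, 3)]),
  (280, [(5, 11), (2, 14), (1, 0), (4, 3), (0, 6)]),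
  (344, [(2, 7), (5, 7), (1, 0), (4, 3), (0, 6)]),
  (408, [(2, 0), (5, 3), (1, 6), (4, 9), (0, 12)]),
  (288, [(5, 4), (4, 0), (2, 3)]),
  (352, [(4, 0), (2, 3), (5, 6), (0, 9)]),
  (416, [(4, 0), (2, 3), (5, 6), (1, 9)]),
  (360, [(5, 1), (2, 0), (4, 0), (0, 3)]),
  (424, [(1, 0), (5, 3), (2, 6), (4, 9), (0, 12)]),
  (432, [(5, 1), (2, 0), (4, 0), (1, 3)]),
  (73, [(5, 4), (4, 0), (0, 3), (3, 3)]),
  (137, [(5, 9), (1, 12), (4, 4), (3, 0), (0, 3)]),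
  (201, [(4, 4), (3, 0), (0, 3), (5, 3), (1, 3)]),
  (265, [(5, 9), (2, 12), (4, 4), (3, 0), (0, 3)]),
  (329, [(4, 4), (3, 0), (0, 3), (5, 3), (2, 3)]),
  (393, [(2, 9), (5, 12), (1, 15), (4, 4), (3, 0), (0, 3)]),
  (145, [(5, 12), (4, 8), (1, 11), (3, 0), (0, 3)]),
  (209, [(4, 4), (1, 4), (5, 4), (3, 0), (0, 3)]),
  (273, [(5, 16), (2, 19), (4, 8), (1, 11), (3, 0), (0, 3)]),
  (337, [(4, 9), (1, 12), (2, 4), (5, 4), (3, 0), (0, 3)]),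
  (401, [(2, 12), (5, 12), (4, 8), (1, 11), (3, 0), (0, 3)]),
  (217, [(5, 4), (1, 5), (4, 5), (3, 0), (0, 3)]),
  (281, [(5, 9), (2, 12), (1, 4), (4, 4), (3, 0), (0, 3)]),
  (345, [(2, 4), (5, 4), (3, 0), (0, 3), (4, 3), (1, 3)]),
  (409, [(2, 4), (5, 4), (1, 4), (4, 4), (3, 0), (0, 3)]),
  (289, [(5, 12), (4, 8), (2, 11), (3, 0), (0, 3)]),
  (353, [(4, 4), (2, 4), (5, 4), (3, 0), (0, 3)]),
  (417, [(4, 8), (2, 11), (5, 14), (1, 17), (3, 0), (0, 3)]),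
  (361, [(5, 4), (2, 5), (4, 5), (3, 0), (0, 3)]),
  (425, [(1, 4), (5, 4), (2, 4), (4, 4), (3, 0), (0, 3)]),
  (433, [(5, 9), (2, 8), (4, 8), (1, 11), (3, 0), (0, 3)]),
  (146, [(5, 4), (4, 0), (1, 3), (3, 3)]),
  (210, [(4, 4), (3, 0), (1, 3), (5, 3), (0, 3)]),
  (274, [(5, 9), (2, 12), (4, 4), (3, 0), (1, 3)]),
  (338, [(4, 15), (3, 11), (1, 14), (2, 0), (5, 3), (0, 6)]),
  (402, [(4, 4), (3, 0), (1, 3), (5, 3), (2, 3)]),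
  (218, [(3, 0), (5, 4), (1, 3), (4, 3), (0, 6)]),
  (282, [(5, 14), (2, 17), (3, 0), (1, 3), (4, 6), (0, 9)]),
  (346, [(2, 10), (5, 10), (3, 0), (1, 3), (4, 6), (0, 9)]),
  (410, [(2, 4), (5, 4), (3, 0), (1, 3), (4, 3), (0, 3)]),
  (290, [(5, 12), (4, 8), (2, 11), (3, 0), (1, 3)]),
  (354, [(3, 14), (1, 17), (4, 0), (2, 3), (5, 6), (0, 9)]),
  (418, [(4, 4), (2, 4), (5, 4), (3, 0), (1, 3)]),
  (362, [(3, 8), (1, 11), (5, 1), (2, 0), (4, 0), (0, 3)]),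
  (426, [(3, 0), (1, 3), (5, 6), (2, 9), (4, 12), (0, 15)]),
  (434, [(5, 4), (2, 5), (4, 5), (3, 0), (1, 3)]),
  (283, [(5, 8), (2, 11), (4, 1), (1, 0), (3, 0), (0, 3)]),
  (347, [(2, 5), (5, 5), (4, 1), (1, 0), (3, 0), (0, 3)]),
  (411, [(2, 0), (5, 3), (4, 7), (1, 6), (3, 6), (0, 9)]),
  (291, [(5, 15), (4, 11), (2, 14), (1, 0), (3, 3), (0, 6)]),
  (355, [(4, 7), (2, 7), (5, 7), (1, 0), (3, 3), (0, 6)]),
  (419, [(4, 0), (2, 3), (5, 6), (1, 9), (3, 12), (0, 15)]),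
  (363, [(5, 7), (2, 8), (4, 8), (1, 0), (3, 3), (0, 6)]),
  (427, [(5, 1), (2, 4), (4, 4), (1, 0), (3, 0), (0, 3)]),
  (435, [(5, 1), (2, 0), (4, 0), (1, 3), (3, 6), (0, 9)]),
  (292, [(5, 4), (4, 0), (2, 3), (3, 3)]),
  (356, [(4, 4), (3, 0), (2, 3), (5, 3), (0, 3)]),
  (420, [(4, 4), (3, 0), (2, 3), (5, 3), (1, 3)]),
  (364, [(3, 0), (5, 4), (2, 3), (4, 3), (0, 6)]),
  (428, [(1, 4), (5, 4), (3, 0), (2, 3), (4, 3), (0, 3)]),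
  (436, [(3, 0), (5, 4), (2, 3), (4, 3), (1, 6)]),
  (429, [(1, 0), (5, 3), (4, 7), (2, 6), (3, 6), (0, 9)]),
  (437, [(5, 1), (1, 0), (4, 0), (2, 3), (3, 6), (0, 9)])]

/-- drawings for graphs with four vertices -/
def D4 : List (ℕ × List (ℕ × ℤ)) := [
  (0, []),
  (1, [(3, 0), (0, 3)]),
  (2, [(3, 0), (1, 3)]),
  (3, [(1, 0), (3, 3), (0, 6)]),
  (4, [(3, 0), (2, 3)]),
  (5, [(2, 0), (3, 3), (0, 6)]),
  (6, [(2, 0), (3, 3), (1, 6)]),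
  (7, [(2, 4), (1, 0), (3, 3), (0, 3)]),
  (8, [(1, 0), (0, 3)]),
  (9, [(3, 4), (1, 0), (0, 3)]),
  (10, [(3, 0), (1, 3), (0, 6)]),
  (11, [(3, 1), (1, 0), (0, 3)]),
  (12, [(3, 8), (2, 11), (1, 0), (0, 3)]),
  (13, [(2, 4), (3, 4), (1, 0), (0, 3)]),
  (14, [(2, 0), (3, 3), (1, 6), (0, 9)]),
  (15, [(2, 1), (3, 1), (1, 0), (0, 3)]),
  (16, [(2, 0), (1, 3)]),
  (17, [(2, 8), (1, 11), (3, 0), (0, 3)]),
  (18, [(3, 4), (2, 0), (1, 3)]),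
  (19, [(2, 0), (1, 3), (3, 6), (0, 9)]),
  (20, [(3, 0), (2, 3), (1, 6)]),
  (21, [(1, 0), (2, 3), (3, 6), (0, 9)]),
  (22, [(3, 1), (2, 0), (1, 3)]),
  (23, [(2, 1), (1, 0), (3, 3), (0, 6)]),
  (24, [(2, 0), (1, 3), (0, 6)]),
  (25, [(3, 7), (2, 0), (1, 3), (0, 6)]),
  (26, [(3, 4), (2, 0), (1, 3), (0, 3)]),
  (27, [(2, 0), (3, 4), (1, 3), (0, 6)]),
  (28, [(3, 0), (2, 3), (1, 6), (0, 9)]),
  (29, [(3, 1), (2, 0), (1, 0), (0, 3)]),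
  (30, [(3, 1), (2, 0), (1, 3), (0, 6)]),
  (31, [(2, 0), (3, 3), (1, 2), (0, 5)]),
  (32, [(2, 0), (0, 3)]),
  (33, [(3, 4), (2, 0), (0, 3)]),
  (34, [(3, 8), (1, 11), (2, 0), (0, 3)]),
  (35, [(1, 4), (3, 4), (2, 0), (0, 3)]),
  (36, [(3, 0), (2, 3), (0, 6)]),
  (37, [(3, 1), (2, 0), (0, 3)]),
  (38, [(1, 0), (3, 3), (2, 6), (0, 9)]),
  (39, [(1, 1), (3, 1), (2, 0), (0, 3)]),
  (40, [(2, 4), (1, 0), (0, 3)]),
  (41, [(3, 4), (2, 0), (0, 3), (1, 3)]),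
  (42, [(3, 0), (2, 7), (1, 3), (0, 6)]),
  (43, [(2, 5), (3, 1), (1, 0), (0, 3)]),
  (44, [(3, 4), (2, 4), (1, 0), (0, 3)]),
  (45, [(3, 4), (2, 5), (1, 0), (0, 3)]),
  (46, [(3, 1), (2, 4), (1, 0), (0, 3)]),
  (47, [(2, 2), (3, 1), (1, 0), (0, 3)]),
  (48, [(1, 0), (2, 3), (0, 6)]),
  (49, [(3, 7), (1, 0), (2, 3), (0, 6)]),
  (50, [(3, 0), (1, 3), (2, 6), (0, 9)]),
  (51, [(3, 1), (1, 0), (2, 0), (0, 3)]),
  (52, [(3, 4), (1, 0), (2, 3), (0, 3)]),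
  (53, [(1, 0), (3, 4), (2, 3), (0, 6)]),
  (54, [(3, 1), (1, 0), (2, 3), (0, 6)]),
  (55, [(1, 0), (3, 3), (2, 2), (0, 5)]),
  (56, [(2, 1), (1, 0), (0, 3)]),
  (57, [(3, 5), (2, 1), (1, 0), (0, 3)]),
  (58, [(3, 0), (2, 4), (1, 3), (0, 6)]),
  (59, [(3, 2), (1, 1), (2, 0), (0, 3)]),
  (60, [(3, 1), (2, 1), (1, 0), (0, 3)]),
  (61, [(3, 2), (2, 1), (1, 0), (0, 3)]),
  (62, [(3, 0), (2, 3), (1, 2), (0, 5)])]

/-- two vertices adjacent to the labels `0`, `1`, with some edges inside -/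
def GA : List (ℕ × List (ℕ × ℤ)) := [
  (0, [(4, 1), (1, 0), (3, 0), (0, 3)]),
  (1, [(4, 2), (1, 1), (3, 0), (0, 3)]),
  (4, [(4, 4), (1, 5), (3, 5), (2, 0), (0, 3)]),
  (5, [(4, 4), (1, 5), (3, 6), (2, 0), (0, 3)])]

/-- `q` vertices adjacent to the labels `0`, `1` -/
def MM : List (ℕ × List (ℕ × ℤ)) := [
  (1, [(1, 4), (0, 0), (3, 2)]),
  (2, [(4, 2), (1, 4), (0, 0), (3, 2)]),
  (3, [(5, 2), (0, 8), (1, 4), (0, 0), (4, 6), (3, 2)]),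
  (4, [(6, 6), (5, 2), (0, 8), (1, 4), (0, 0), (4, 6), (3, 2)]),
  (5, [(7, 6), (6, 2), (1, 12), (0, 8), (1, 4), (0, 0), (5, 10), (4, 6), (3, 2)]),
  (6, [(8, 10), (7, 6), (6, 2), (1, 12), (0, 8), (1, 4), (0, 0), (5, 10), (4, 6), (3, 2)]),
  (7, [(9, 10), (8, 6), (7, 2), (0, 16), (1, 12), (0, 8), (1, 4), (0, 0), (6, 14), (5, 10), (4, 6), (3, 2)]),
  (8, [(10, 14), (9, 10), (8, 6), (7, 2), (0, 16), (1, 12), (0, 8), (1, 4), (0, 0), (6, 14), (5, 10), (4, 6), (3, 2)]),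
  (9, [(11, 14), (10, 10), (9, 6), (8, 2), (1, 20), (0, 16), (1, 12), (0, 8), (1, 4), (0, 0), (7, 18), (6, 14), (5, 10), (4, 6), (3, 2)])]

/-- five vertices adjacent to the labels `0`, `1` and a vertex of type `a` -/
def S51 : List (ℕ × List (ℕ × ℤ)) := [
  (0, [(7, 6), (6, 2), (1, 12), (0, 8), (1, 4), (0, 0), (5, 10), (4, 6), (3, 2)]),
  (1, [(8, -3), (7, 6), (6, 2), (1, 12), (0, 8), (1, 4), (0, 0), (5, 10), (4, 6), (3, 2)]),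
  (2, [(8, 15), (7, 6), (6, 2), (1, 12), (0, 8), (1, 4), (0, 0), (5, 10), (4, 6), (3, 2)]),
  (4, [(8, 100), (2, 100), (7, 6), (6, 2), (1, 12), (0, 8), (1, 4), (0, 0), (5, 10), (4, 6), (3, 2)]),
  (5, [(2, -3), (8, -3), (7, 6), (6, 2), (1, 12), (0, 8), (1, 4), (0, 0), (5, 10), (4, 6), (3, 2)]),
  (6, [(2, 15), (8, 15), (7, 6), (6, 2), (1, 12), (0, 8), (1, 4), (0, 0), (5, 10), (4, 6), (3, 2)])]
/-- one bar is used for the main vertex `i` if it occurs in some type -/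
def kk2 (a b : ℕ) (i : ℕ) : ℕ := if tb a i || tb b i then 1 else 0

theorem c1 : ∀ a < 7, check (look T1 a) 1 (fun _ => a) 0 (kk a 0) (kk a 1) (kk a 2) = true := by
  decide +kernel

theorem c2 : ∀ a < 7, ∀ b < 7, a ≤ b → check (look T2 (a + 8 * b)) 2
    (fun j => if j = 0 then a else b) 0 (kk2 a b 0) (kk2 a b 1) (kk2 a b 2) = true := by
  decide +kernel

/-- three equal types with two elements are not allowed -/
def badB (a b c : ℕ) : Bool := a == b && b == c && (a == 3 || a == 5 || a == 6)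

theorem c3aux : ((List.range 7).all fun a => (List.range 7).all fun b => (List.range 7).all fun c =>
    !(decide (a ≤ b)) || !(decide (b ≤ c)) || badB a b c || check (look T3 (a + 8 * b + 64 * c)) 3
    (fun j => if j = 0 then a else if j = 1 then b else c) 0 1 1 1) = true := by
  decide +kernel

theorem c3 (a b c : ℕ) (ha : a < 7) (hb : b < 7) (hc : c < 7) (hab : a ≤ b) (hbc : b ≤ c)
    (hbad : badB a b c = false) : check (look T3 (a + 8 * b + 64 * c)) 3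
    (fun j => if j = 0 then a else if j = 1 then b else c) 0 1 1 1 = true := by
  have h := c3aux
  rw [List.all_eq_true] at h
  have h := h a (List.mem_range.2 ha)
  rw [List.all_eq_true] at h
  have h := h b (List.mem_range.2 hb)
  rw [List.all_eq_true] at h
  have h := h c (List.mem_range.2 hc)
  simpa [hab, hbc, hbad] using h

theorem cD : ∀ te < 8, ∀ a < 8, ¬ (te = 7 ∧ a = 7) →
    check (look D4 (a + 8 * te)) 1 (fun _ => a) te 1 1 1 = true := by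
  decide +kernel

theorem cD0 : ∀ te < 8, check (look D4 (8 * te)) 0 (fun _ => 0) te 1 1 1 = true := by
  decide +kernel

theorem cD1 : check (look D4 (8 * 1)) 0 (fun _ => 0) 1 1 1 0 = true := by
  decide +kernel

theorem cG : ∀ te < 6, tb te 1 = false → check (look GA te) 2 (fun _ => 3) te 1 1 1 = true := by
  decide +kernel

theorem cM2 : ∀ q < 5, 3 ≤ q → check (look MM q) q (fun _ => 3) 0 2 1 0 = true := by
  decide +kernel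

theorem cM6 : ∀ q < 7, 3 ≤ q → check (look MM q) q (fun _ => 3) 0 2 2 0 = true := by
  decide +kernel

theorem cM9 : ∀ q < 10, 7 ≤ q → check (look MM q) q (fun _ => 3) 0 3 3 0 = true := by
  decide +kernel

theorem cS : ∀ o < 7, o ≠ 3 →
    check (look S51 o) 6 (fun j => if j = 5 then o else 3) 0 2 2 1 = true := by
  decide +kernel

end Pool.Agent.UBV
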