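import Pool.Agent.UBV.Machine

set_option autoImplicit false

namespace Pool.Agent.UBV

variable {V : Type*}

/-- the relation `{a, b} = {p, q}` -/
def Pr (p q a b : V) : Prop := (a = p ∧ b = q) ∨ (a = q ∧ b = p)

theorem exists_four (p : ℤ) (P : ℤ → Prop) :
    (∃ k, p ≤ k ∧ k < p + 4 ∧ P k) ↔ (P p ∨ P (p + 1) ∨ P (p + 2) ∨ P (p + 3)) := by
  constructor
  · rintro ⟨k, h1, h2, h3⟩
    have : k = p ∨ k = p + 1 ∨ k = p + 2 ∨ k = p + 3 := by omega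
    rcases this with rfl | rfl | rfl | rfl <;> tauto
  · rintro (h | h | h | h)
    · exact ⟨p, by omega, by omega, h⟩
    · exact ⟨p + 1, by omega, by omega, h⟩
    · exact ⟨p + 2, by omega, by omega, h⟩
    · exact ⟨p + 3, by omega, by omega, h⟩

theorem logic1 (P Q : Prop) (ρ ν α γ a b : V) :
    ((P ∨ Q) ∨ (Pr ρ α a b ∨ Pr ρ γ a b ∨ Pr ρ ν a b)) ↔
      (((P ∨ (ρ = a ∧ (b = α ∨ b = γ))) ∨ (ν = a ∧ b = ρ)) ∨
        ((Q ∨ (ρ = b ∧ (a = α ∨ a = γ))) ∨ (ν = b ∧ a = ρ))) := by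
  simp only [Pr, eq_comm (a := ρ), eq_comm (a := ν)]
  constructor
  · rintro ((h | h) | (h | h) | (h | h) | (h | h)) <;> simp [h]
  · rintro (((h | ⟨h, h' | h'⟩) | h) | ((h | ⟨h, h' | h'⟩) | h)) <;> simp [h, *]

theorem logic2 (P Q : Prop) (ρ ν α γ a b : V) :
    ((P ∨ Q) ∨ ((Pr ρ α a b ∨ Pr ρ γ a b ∨ Pr ρ ν a b) ∨ Pr ν γ a b)) ↔
      (((P ∨ (ρ = a ∧ (b = α ∨ b = γ))) ∨ (ν = a ∧ (b = ρ ∨ b = γ))) ∨
        ((Q ∨ (ρ = b ∧ (a = α ∨ a = γ))) ∨ (ν = b ∧ (a = ρ ∨ a = γ)))) := by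
  simp only [Pr, eq_comm (a := ρ), eq_comm (a := ν)]
  constructor
  · rintro ((h | h) | ((h | h) | (h | h) | (h | h)) | (h | h)) <;> simp [h]
  · rintro (((h | ⟨h, h' | h'⟩) | ⟨h, h' | h'⟩) | ((h | ⟨h, h' | h'⟩) | ⟨h, h' | h'⟩)) <;>
      simp [h, *]

open Classical in
/-- indicator of a point -/
noncomputable def ind (p v : V) : ℕ := if p = v then 1 else 0

/-- an unfinished tower -/
def TS (E : V → V → Prop) (β : V → ℕ) (δ : ℤ) (α γ : V) : Prop :=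
  ∃ l : List (V × ℤ), (∀ v, cnt l v ≤ β v) ∧
    (∀ a b, a ≠ b → (E a b ↔ (On l a b ∨ On l b a))) ∧
    (∀ k, 0 ≤ k → k < δ → sky l k = some α) ∧ (∀ k, δ ≤ k → k < δ + 4 → sky l k = some γ)

theorem TS.rep {E : V → V → Prop} {β : V → ℕ} {δ : ℤ} {α γ : V} (h : TS E β δ α γ) : Rep E β := by
  obtain ⟨l, h1, h2, _⟩ := h
  exact ⟨l, h1, h2⟩

theorem TS.congr {E E' : V → V → Prop} {β β' : V → ℕ} {δ : ℤ} {α γ : V} (h : TS E β δ α γ)
    (hE : ∀ a b, a ≠ b → (E a b ↔ E' a b)) (hβ : ∀ v, β v ≤ β' v) : TS E' β' δ α γ := by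
  obtain ⟨l, h1, h2, h3⟩ := h
  exact ⟨l, fun v => (h1 v).trans (hβ v), fun a b hab => (hE a b hab).symm.trans (h2 a b hab), h3⟩

/-- one step of the tower: a vertex `ρ` which sees `α`, `γ` and a new bar `ν` -/
theorem TS.step {E : V → V → Prop} {β : V → ℕ} {δ : ℤ} {α γ : V} (h : TS E β δ α γ) (h1 : 1 ≤ δ)
    (h3 : δ ≤ 3) (ρ ν : V) :
    TS (fun a b => E a b ∨ (Pr ρ α a b ∨ Pr ρ γ a b ∨ Pr ρ ν a b))
      (fun v => β v + (ind ρ v + ind ν v)) δ γ ν := by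
  obtain ⟨l, hc, hE, hs1, hs2⟩ := h
  have s : ∀ k, 0 ≤ k → k < 4 → sky ((ρ, 0) :: l) k = some ρ := by
    intro k hk1 hk2
    simp only [sky]; rw [if_pos (by omega)]
  have s' : ∀ k, 4 ≤ k → k < δ + 4 → sky ((ρ, 0) :: l) k = some γ := by
    intro k hk1 hk2
    simp only [sky]; rw [if_neg (by omega)]
    exact hs2 k (by omega) hk2
  have o1 : ∀ y, (∃ k : ℤ, 0 ≤ k ∧ k < 0 + 4 ∧ sky l k = some y) ↔ (y = α ∨ y = γ) := by
    intro y
    constructor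
    · rintro ⟨k, hk1, hk2, hk⟩
      rcases lt_or_ge k δ with h | h
      · rw [hs1 k hk1 h] at hk
        left; exact (Option.some.inj hk).symm
      · rw [hs2 k h (by omega)] at hk
        right; exact (Option.some.inj hk).symm
    · rintro (rfl | rfl)
      · exact ⟨0, le_refl _, by omega, hs1 0 (le_refl _) (by omega)⟩
      · exact ⟨3, by omega, by omega, hs2 3 h3 (by omega)⟩
  have o2 : ∀ y, (∃ k : ℤ, 0 ≤ k ∧ k < 0 + 4 ∧ sky ((ρ, 0) :: l) k = some y) ↔ y = ρ := by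
    intro y
    constructor
    · rintro ⟨k, hk1, hk2, hk⟩
      rw [s k hk1 (by omega)] at hk
      exact (Option.some.inj hk).symm
    · rintro rfl
      exact ⟨0, le_refl _, by omega, s 0 (le_refl _) (by omega)⟩
  refine ⟨mir (δ + 3) ((ν, 0) :: (ρ, 0) :: l), ?_, ?_, ?_, ?_⟩
  · intro v
    rw [cnt_mir]
    have := hc v
    simp only [cnt, ind]
    omega
  · intro a b hab
    rw [on_mir, on_mir]
    have e : ∀ x y, On ((ν, 0) :: (ρ, 0) :: l) x y ↔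
        ((On l x y ∨ (ρ = x ∧ (y = α ∨ y = γ))) ∨ (ν = x ∧ y = ρ)) := by
      intro x y
      show ((On l x y ∨ (ρ = x ∧ ∃ k : ℤ, 0 ≤ k ∧ k < 0 + 4 ∧ sky l k = some y)) ∨
        (ν = x ∧ ∃ k : ℤ, 0 ≤ k ∧ k < 0 + 4 ∧ sky ((ρ, 0) :: l) k = some y)) ↔ _
      rw [o1, o2]
    rw [e, e]
    show (E a b ∨ (Pr ρ α a b ∨ Pr ρ γ a b ∨ Pr ρ ν a b)) ↔ _
    rw [hE a b hab]
    exact logic1 _ _ ρ ν α γ a b
  · intro k hk1 hk2
    rw [sky_mir]
    have : sky ((ν, 0) :: (ρ, 0) :: l) (δ + 3 - k) = sky ((ρ, 0) :: l) (δ + 3 - k) := by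
      show (if (0 : ℤ) ≤ δ + 3 - k ∧ δ + 3 - k < 0 + 4 then some ν else _) = _
      rw [if_neg (by omega)]
    rw [this]
    exact s' _ (by omega) (by omega)
  · intro k hk1 hk2
    rw [sky_mir]
    show (if (0 : ℤ) ≤ δ + 3 - k ∧ δ + 3 - k < 0 + 4 then some ν else _) = _
    rw [if_pos (by omega)]

/-- one step of the tower, where moreover the new bar `ν` sees `γ` -/
theorem TS.step' {E : V → V → Prop} {β : V → ℕ} {δ : ℤ} {α γ : V} (h : TS E β δ α γ) (h1 : 2 ≤ δ)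
    (h3 : δ ≤ 3) (ρ ν : V) :
    TS (fun a b => E a b ∨ ((Pr ρ α a b ∨ Pr ρ γ a b ∨ Pr ρ ν a b) ∨ Pr ν γ a b))
      (fun v => β v + (ind ρ v + ind ν v)) (δ - 1) γ ν := by
  obtain ⟨l, hc, hE, hs1, hs2⟩ := h
  have s : ∀ k, 0 ≤ k → k < 4 → sky ((ρ, 0) :: l) k = some ρ := by
    intro k hk1 hk2
    simp only [sky]; rw [if_pos (by omega)]
  have s' : ∀ k, 4 ≤ k → k < δ + 4 → sky ((ρ, 0) :: l) k = some γ := by
    intro k hk1 hk2
    simp only [sky]; rw [if_neg (by omega)]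
    exact hs2 k (by omega) hk2
  have o1 : ∀ y, (∃ k : ℤ, 0 ≤ k ∧ k < 0 + 4 ∧ sky l k = some y) ↔ (y = α ∨ y = γ) := by
    intro y
    constructor
    · rintro ⟨k, hk1, hk2, hk⟩
      rcases lt_or_ge k δ with h | h
      · rw [hs1 k hk1 h] at hk
        left; exact (Option.some.inj hk).symm
      · rw [hs2 k h (by omega)] at hk
        right; exact (Option.some.inj hk).symm
    · rintro (rfl | rfl)
      · exact ⟨0, le_refl _, by omega, hs1 0 (le_refl _) (by omega)⟩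
      · exact ⟨3, by omega, by omega, hs2 3 h3 (by omega)⟩
  have o2 : ∀ y, (∃ k : ℤ, 1 ≤ k ∧ k < 1 + 4 ∧ sky ((ρ, 0) :: l) k = some y) ↔
      (y = ρ ∨ y = γ) := by
    intro y
    constructor
    · rintro ⟨k, hk1, hk2, hk⟩
      rcases lt_or_ge k 4 with h | h
      · rw [s k (by omega) h] at hk
        left; exact (Option.some.inj hk).symm
      · rw [s' k h (by omega)] at hk
        right; exact (Option.some.inj hk).symm
    · rintro (rfl | rfl)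
      · exact ⟨1, le_refl _, by omega, s 1 (by omega) (by omega)⟩
      · exact ⟨4, by omega, by omega, s' 4 (by omega) (by omega)⟩
  refine ⟨mir (δ + 3) ((ν, 1) :: (ρ, 0) :: l), ?_, ?_, ?_, ?_⟩
  · intro v
    rw [cnt_mir]
    have := hc v
    simp only [cnt, ind]
    omega
  · intro a b hab
    rw [on_mir, on_mir]
    have e : ∀ x y, On ((ν, 1) :: (ρ, 0) :: l) x y ↔
        ((On l x y ∨ (ρ = x ∧ (y = α ∨ y = γ))) ∨ (ν = x ∧ (y = ρ ∨ y = γ))) := by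
      intro x y
      show ((On l x y ∨ (ρ = x ∧ ∃ k : ℤ, 0 ≤ k ∧ k < 0 + 4 ∧ sky l k = some y)) ∨
        (ν = x ∧ ∃ k : ℤ, 1 ≤ k ∧ k < 1 + 4 ∧ sky ((ρ, 0) :: l) k = some y)) ↔ _
      rw [o1, o2]
    rw [e, e]
    show (E a b ∨ ((Pr ρ α a b ∨ Pr ρ γ a b ∨ Pr ρ ν a b) ∨ Pr ν γ a b)) ↔ _
    rw [hE a b hab]
    exact logic2 _ _ ρ ν α γ a b
  · intro k hk1 hk2
    rw [sky_mir]
    have : sky ((ν, 1) :: (ρ, 0) :: l) (δ + 3 - k) = sky ((ρ, 0) :: l) (δ + 3 - k) := by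
      show (if (1 : ℤ) ≤ δ + 3 - k ∧ δ + 3 - k < 1 + 4 then some ν else _) = _
      rw [if_neg (by omega)]
    rw [this]
    exact s' _ (by omega) (by omega)
  · intro k hk1 hk2
    rw [sky_mir]
    show (if (1 : ℤ) ≤ δ + 3 - k ∧ δ + 3 - k < 1 + 4 then some ν else _) = _
    rw [if_pos (by omega)]

end Pool.Agent.UBV
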