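import Pool.Agent.UBV.Step2

set_option autoImplicit false
set_option linter.unusedSectionVars false

namespace Pool.Agent.UBV

variable {V : Type*} [DecidableEq V] {G : SimpleGraph V} {x y z : V}

/-- the graph induced on `W` has a drawing with at most `B` bars per vertex -/
def PW (G : SimpleGraph V) (W : Finset V) (B : ℕ) : Prop :=
  Rep (fun a b => G.Adj a b ∧ a ∈ W ∧ b ∈ W) (fun v => B * iA W v)

theorem PW.mono {W : Finset V} {B B' : ℕ} (h : PW G W B) (hB : B ≤ B') : PW G W B' :=
  Rep.mono h fun v => Nat.mul_le_mul_right _ hB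

theorem mem_xyz {a : V} : a ∈ ({x, y, z} : Finset V) ↔ inT x y z a := by
  simp [inT]

theorem iA_xyz (hd : Fr x y z) (v : V) : iA ({x, y, z} : Finset V) v = ind x v + ind y v + ind z v := by
  obtain ⟨h1, h2, h3⟩ := hd
  by_cases hx : x = v
  · subst hx
    rw [iA_mem (by simp)]
    unfold ind
    simp [h1.symm, h3.symm]
  · by_cases hy : y = v
    · subst hy
      rw [iA_mem (by simp)]
      unfold ind
      simp [h1, h2.symm]
    · by_cases hz : z = v
      · subst hz
        rw [iA_mem (by simp)]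
        unfold ind
        simp [h3, h2]
      · rw [iA_notMem]
        · unfold ind
          simp [hx, hy, hz]
        · simp only [Finset.mem_insert, Finset.mem_singleton]
          rintro (h | h | h)
          · exact hx h.symm
          · exact hy h.symm
          · exact hz h.symm

theorem disj_xyz {R : Finset V} (hR : Out x y z R) : Disjoint ({x, y, z} : Finset V) R := by
  rw [Finset.disjoint_left]
  intro v hv hv'
  have := hR v hv'
  rw [mem_xyz] at hv
  rcases hv with rfl | rfl | rfl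
  · exact this.1 rfl
  · exact this.2.1 rfl
  · exact this.2.2 rfl

theorem iA_union {A A' : Finset V} (hd : Disjoint A A') (v : V) :
    iA (A ∪ A') v = iA A v + iA A' v := by
  by_cases h1 : v ∈ A
  · have h2 : v ∉ A' := fun h => Finset.disjoint_left.1 hd h1 h
    rw [iA_mem h1, iA_notMem h2, iA_mem (Finset.mem_union_left _ h1)]
  · by_cases h2 : v ∈ A'
    · rw [iA_notMem h1, iA_mem h2, iA_mem (Finset.mem_union_right _ h2)]
    · rw [iA_notMem h1, iA_notMem h2, iA_notMem]
      simp [h1, h2]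

theorem combine (hd : Fr x y z) {R : Finset V} (hR : Out x y z R) {B B' : ℕ}
    (h : RG G x y z R (N1 V) B B B) (h' : PW G R B') (hB : B' + 1 ≤ B) :
    PW G ({x, y, z} ∪ R) B := by
  refine ((Rep.union h h').congr fun a b _ => ?_).mono fun v => ?_
  · unfold ER N1
    simp only [Finset.mem_union, mem_xyz]
    tauto
  · rw [iA_union (disj_xyz hR), iA_xyz hd]
    unfold bd
    have : (B' + 1) * iA R v ≤ B * iA R v := Nat.mul_le_mul_right _ hB
    nlinarith

/-- three vertices -/
theorem pw3 {R : Finset V} (hc : R.card = 3) : PW G R 1 := by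
  obtain ⟨x, y, z, hxy, hxz, hyz, rfl⟩ := Finset.card_eq_three.1 hc
  have hd : Fr x y z := ⟨hxy, hyz, hxz⟩
  refine Rep.mono (Rep.congr (d30 (G := G) hd) fun a b _ => ?_) fun v => ?_
  · unfold ER N1
    simp only [mem_xyz]
    simp
  · rw [iA_xyz hd]
    unfold bd
    rw [iA_notMem (by simp)]
    omega

/-- four vertices, not a clique -/
theorem pw4 {R : Finset V} (hc : R.card = 4)
    (hn : ¬ ∀ a ∈ R, ∀ b ∈ R, a ≠ b → G.Adj a b) : PW G R 1 := by
  obtain ⟨u, hu⟩ : R.Nonempty := Finset.card_pos.1 (by omega)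
  have hc' : (R.erase u).card = 3 := by rw [Finset.card_erase_of_mem hu]; omega
  obtain ⟨x, y, z, hxy, hxz, hyz, he⟩ := Finset.card_eq_three.1 hc'
  have hd : Fr x y z := ⟨hxy, hyz, hxz⟩
  have hmem : ∀ a, a ∈ R ↔ (a = u ∨ inT x y z a) := by
    intro a
    rw [← Finset.insert_erase hu, he, Finset.mem_insert, mem_xyz]
  have hx : x ≠ u := by
    intro h
    have : x ∈ R.erase u := by rw [he]; simp
    rw [h] at this; simp at this
  have hy : y ≠ u := by
    intro h
    have : y ∈ R.erase u := by rw [he]; simp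
    rw [h] at this; simp at this
  have hz : z ≠ u := by
    intro h
    have : z ∈ R.erase u := by rw [he]; simp
    rw [h] at this; simp at this
  have hnt : ¬ (Full G x y z u ∧ G.Adj x y ∧ G.Adj y z ∧ G.Adj x z) := by
    rintro ⟨⟨h1, h2, h3⟩, h4, h5, h6⟩
    apply hn
    intro a ha b hb hab
    rw [hmem] at ha hb
    rcases ha with rfl | rfl | rfl | rfl <;> rcases hb with rfl | rfl | rfl | rfl <;>
      first | exact absurd rfl hab | assumption | (apply SimpleGraph.Adj.symm; assumption)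
  refine Rep.mono (Rep.congr (d4 hd (G := G) ⟨hx.symm, hy.symm, hz.symm⟩ hnt)
    fun a b hab => ?_) fun v => ?_
  · unfold ER N1
    simp only [hmem, Finset.mem_singleton]
    constructor
    · rintro ⟨hG, h⟩
      refine ⟨hG, ?_⟩
      tauto
    · rintro ⟨hG, (rfl | h1), (rfl | h2)⟩
      · exact absurd rfl hab
      · exact ⟨hG, Or.inl ⟨rfl, h2⟩⟩
      · exact ⟨hG, Or.inr (Or.inl ⟨h1, rfl⟩)⟩
      · exact ⟨hG, Or.inr (Or.inr ⟨h1, h2, trivial⟩)⟩
  · have : iA R v = iA ({u} : Finset V) v + iA ({x, y, z} : Finset V) v := by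
      rw [← iA_union]
      · congr 1
        rw [← he, ← Finset.insert_eq, Finset.insert_erase hu]
      · rw [← he]; simp
    rw [this, iA_xyz hd]
    unfold bd
    omega

/-- two vertices -/
theorem pw2 {R : Finset V} (hc : R.card = 2) : PW G R 1 := by
  obtain ⟨x, y, hxy, rfl⟩ := Finset.card_eq_two.1 hc
  by_cases hadj : G.Adj x y
  · refine ⟨[(x, 0), (y, 3)], ?_, ?_⟩
    · intro v
      show _ ≤ 1 * iA _ v
      by_cases hx : x = v
      · subst hx
        rw [iA_mem (by simp)]
        simp [cnt, hxy.symm]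
      · by_cases hy : y = v
        · subst hy
          rw [iA_mem (by simp)]
          simp [cnt, hxy]
        · simp [cnt, hx, hy]
    · intro a b hab
      simp only [On, exists_four, sky]
      norm_num
      simp only [reduceCtorEq, and_false, false_or]
      constructor
      · rintro ⟨_, rfl | rfl, rfl | rfl⟩
        · exact absurd rfl hab
        · left; exact ⟨rfl, rfl⟩
        · right; exact ⟨rfl, rfl⟩
        · exact absurd rfl hab
      · rintro (⟨rfl, rfl⟩ | ⟨rfl, rfl⟩)
        · exact ⟨hadj, Or.inl rfl, Or.inr rfl⟩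
        · exact ⟨hadj.symm, Or.inr rfl, Or.inl rfl⟩
  · refine (Rep.empty _).congr fun a b hab => ?_
    simp only [false_iff, Finset.mem_insert, Finset.mem_singleton]
    rintro ⟨hG, rfl | rfl, rfl | rfl⟩
    · exact hab rfl
    · exact hadj hG
    · exact hadj hG.symm
    · exact hab rfl

/-- cliques from a list -/
theorem pw_clique {N B : ℕ} {l : List (ℕ × ℤ)} (hlab : ∀ b ∈ l, b.1 < N)
    (hadj : ∀ i < N, ∀ j < N, i ≠ j → (onB l i j || onB l j i) = true)
    (hcnt : ∀ i < N, cntB l i ≤ B) {W : Finset V} (hc : W.card = N) (hN : 0 < N)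
    (hW : ∀ a ∈ W, ∀ b ∈ W, a ≠ b → G.Adj a b) : PW G W B := by
  classical
  obtain ⟨d, hd⟩ : W.Nonempty := Finset.card_pos.1 (by omega)
  obtain ⟨u, hu1, hu2⟩ := exists_enum W d
  rw [hc] at hu1 hu2
  have hlab' : LabLt N l := hlab
  refine ⟨relab u l, ?_, ?_⟩
  · intro v
    show _ ≤ B * iA _ v
    rw [cnt_relab u l hlab']
    by_cases hv : v ∈ W
    · obtain ⟨i, hi, rfl⟩ := (hu2 v).1 hv
      rw [iA_mem hv, Finset.sum_eq_single i]
      · rw [if_pos rfl, ← cntB_eq, mul_one]
        exact hcnt i hi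
      · intro j hj hji
        rw [if_neg]
        intro h
        exact hji (hu1 j (Finset.mem_range.1 hj) i hi h)
      · intro h; exact absurd (Finset.mem_range.2 hi) h
    · rw [iA_notMem hv]
      refine le_of_eq (Finset.sum_eq_zero ?_)
      intro j hj
      rw [if_neg]
      intro h
      exact hv ((hu2 v).2 ⟨j, Finset.mem_range.1 hj, h⟩)
  · intro a b hab
    rw [on_relab, on_relab]
    constructor
    · rintro ⟨_, ha, hb⟩
      obtain ⟨i, hi, rfl⟩ := (hu2 a).1 ha
      obtain ⟨j, hj, rfl⟩ := (hu2 b).1 hb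
      have hij : i ≠ j := by rintro rfl; exact hab rfl
      have := hadj i hi j hj hij
      rw [Bool.or_eq_true, onB_iff, onB_iff] at this
      rcases this with h | h
      · exact Or.inl ⟨i, j, rfl, rfl, h⟩
      · exact Or.inr ⟨j, i, rfl, rfl, h⟩
    · have main : ∀ i j, i < N → j < N → u i = a → u j = b → (G.Adj a b ∧ a ∈ W ∧ b ∈ W) := by
        intro i j hi hj ea eb
        have ha : a ∈ W := (hu2 a).2 ⟨i, hi, ea⟩
        have hb : b ∈ W := (hu2 b).2 ⟨j, hj, eb⟩
        exact ⟨hW a ha b hb hab, ha, hb⟩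
      rintro (⟨i, j, ea, eb, h⟩ | ⟨i, j, eb, ea, h⟩)
      · exact main i j (on_lt hlab' h).1 (on_lt hlab' h).2 ea eb
      · exact main j i (on_lt hlab' h).2 (on_lt hlab' h).1 ea eb

/-- a drawing of the complete graph with seven vertices with two bars for every vertex -/
def K7 : List (ℕ × ℤ) := [(4, 45), (6, 48), (5, 47), (3, 50), (2, -9), (6, -6), (1, -3), (5, 0),
  (0, -7), (4, -4), (3, -5), (2, -2), (1, -3), (0, 0)]

theorem K7_lab : ∀ b ∈ K7, b.1 < 7 := by decide +kernel
theorem K7_adj : ∀ i < 7, ∀ j < 7, i ≠ j → (onB K7 i j || onB K7 j i) = true := by decide +kernel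
theorem K7_cnt : ∀ i < 7, cntB K7 i ≤ 2 := by decide +kernel

theorem pw7 {W : Finset V} (hc : W.card = 7)
    (hW : ∀ a ∈ W, ∀ b ∈ W, a ≠ b → G.Adj a b) : PW G W 2 :=
  pw_clique K7_lab K7_adj K7_cnt hc (by omega) hW

/-- a drawing of the complete graph with four vertices with two bars for every vertex -/
def K4 : List (ℕ × ℤ) := [(3, 0), (2, 0), (1, 0), (0, 0), (2, 9), (0, 9), (3, 9), (1, 9)]

theorem K4_lab : ∀ b ∈ K4, b.1 < 4 := by decide +kernel
theorem K4_adj : ∀ i < 4, ∀ j < 4, i ≠ j → (onB K4 i j || onB K4 j i) = true := by decide +kernel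
theorem K4_cnt : ∀ i < 4, cntB K4 i ≤ 2 := by decide +kernel

theorem pw4' {W : Finset V} (hc : W.card = 4)
    (hW : ∀ a ∈ W, ∀ b ∈ W, a ≠ b → G.Adj a b) : PW G W 2 :=
  pw_clique K4_lab K4_adj K4_cnt hc (by omega) hW

/-- a full vertex count in a clique -/
theorem full_of_clique {W : Finset V} (hx : x ∈ W) (hy : y ∈ W) (hz : z ∈ W)
    (hW : ∀ a ∈ W, ∀ b ∈ W, a ≠ b → G.Adj a b) {u : V} (hu : u ∈ W)
    (hux : u ≠ x ∧ u ≠ y ∧ u ≠ z) : Full G x y z u :=
  ⟨hW u hu x hx hux.1, hW u hu y hy hux.2.1, hW u hu z hz hux.2.2⟩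

theorem out_sdiff (W : Finset V) : Out x y z (W \ {x, y, z}) := by
  intro a ha
  rw [Finset.mem_sdiff, mem_xyz] at ha
  exact ⟨fun h => ha.2 (Or.inl h), fun h => ha.2 (Or.inr (Or.inl h)),
    fun h => ha.2 (Or.inr (Or.inr h))⟩

theorem card_xyz (hd : Fr x y z) : ({x, y, z} : Finset V).card = 3 :=
  Finset.card_eq_three.2 ⟨x, y, z, hd.1, hd.2.2, hd.2.1, rfl⟩

theorem sub_xyz {W : Finset V} (hx : x ∈ W) (hy : y ∈ W) (hz : z ∈ W) :
    ({x, y, z} : Finset V) ⊆ W := by
  intro a ha
  rw [mem_xyz] at ha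
  rcases ha with rfl | rfl | rfl <;> assumption

open Classical in
/-- choice of the triple -/
theorem exists_triple {W : Finset V} (hc : 5 ≤ W.card) : ∃ x ∈ W, ∃ y ∈ W, ∃ z ∈ W, Fr x y z ∧
    (¬ (G.Adj x y ∧ G.Adj y z ∧ G.Adj x z) ∨
      2 ≤ ((W \ {x, y, z}).filter (Full G x y z)).card) := by
  by_cases hW : ∀ a ∈ W, ∀ b ∈ W, a ≠ b → G.Adj a b
  · obtain ⟨T, hT, hTc⟩ := Finset.exists_subset_card_eq (s := W) (n := 3) (by omega)
    obtain ⟨x, y, z, hxy, hxz, hyz, rfl⟩ := Finset.card_eq_three.1 hTc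
    have hx : x ∈ W := hT (by simp)
    have hy : y ∈ W := hT (by simp)
    have hz : z ∈ W := hT (by simp)
    refine ⟨x, hx, y, hy, z, hz, ⟨hxy, hyz, hxz⟩, Or.inr ?_⟩
    have e : (W \ {x, y, z}).filter (Full G x y z) = W \ {x, y, z} := by
      refine Finset.filter_true_of_mem fun u hu => ?_
      exact full_of_clique hx hy hz hW (Finset.sdiff_subset hu) (out_sdiff W u hu)
    rw [e, Finset.card_sdiff_of_subset hT, hTc]
    omega
  · push Not at hW
    obtain ⟨x, hx, y, hy, hxy, hadj⟩ := hW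
    obtain ⟨z, hz⟩ : (W \ {x, y}).Nonempty := by
      rw [← Finset.card_pos]
      have := Finset.le_card_sdiff ({x, y} : Finset V) W
      rw [Finset.card_pair hxy] at this
      omega
    rw [Finset.mem_sdiff] at hz
    simp only [Finset.mem_insert, Finset.mem_singleton, not_or] at hz
    exact ⟨x, hx, y, hy, z, hz.1, ⟨hxy, fun h => hz.2.2 h.symm, fun h => hz.2.1 h.symm⟩,
      Or.inl fun h => hadj h.1⟩

open Classical in
/-- seven vertices: a triple such that the rest is not a clique -/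
theorem exists_triple7 {W : Finset V} (hc : W.card = 7)
    (hW : ¬ ∀ a ∈ W, ∀ b ∈ W, a ≠ b → G.Adj a b) : ∃ x ∈ W, ∃ y ∈ W, ∃ z ∈ W, Fr x y z ∧
    (¬ (G.Adj x y ∧ G.Adj y z ∧ G.Adj x z) ∨
      2 ≤ ((W \ {x, y, z}).filter (Full G x y z)).card) ∧
    ¬ ∀ a ∈ W \ {x, y, z}, ∀ b ∈ W \ {x, y, z}, a ≠ b → G.Adj a b := by
  push Not at hW
  obtain ⟨x, hx, y, hy, hxy, hadj⟩ := hW
  by_cases h : ∃ z ∈ W, z ≠ x ∧ z ≠ y ∧
      ¬ ∀ a ∈ W \ {x, y, z}, ∀ b ∈ W \ {x, y, z}, a ≠ b → G.Adj a b
  · obtain ⟨z, hz, hzx, hzy, hn⟩ := h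
    exact ⟨x, hx, y, hy, z, hz, ⟨hxy, hzy.symm, hzx.symm⟩, Or.inl fun h => hadj h.1, hn⟩
  · push Not at h
    set K := W \ {x, y} with hK
    have hKc : K.card = 5 := by
      rw [Finset.card_sdiff_of_subset, Finset.card_pair hxy, hc]
      intro a ha
      simp only [Finset.mem_insert, Finset.mem_singleton] at ha
      rcases ha with rfl | rfl <;> assumption
    have hKm : ∀ a, a ∈ K ↔ (a ∈ W ∧ a ≠ x ∧ a ≠ y) := by
      intro a
      rw [hK, Finset.mem_sdiff]
      simp only [Finset.mem_insert, Finset.mem_singleton, not_or]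
    have hclique : ∀ a ∈ K, ∀ b ∈ K, a ≠ b → G.Adj a b := by
      intro a ha b hb hab
      obtain ⟨z, hz⟩ : (K \ {a, b}).Nonempty := by
        rw [← Finset.card_pos]
        have := Finset.le_card_sdiff ({a, b} : Finset V) K
        rw [Finset.card_pair hab] at this
        omega
      rw [Finset.mem_sdiff] at hz
      simp only [Finset.mem_insert, Finset.mem_singleton, not_or] at hz
      have hzK := (hKm z).1 hz.1
      have haK := (hKm a).1 ha
      have hbK := (hKm b).1 hb
      refine h z hzK.1 hzK.2.1 hzK.2.2 a ?_ b ?_ hab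
      · rw [Finset.mem_sdiff]
        simp only [Finset.mem_insert, Finset.mem_singleton, not_or]
        exact ⟨haK.1, haK.2.1, haK.2.2, fun h => hz.2.1 h.symm⟩
      · rw [Finset.mem_sdiff]
        simp only [Finset.mem_insert, Finset.mem_singleton, not_or]
        exact ⟨hbK.1, hbK.2.1, hbK.2.2, fun h => hz.2.2 h.symm⟩
    obtain ⟨T, hT, hTc⟩ := Finset.exists_subset_card_eq (s := K) (n := 3) (by omega)
    obtain ⟨p, q, r, hpq, hpr, hqr, rfl⟩ := Finset.card_eq_three.1 hTc
    have hp : p ∈ K := hT (by simp)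
    have hq : q ∈ K := hT (by simp)
    have hr : r ∈ K := hT (by simp)
    have hpK := (hKm p).1 hp
    have hqK := (hKm q).1 hq
    have hrK := (hKm r).1 hr
    refine ⟨p, hpK.1, q, hqK.1, r, hrK.1, ⟨hpq, hqr, hpr⟩, Or.inr ?_, ?_⟩
    · have hsub : K \ {p, q, r} ⊆ (W \ {p, q, r}).filter (Full G p q r) := by
        intro u hu
        rw [Finset.mem_filter]
        have hu' := Finset.mem_sdiff.1 hu
        refine ⟨Finset.mem_sdiff.2 ⟨((hKm u).1 hu'.1).1, hu'.2⟩, ?_⟩
        exact full_of_clique hp hq hr hclique hu'.1 (out_sdiff K u hu)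
      have := Finset.card_le_card hsub
      rw [Finset.card_sdiff_of_subset hT, hTc, hKc] at this
      exact this
    · intro hcl
      apply hadj
      refine hcl x ?_ y ?_ hxy
      · rw [Finset.mem_sdiff, mem_xyz]
        refine ⟨hx, ?_⟩
        rintro (h | h | h)
        · exact hpK.2.1 h.symm
        · exact hqK.2.1 h.symm
        · exact hrK.2.1 h.symm
      · rw [Finset.mem_sdiff, mem_xyz]
        refine ⟨hy, ?_⟩
        rintro (h | h | h)
        · exact hpK.2.2 h.symm
        · exact hqK.2.2 h.symm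
        · exact hrK.2.2 h.symm

/-- the upper bound -/
theorem upper (n : ℕ) : ∀ W : Finset V, W.card = n → 5 ≤ n → PW G W ((n + 1) / 3) := by
  classical
  induction n using Nat.strong_induction_on with
  | _ n ih =>
    intro W hc hn
    -- the step
    have go : ∀ x ∈ W, ∀ y ∈ W, ∀ z ∈ W, Fr x y z →
        (¬ (G.Adj x y ∧ G.Adj y z ∧ G.Adj x z) ∨
          2 ≤ ((W \ {x, y, z}).filter (Full G x y z)).card) → ∀ B B' : ℕ,
        PW G (W \ {x, y, z}) B' → n ≤ 3 * B + 1 → B' + 1 ≤ B → PW G W B := by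
      intro x hx y hy z hz hd htri B B' hPW hB hB'
      have hsub := sub_xyz hx hy hz
      have hRc : (W \ {x, y, z}).card = n - 3 := by
        rw [Finset.card_sdiff_of_subset hsub, card_xyz hd, hc]
      have h1 := step hd (out_sdiff W) (by omega) (B := B) (by omega) htri
      have h2 := combine hd (out_sdiff W) h1 hPW hB'
      rwa [Finset.union_sdiff_of_subset hsub] at h2
    by_cases h7 : n = 7
    · subst h7
      by_cases hW : ∀ a ∈ W, ∀ b ∈ W, a ≠ b → G.Adj a b
      · exact (pw7 hc hW).mono (by omega)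
      · obtain ⟨x, hx, y, hy, z, hz, hd, htri, hnc⟩ := exists_triple7 hc hW
        have hRc : (W \ {x, y, z}).card = 4 := by
          rw [Finset.card_sdiff_of_subset (sub_xyz hx hy hz), card_xyz hd, hc]
        exact (go x hx y hy z hz hd htri 2 1 (pw4 hRc hnc) (by omega) (by omega)).mono (by omega)
    · obtain ⟨x, hx, y, hy, z, hz, hd, htri⟩ := exists_triple (G := G) (W := W) (by omega)
      have hRc : (W \ {x, y, z}).card = n - 3 := by
        rw [Finset.card_sdiff_of_subset (sub_xyz hx hy hz), card_xyz hd, hc]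
      have h0 : n = 5 ∨ n = 6 ∨ 8 ≤ n := by omega
      rcases h0 with rfl | rfl | h8
      · exact (go x hx y hy z hz hd htri 2 1 (pw2 hRc) (by omega) (by omega)).mono (by omega)
      · exact (go x hx y hy z hz hd htri 2 1 (pw3 hRc) (by omega) (by omega)).mono (by omega)
      · have := ih (n - 3) (by omega) (W \ {x, y, z}) hRc (by omega)
        exact go x hx y hy z hz hd htri ((n + 1) / 3) _ this (by omega) (by omega)

end Pool.Agent.UBV
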